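import Mathlib

/-! Sets in a product of odd cycles without two points that differ by an odd box move. -/

open Finset Matrix

namespace Pool.Agent.Lib.MP_5ab464_nt

section one
variable {q : ℕ} [NeZero q]

def dd (x y : ZMod q) : ℚ := (if y = x then 1 else 0) + if y = x - 1 then 1 else 0
def nn (x y : ZMod q) : ℚ :=
  (if y = x then 2 else 0) + (if y = x + 1 then 1 else 0) + if y = x - 1 then 1 else 0
def pp (x y : ZMod q) : ℚ :=
  (if y = x then 2 else 0) - (if y = x + 1 then 1 else 0) - if y = x - 1 then 1 else 0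
def ee (y z : ZMod q) : ℚ := (-1) ^ (y - z).val
def rr (u y : ZMod q) : ℚ := (if u = y then 1 else 0) - if y = 0 then 1 else 0

theorem dd_dd (x y : ZMod q) : ∑ u, dd x u * dd y u = nn x y := by
  have h1 : (x - 1 = y - 1) ↔ y = x := by rw [sub_left_inj, eq_comm]
  have h2 : (x = y - 1) ↔ y = x + 1 := by rw [eq_sub_iff_add_eq, eq_comm]
  have h3 : (x - 1 = y) ↔ y = x - 1 := eq_comm
  have h4 : (x = y) ↔ y = x := eq_comm
  simp only [dd, nn, add_mul, sum_add_distrib, ite_mul, one_mul, zero_mul, sum_ite_eq', mem_univ,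
    if_true, h1, h2, h3, h4]
  split_ifs <;> norm_num

theorem dd_ee (hq : Odd q) (x z : ZMod q) : ∑ u, dd x u * ee u z = if x = z then 2 else 0 := by
  simp only [dd, add_mul, sum_add_distrib, ite_mul, one_mul, zero_mul, sum_ite_eq', mem_univ,
    if_true, ee]
  split_ifs with h
  · subst h
    obtain ⟨k, rfl⟩ := hq
    have : (x - 1 - x).val = 2 * k := by
      rw [show x - 1 - x = -1 by ring]; exact ZMod.val_neg_one (2 * k)
    rw [this]; simp; norm_num
  · have h0 : x - z ≠ 0 := sub_ne_zero.2 h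
    have h1 : (x - z).val ≠ 0 := by rwa [Ne, ZMod.val_eq_zero]
    have : (x - z).val = (x - 1 - z).val + 1 := by
      have e : x - 1 - z = (((x - z).val - 1 : ℕ) : ZMod q) := by
        rw [Nat.cast_sub (Nat.one_le_iff_ne_zero.2 h1), ZMod.natCast_zmod_val]; push_cast; ring
      rw [e, ZMod.val_natCast, Nat.mod_eq_of_lt (by have := ZMod.val_lt (x - z); omega)]
      omega
    rw [this, pow_succ]; ring

theorem pp_rr (x y : ZMod q) : ∑ u ∈ univ.erase 0, pp x u * rr u y = pp x y := by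
  have h0 : ∑ u, pp x u = 0 := by
    simp only [pp, sum_sub_distrib, sum_ite_eq', mem_univ, if_true]; norm_num
  rw [sum_erase_eq_sub (mem_univ _)]
  simp only [rr, mul_sub, sum_sub_distrib, mul_ite, mul_one, mul_zero, sum_ite_eq', mem_univ,
    if_true]
  by_cases h : y = 0
  · subst h; simp [h0]
  · simp [h, Ne.symm h]

theorem pp_nn (hq : 3 ≤ q) (x y : ZMod q) : pp x y = (if y - x = 0 then 1 else -1) * nn x y := by
  have : Fact (1 < q) := ⟨by omega⟩
  by_cases h : y = x
  · subst h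
    have h1 : ¬ y = y + 1 := by simp
    have h2 : ¬ y = y - 1 := by rw [eq_sub_iff_add_eq]; simp
    simp [pp, nn, h1, h2]
  · simp [pp, nn, h, sub_eq_zero]; ring

theorem nn_zero {x y : ZMod q} (h : ¬ (y - x = 0 ∨ y - x = 1 ∨ y - x = -1)) : nn x y = 0 := by
  push Not at h
  have h1 : ¬ y = x := fun e => h.1 (by rw [e]; ring)
  have h2 : ¬ y = x + 1 := fun e => h.2.1 (by rw [e]; ring)
  have h3 : ¬ y = x - 1 := fun e => h.2.2 (by rw [e]; ring)
  simp [nn, h1, h2, h3]

end one

/-- an odd box move -/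
def OddBox {ι : Type} [Fintype ι] {q : ι → ℕ} (r : ∀ i, ZMod (q i)) : Prop :=
  (∀ i, r i = 0 ∨ r i = 1 ∨ r i = -1) ∧ Odd (univ.filter fun i => r i ≠ 0).card

theorem box_bound {ι : Type} [Fintype ι] [DecidableEq ι] {q : ι → ℕ} [∀ i, NeZero (q i)]
    (ho : ∀ i, Odd (q i)) (h3 : ∀ i, 3 ≤ q i) (A : Finset (∀ i, ZMod (q i)))
    (hA : ∀ x ∈ A, ∀ y ∈ A, ¬ OddBox (y - x)) : A.card ≤ ∏ i, (q i - 1) := by
  classical
  let B : Finset (∀ i, ZMod (q i)) := Fintype.piFinset fun i => univ.erase 0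
  let D : Matrix A (∀ i, ZMod (q i)) ℚ := fun x u => ∏ i, dd (x.1 i) (u i)
  let E : Matrix (∀ i, ZMod (q i)) A ℚ := fun u z => ∏ i, ee (u i) (z.1 i)
  let P : Matrix A B ℚ := fun x u => ∏ i, pp (x.1 i) (u.1 i)
  let R : Matrix B A ℚ := fun u y => ∏ i, rr (u.1 i) (y.1 i)
  have hDE : D * E = (2 ^ Fintype.card ι : ℚ) • (1 : Matrix A A ℚ) := by
    ext x z
    simp only [Matrix.mul_apply, D, E, ← prod_mul_distrib, Matrix.smul_apply, Matrix.one_apply]
    rw [← Fintype.piFinset_univ, ← prod_univ_sum (fun _ => univ) fun i u => dd (x.1 i) u * ee u (z.1 i)]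
    simp only [dd_ee (ho _)]
    split_ifs with h
    · subst h; simp
    · obtain ⟨i, hi⟩ := Function.ne_iff.1 (fun e => h (Subtype.ext e) : x.1 ≠ z.1)
      rw [prod_eq_zero (mem_univ i) (by simp [hi])]; simp
  have hDD : D * Dᵀ = P * R := by
    ext x y
    simp only [Matrix.mul_apply, Matrix.transpose_apply, D, P, R, ← prod_mul_distrib]
    rw [← Fintype.piFinset_univ, ← prod_univ_sum (fun _ => univ) fun i u => dd (x.1 i) u * dd (y.1 i) u,
      sum_coe_sort B fun u => ∏ i, pp (x.1 i) (u i) * rr (u i) (y.1 i),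
      ← prod_univ_sum (fun _ => univ.erase 0) fun i u => pp (x.1 i) u * rr u (y.1 i)]
    simp only [dd_dd, pp_rr]
    simp only [pp_nn (h3 _), prod_mul_distrib]
    by_cases h : ∀ i, (y.1 - x.1) i = 0 ∨ (y.1 - x.1) i = 1 ∨ (y.1 - x.1) i = -1
    · have he : Even (univ.filter fun i => (y.1 - x.1) i ≠ 0).card :=
        Nat.not_odd_iff_even.1 fun ho => hA _ x.2 _ y.2 ⟨h, ho⟩
      rw [prod_ite, prod_const_one, prod_const, one_mul]
      simp only [Pi.sub_apply] at he
      rw [he.neg_one_pow, one_mul]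
    · obtain ⟨i, hi⟩ := not_forall.1 h
      rw [prod_eq_zero (f := fun i => nn (x.1 i) (y.1 i)) (mem_univ i) (nn_zero hi), mul_zero]
  have h1 : A.card ≤ D.rank := by
    have := rank_mul_le_left D E
    rwa [hDE, rank_smul_of_mem_nonZeroDivisors _ (by simp), rank_one, Fintype.card_coe] at this
  have h2 : D.rank ≤ B.card := by
    rw [← rank_self_mul_transpose, hDD]
    exact (rank_mul_le_left P R).trans (by simpa using rank_le_card_width P)
  refine h1.trans (h2.trans (le_of_eq ?_))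
  simp [B, Fintype.card_piFinset, ZMod.card]

/-- an odd box move between two points with no zero coordinate changes the parity -/
theorem parity_flip {ι : Type} [Fintype ι] {q : ι → ℕ} [∀ i, NeZero (q i)] (h3 : ∀ i, 3 ≤ q i)
    {x y : ∀ i, ZMod (q i)} (hx : ∀ i, x i ≠ 0) (hy : ∀ i, y i ≠ 0) (h : OddBox (y - x)) :
    (∑ i, (x i).val) % 2 ≠ (∑ i, (y i).val) % 2 := by
  have step : ∀ (i : ι) (u v : ZMod (q i)), v ≠ 0 → v - u = 1 → v.val = u.val + 1 := by
    intro i u v hv huv
    have h1 : v.val ≠ 0 := by rwa [Ne, ZMod.val_eq_zero]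
    have e : u = ((v.val - 1 : ℕ) : ZMod (q i)) := by
      rw [Nat.cast_sub (Nat.one_le_iff_ne_zero.2 h1), ZMod.natCast_zmod_val]; push_cast
      linear_combination -huv
    rw [e, ZMod.val_natCast, Nat.mod_eq_of_lt (by have := ZMod.val_lt v; omega)]
    omega
  have key : ∀ i, ((x i).val + (y i).val) % 2 = (if (y - x) i ≠ 0 then 1 else 0) % 2 := by
    intro i
    have : Fact (1 < q i) := ⟨by have := h3 i; omega⟩
    rcases h.1 i with e | e | e
    · have : y i = x i := sub_eq_zero.1 e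
      simp [e, this]; omega
    · have := step i (x i) (y i) (hy i) e
      simp only [e, ne_eq, one_ne_zero, not_false_eq_true, if_true]; omega
    · have := step i (y i) (x i) (hx i) (by rw [Pi.sub_apply] at e; linear_combination -e)
      simp only [e, ne_eq, neg_eq_zero, one_ne_zero, not_false_eq_true, if_true]; omega
  have h2 : (∑ i, (x i).val + ∑ i, (y i).val) % 2 = 1 := by
    rw [← sum_add_distrib, sum_nat_mod, sum_congr rfl fun i _ => key i, ← sum_nat_mod,
      ← card_filter]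
    exact Nat.odd_iff.1 h.2
  omega

end Pool.Agent.Lib.MP_5ab464_nt
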