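import Pool.Agent.Lib.MP_5ab464_nt.Box

/-! Density bookkeeping. -/

open Finset Filter Topology

namespace Pool.Agent.Lib.MP_5ab464_nt

open Classical in
/-- number of elements below `N` -/
noncomputable def cnt (A : Set ℕ) (N : ℕ) : ℕ := ((range N).filter (· ∈ A)).card

theorem cnt_eq (A : Set ℕ) (N : ℕ) : Nat.card ↑(A ∩ Set.Iio N) = cnt A N := by
  classical
  rw [cnt, Nat.card_coe_set_eq, ← Set.ncard_coe_finset]
  congr 1; ext x; simp [and_comm]

/-- density zero -/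
def Null (A : Set ℕ) : Prop := ∀ c : ℝ, 0 < c → ∀ᶠ N in atTop, (cnt A N : ℝ) ≤ c * N

theorem Null.mono {A B : Set ℕ} (h : Null B) (hAB : A ⊆ B) : Null A := fun c hc =>
  (h c hc).mono fun N hN => le_trans (by
    classical
    exact_mod_cast card_le_card (monotone_filter_right _ fun x _ hx => hAB hx)) hN

theorem Null.union {A B : Set ℕ} (hA : Null A) (hB : Null B) : Null (A ∪ B) := fun c hc =>
  ((hA (c / 2) (by positivity)).and (hB (c / 2) (by positivity))).mono fun N hN => by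
    classical
    have : cnt (A ∪ B) N ≤ cnt A N + cnt B N := by
      refine le_trans (card_le_card fun x hx => ?_) (card_union_le _ _)
      simp only [mem_filter, Set.mem_union, mem_union] at hx ⊢; tauto
    have : (cnt (A ∪ B) N : ℝ) ≤ cnt A N + cnt B N := by exact_mod_cast this
    linarith [hN.1, hN.2]

theorem null_Iic (a : ℕ) : Null (Set.Iic a) := fun c hc => by
  filter_upwards [tendsto_natCast_atTop_atTop.eventually_ge_atTop (((a : ℝ) + 1) / c)] with N hN
  have : cnt (Set.Iic a) N ≤ (range (a + 1)).card := card_le_card fun x hx => by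
    simp only [mem_filter, Set.mem_Iic, mem_range] at hx ⊢; omega
  rw [card_range] at this
  have : (cnt (Set.Iic a) N : ℝ) ≤ a + 1 := by exact_mod_cast this
  rw [div_le_iff₀ hc] at hN
  linarith

theorem null_biUnion {ι : Type} (s : Finset ι) (A : ι → Set ℕ) (h : ∀ i ∈ s, Null (A i)) :
    Null (⋃ i ∈ s, A i) := by
  classical
  induction s using Finset.induction_on with
  | empty => exact (null_Iic 0).mono (by simp)
  | insert a s ha ih =>
    rw [set_biUnion_insert]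
    exact (h a (mem_insert_self _ _)).union (ih fun i hi => h i (mem_insert_of_mem hi))

theorem null_primes (a p : ℕ) : Null {b | (p + (b - a)).Prime} := by
  refine Null.mono (B := Set.Iic a ∪ {b | a ≤ b ∧ (p + (b - a)).Prime}) ((null_Iic a).union ?_)
    fun b hb => by
      rcases le_total a b with h | h
      exacts [Or.inr ⟨h, hb⟩, Or.inl h]
  intro c hc
  have h1 := Chebyshev.eventually_primeCounting_le (ε := 1) one_pos
  have h2 : Tendsto (fun N : ℕ => ((N + p : ℕ) : ℝ)) atTop atTop :=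
    tendsto_natCast_atTop_atTop.comp (tendsto_add_atTop_nat p)
  have hl : 0 < Real.log 4 + 1 := by have := Real.log_pos (by norm_num : (1 : ℝ) < 4); linarith
  filter_upwards [h2.eventually h1, (Real.tendsto_log_atTop.comp h2).eventually_ge_atTop
    (2 * (Real.log 4 + 1) / c), eventually_ge_atTop p] with N hN hN2 hN3
  rw [Nat.floor_natCast] at hN
  have h3 : cnt {b | a ≤ b ∧ (p + (b - a)).Prime} N ≤ Nat.primeCounting (N + p) := by
    rw [← Nat.primesLE_card_eq_primeCounting]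
    refine card_le_card_of_injOn (fun b => p + (b - a)) (fun b hb => ?_) fun b hb b' hb' h => ?_
    · simp only [coe_filter, mem_range, Set.mem_ofPred_eq] at hb
      simp only [mem_coe, Nat.mem_primesLE]
      exact ⟨by omega, hb.2.2⟩
    · simp only [coe_filter, mem_range, Set.mem_ofPred_eq] at hb hb' h
      omega
  have h3' : (cnt {b | a ≤ b ∧ (p + (b - a)).Prime} N : ℝ) ≤ Nat.primeCounting (N + p) := by
    exact_mod_cast h3
  simp only [Function.comp] at hN2
  have h4 : 0 < Real.log ((N + p : ℕ) : ℝ) := lt_of_lt_of_le (by positivity) hN2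
  refine h3'.trans (hN.trans ?_)
  rw [div_le_iff₀ hc] at hN2
  rw [div_le_iff₀ h4]
  have h5 : ((N + p : ℕ) : ℝ) ≤ 2 * N := by
    have : (p : ℝ) ≤ N := by exact_mod_cast hN3
    push_cast; linarith
  have h6 : (0 : ℝ) ≤ N := by positivity
  nlinarith

theorem cnt_class {m : ℕ} {A : Set ℕ} (hA : ∀ a ∈ A, ∀ b ∈ A, a ≡ b [MOD m]) (N : ℕ) :
    (cnt A N : ℝ) ≤ N / m + 1 := by
  have : cnt A N ≤ (range (N / m + 1)).card := by
    refine card_le_card_of_injOn (fun b => b / m) (fun b hb => ?_) fun b hb b' hb' h => ?_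
    · simp only [coe_filter, mem_range, Set.mem_ofPred_eq, coe_range, Set.mem_Iio] at hb ⊢
      exact Nat.lt_succ_of_le (Nat.div_le_div_right hb.1.le)
    · simp only [coe_filter, mem_range, Set.mem_ofPred_eq] at hb hb' h
      rw [← Nat.div_add_mod b m, ← Nat.div_add_mod b' m, h, hA b hb.2 b' hb'.2]
  rw [card_range] at this
  have h2 : ((N / m : ℕ) : ℝ) ≤ N / m := Nat.cast_div_le
  have : (cnt A N : ℝ) ≤ (N / m : ℕ) + 1 := by exact_mod_cast this
  linarith

open Classical in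
/-- many residue classes meet a dense set in a set that is not null -/
theorem rich_many {Γ : Type} [Fintype Γ] {m : ℕ} (hm : 0 < m) (ψ : ℕ → Γ)
    (hψ : ∀ a b, ψ a = ψ b → a ≡ b [MOD m]) {A : Set ℕ} {δ : ℝ} (hδ : 0 < δ)
    (hA : ∀ M : ℕ, ∃ N : ℕ, M ≤ N ∧ δ * N ≤ cnt A N) :
    δ / 2 * m < (univ.filter fun γ => ¬ Null (A ∩ ψ ⁻¹' {γ})).card := by
  by_contra! h
  set G := univ.filter fun γ => ¬ Null (A ∩ ψ ⁻¹' {γ})
  have h1 : Null (⋃ γ ∈ Gᶜ, A ∩ ψ ⁻¹' {γ}) := null_biUnion _ _ fun γ hγ => by simpa [G] using hγ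
  obtain ⟨M, hM⟩ := eventually_atTop.1 ((h1 (δ / 4) (by positivity)).and
    (tendsto_natCast_atTop_atTop.eventually_gt_atTop (2 * (m : ℝ))))
  obtain ⟨N, hN, hN'⟩ := hA M
  obtain ⟨h2, h3⟩ := hM N hN
  have h4 : cnt A N ≤ ∑ γ ∈ G, cnt (A ∩ ψ ⁻¹' {γ}) N + cnt (⋃ γ ∈ Gᶜ, A ∩ ψ ⁻¹' {γ}) N := by
    refine le_trans (card_le_card fun x hx => ?_)
      ((card_union_le _ _).trans (add_le_add card_biUnion_le le_rfl))
    simp only [mem_filter, mem_union, mem_biUnion, Set.mem_iUnion, Set.mem_inter_iff,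
      Set.mem_preimage, Set.mem_singleton_iff] at hx ⊢
    by_cases hx' : ψ x ∈ G
    · exact Or.inl ⟨ψ x, hx', hx.1, hx.2, rfl⟩
    · exact Or.inr ⟨hx.1, ψ x, mem_compl.2 hx', hx.2, rfl⟩
  have h5 : ∑ γ ∈ G, (cnt (A ∩ ψ ⁻¹' {γ}) N : ℝ) ≤ G.card • ((N : ℝ) / m + 1) :=
    sum_le_card_nsmul _ _ _ fun γ _ => cnt_class (fun a ha b hb => hψ a b (ha.2.trans hb.2.symm)) N
  have h4' : (cnt A N : ℝ) ≤ ∑ γ ∈ G, (cnt (A ∩ ψ ⁻¹' {γ}) N : ℝ) +
    cnt (⋃ γ ∈ Gᶜ, A ∩ ψ ⁻¹' {γ}) N := by exact_mod_cast h4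
  have hm' : (0 : ℝ) < m := by exact_mod_cast hm
  have h6 : (G.card : ℝ) * ((N : ℝ) / m + 1) ≤ δ / 2 * m * ((N : ℝ) / m + 1) := by gcongr
  have h7 : δ / 2 * m * ((N : ℝ) / m + 1) = δ / 2 * N + δ / 2 * m := by field_simp
  rw [nsmul_eq_mul] at h5
  nlinarith

theorem exists_primes (W : ℕ) {δ : ℝ} (hδ : 0 < δ) : ∃ Q : Finset ℕ,
    (∀ q ∈ Q, q.Prime ∧ W < q) ∧ ∏ q ∈ Q, ((q : ℝ) - 1) ≤ δ * ∏ q ∈ Q, (q : ℝ) := by
  classical
  set f := Set.indicator {p : ℕ | p.Prime} (fun n : ℕ ↦ (1 : ℝ) / n) with hf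
  have h0 : ∀ n, 0 ≤ f n := fun n => Set.indicator_nonneg (fun _ _ => by positivity) n
  have h1 : ¬ Summable fun n => f (n + (W + 1)) :=
    mt (summable_nat_add_iff (W + 1)).1 not_summable_one_div_on_primes
  rw [not_summable_iff_tendsto_nat_atTop_of_nonneg fun n => h0 _] at h1
  obtain ⟨n, hn⟩ := (h1.eventually_ge_atTop (-Real.log δ)).exists
  refine ⟨((range n).image (· + (W + 1))).filter Nat.Prime, fun q hq => ?_, ?_⟩
  · simp only [mem_filter, mem_image] at hq
    obtain ⟨⟨a, _, rfl⟩, h⟩ := hq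
    exact ⟨h, by omega⟩
  set Q := ((range n).image (· + (W + 1))).filter Nat.Prime
  have h2 : ∑ i ∈ range n, f (i + (W + 1)) = ∑ q ∈ Q, (1 : ℝ) / q := by
    rw [sum_filter, sum_image fun a _ b _ h => by simpa using h]
    exact sum_congr rfl fun i _ => by simp [hf, Set.indicator_apply]
  have h3 : ∏ q ∈ Q, ((q : ℝ) - 1) ≤ ∏ q ∈ Q, (Real.exp (-(1 / q)) * q) :=
    prod_le_prod (fun q hq => by
      have : (1 : ℝ) ≤ q := by exact_mod_cast (mem_filter.1 hq).2.one_lt.le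
      linarith) fun q hq => by
      have : (0 : ℝ) < q := by exact_mod_cast (mem_filter.1 hq).2.pos
      have h := mul_le_mul_of_nonneg_right (Real.add_one_le_exp (-(1 / (q : ℝ)))) this.le
      rwa [add_mul, neg_mul, one_div_mul_cancel this.ne', one_mul, neg_add_eq_sub] at h
  rw [prod_mul_distrib, ← Real.exp_sum, sum_neg_distrib, ← h2] at h3
  refine h3.trans (mul_le_mul_of_nonneg_right ?_ (prod_nonneg fun _ _ => by positivity))
  rw [← Real.exp_log hδ, Real.exp_le_exp]; linarith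

end Pool.Agent.Lib.MP_5ab464_nt
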