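import Pool.Agent.Lib.MP_5ab464_nt.H84Defs

/-! The unfolding equation of `ball` is produced here once, for all modules that use it. -/

namespace Pool.Agent.Lib.MP_5ab464_nt

theorem eqfix1 : True := by
  have := @ball.eq_def
  trivial

end Pool.Agent.Lib.MP_5ab464_nt
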