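import Pool.Agent.Lib.MP_5ab464_nt.H84Rich
import Pool.Agent.Lib.MP_5ab464_nt.EqFix

/-! Slow growth of balls when there is no spread family of words. TASK BALL. -/

open Finset

namespace Pool.Agent.Lib.MP_5ab464_nt

namespace Ball

variable {ι : Type} [DecidableEq ι] {k W n m n₀ : ℕ}

/-- Position after `t` steps. -/
def pre (ω : Word ι k W n) (t : ℕ) : ι → ℤ :=
  ∑ s ∈ univ.filter fun s : Fin n => (s : ℕ) < t, stp (ω s).1

theorem pre_zero (ω : Word ι k W n) : pre ω 0 = 0 := by simp [pre]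

theorem pre_succ (ω : Word ι k W n) {t : ℕ} (h : t < n) :
    pre ω (t + 1) = pre ω t + stp (ω ⟨t, h⟩).1 := by
  have : (univ.filter fun s : Fin n => (s : ℕ) < t + 1) =
      insert ⟨t, h⟩ (univ.filter fun s : Fin n => (s : ℕ) < t) := by
    ext s
    simp only [mem_filter, mem_univ, true_and, mem_insert, Fin.ext_iff]
    omega
  rw [pre, this, sum_insert (by simp), add_comm, pre]

theorem pos_eq (ω : Word ι k W n) (j : Fin n) : pos ω j = pre ω (j + 1) := by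
  refine sum_congr ?_ fun _ _ => rfl
  ext s
  simp only [mem_filter, mem_univ, true_and, Fin.le_def]
  omega

theorem pre_congr {ω ω' : Word ι k W n} {t : ℕ}
    (h : ∀ s : Fin n, (s : ℕ) < t → (ω s).1 = (ω' s).1) : pre ω t = pre ω' t :=
  sum_congr rfl fun s hs => by rw [h s (mem_filter.1 hs).2]

/-- The word read from the time `n₀` on. -/
def suf (h : n₀ + m = n) (ω : Word ι k W n) : Word ι k W m :=
  fun j => ω ⟨n₀ + j, by omega⟩

theorem pre_suf (h : n₀ + m = n) (ω : Word ι k W n) {t : ℕ} (ht : t ≤ m) :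
    pre ω (n₀ + t) = pre ω n₀ + pre (suf h ω) t := by
  induction t with
  | zero => rw [pre_zero, add_zero, add_zero]
  | succ t ih =>
    rw [← add_assoc, pre_succ ω (by omega), pre_succ _ (show t < m by omega), ih (by omega),
      add_assoc]
    rfl

theorem pos_suf (h : n₀ + m = n) (ω : Word ι k W n) (j : Fin m) :
    pos ω ⟨n₀ + j, by omega⟩ = pre ω n₀ + pos (suf h ω) j := by
  rw [pos_eq, pos_eq, ← pre_suf h ω j.2]
  rfl

omit [DecidableEq ι] in
theorem cost_suf {ρ i : ℕ} (hρ : 1 ≤ ρ) (h : i * ρ + m = n) (ω : Word ι k W n) :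
    cost ρ (suf h ω) 0 ≤ cost ρ ω i := by
  classical
  refine card_le_card_of_injOn (fun j : Fin m => (⟨i * ρ + j, by omega⟩ : Fin n)) ?_ ?_
  · intro j hj
    simp only [coe_filter, mem_univ, true_and, Set.mem_ofPred_eq] at hj ⊢
    refine ⟨Nat.le_add_right _ _, fun t ht hb => ?_⟩
    have e : ∀ c, (i * ρ + c) / ρ = i + c / ρ := fun c => by
      rw [add_comm, Nat.add_mul_div_right _ _ hρ, add_comm]
    have h1 : i * ρ ≤ t := by
      refine (Nat.le_div_iff_mul_le hρ).1 ?_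
      rw [hb, e]
      exact Nat.le_add_right _ _
    have ht' : (t : ℕ) < i * ρ + j := ht
    have h2 : (t : ℕ) = i * ρ + (t - i * ρ) := by omega
    have h3 := hj.2 ⟨t - i * ρ, by omega⟩ (show (t : ℕ) - i * ρ < j by omega) (by
      rw [h2, e, e] at hb
      exact Nat.add_left_cancel hb)
    simp only [suf, ← h2] at h3
    exact h3
  · intro j _ j' _ e
    exact Fin.ext (Nat.add_left_cancel (congrArg Fin.val e))

omit [DecidableEq ι] in
theorem cost_step (ρ i : ℕ) (ω : Word ι k W n) : cost ρ ω i ≤ cost ρ ω (i + 1) + ρ := by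
  classical
  have h1 : (univ.filter fun j : Fin n => i * ρ ≤ j ∧ (j : ℕ) < (i + 1) * ρ).card ≤ ρ := by
    refine (card_le_card_of_injOn (t := Ico (i * ρ) ((i + 1) * ρ)) Fin.val (fun j hj => ?_)
      Fin.val_injective.injOn).trans (by rw [Nat.card_Ico, add_mul]; omega)
    simpa using hj
  refine le_trans (le_trans (card_le_card fun j hj => ?_) (card_union_le _ _))
    (Nat.add_le_add_left h1 _)
  simp only [mem_union, mem_filter, mem_univ, true_and] at hj ⊢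
  rcases le_or_gt ((i + 1) * ρ) j with h | h
  exacts [Or.inl ⟨h, hj.2⟩, Or.inr ⟨hj.1, h⟩]

omit [DecidableEq ι] in
theorem cost_end (ρ N : ℕ) (ω : Word ι k W (N * ρ)) : cost ρ ω N = 0 := by
  classical
  exact card_eq_zero.2 (filter_eq_empty_iff.2 fun j _ h => absurd j.2 (not_lt.2 h.1))

omit [DecidableEq ι] in
theorem cost_le (ρ i : ℕ) (ω : Word ι k W n) : cost ρ ω i ≤ n := by
  classical
  exact (card_filter_le _ _).trans (by simp)

variable [Fintype ι]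

/-- Words describing the branches of a tree with root `v`. -/
structure Tree (V₀ : Finset ℤ) (r : ι → ℤ) (off : ℤ → Fin k → Fin W) (v : ℤ)
    (T : Finset (Word ι k W n)) : Prop where
  inj : ∀ ω ∈ T, Function.Injective (pos ω)
  mem : ∀ ω ∈ T, ∀ j, v + ∑ a, pos ω j a * r a ∈ V₀ ∧ (ω j).2 = off (v + ∑ a, pos ω j a * r a)
  ext : ∀ ω ∈ T, ∀ ω' ∈ T, ∀ j, pos ω j = pos ω' j → ∀ t ≤ j, ω t = ω' t

variable {V₀ : Finset ℤ} {r : ι → ℤ} {off : ℤ → Fin k → Fin W} {v : ℤ}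

theorem Tree.suffix {T C : Finset (Word ι k W n)} (hT : Tree V₀ r off v T) (hC : C ⊆ T)
    (h : n₀ + m = n) (hp : ∀ ω ∈ C, ∀ ω' ∈ C, ∀ t : Fin n, (t : ℕ) < n₀ → ω t = ω' t) :
    ∃ (v' : ℤ) (T' : Finset (Word ι k W m)), Tree V₀ r off v' T' ∧ C.card = T'.card ∧
      ∀ ω' ∈ T', ∃ ω ∈ C, suf h ω = ω' := by
  classical
  rcases C.eq_empty_or_nonempty with rfl | ⟨ω₀, h₀⟩
  · exact ⟨0, ∅, ⟨by simp, by simp, by simp⟩, rfl, by simp⟩
  have h1 : ∀ ω ∈ C, pre ω n₀ = pre ω₀ n₀ := fun ω hω =>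
    pre_congr fun s hs => by rw [hp ω hω ω₀ h₀ s hs]
  refine ⟨v + ∑ a, pre ω₀ n₀ a * r a, C.image (suf h), ⟨?_, ?_, ?_⟩,
    (card_image_of_injOn fun ω hω ω' hω' e => funext fun t => ?_).symm, fun _ => mem_image.1⟩
  · simp only [mem_image]
    rintro _ ⟨ω, hω, rfl⟩ j j' e
    have := hT.inj ω (hC hω) ((pos_suf h ω j).trans (e ▸ (pos_suf h ω j').symm))
    exact Fin.ext (Nat.add_left_cancel (congrArg Fin.val this))
  · simp only [mem_image]
    rintro _ ⟨ω, hω, rfl⟩ j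
    have := hT.mem ω (hC hω) ⟨n₀ + j, by omega⟩
    simp only [pos_suf h, h1 ω hω, Pi.add_apply, add_mul, sum_add_distrib, ← add_assoc] at this
    exact this
  · simp only [mem_image]
    rintro _ ⟨ω, hω, rfl⟩ _ ⟨ω', hω', rfl⟩ j e t ht
    refine hT.ext ω (hC hω) ω' (hC hω') ⟨n₀ + j, by omega⟩ ?_ _ (Nat.add_le_add_left ht n₀)
    rw [pos_suf h, pos_suf h, e, h1 ω hω, h1 ω' hω']
  · rcases lt_or_ge (t : ℕ) n₀ with ht | ht
    · exact hp ω hω ω' hω' t ht
    · have := congrFun e ⟨t - n₀, by omega⟩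
      simp only [suf, Nat.add_sub_cancel' ht] at this
      exact this

theorem tree_bound {ρ l E₀ D B : ℕ} (hρ : 1 ≤ ρ)
    (hE₀ : 4 * ρ ≤ E₀) (hD : Fintype.card ι ≤ D) (hD1 : 1 ≤ D) (hW : 1 ≤ W)
    (hD2 : (4 * ρ * W ^ k) ^ ρ ≤ D) (hB : 1 ≤ B) (hoff : ∀ t ∈ V₀, Function.Injective (off t))
    (hNS : ∀ (v : ℤ) (N i E : ℕ), N * ρ ≤ l → i ≤ N → E₀ ≤ E → E ≤ l →
      ∀ 𝒯 : Finset (Word ι k W (N * ρ)), 𝒯.Nonempty →
        (∀ ω ∈ 𝒯, Adm ρ i E ω ∧ ∀ j, v + ∑ a, pos ω j a * r a ∈ V₀ ∧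
          (ω j).2 = off (v + ∑ a, pos ω j a * r a)) →
        ∃ (j : Fin (N * ρ)) (u : ι → ℤ), i * ρ ≤ j ∧
          𝒯.card < B * (𝒯.filter fun ω => pos ω j = u).card) (E : ℕ) :
    ∀ (N : ℕ) (v : ℤ) (T : Finset (Word ι k W (N * ρ))), Tree V₀ r off v T → N * ρ ≤ l → E ≤ l →
      (∀ ω ∈ T, cost ρ ω 0 ≤ E) → T.card ≤ ((l + 1) * B) ^ (Nat.log 2 E + 1) * D ^ (2 * E₀) := by
  classical
  induction E using Nat.strong_induction_on with
  | _ E ih =>
  intro N v T hT hN hE hc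
  rcases lt_or_ge E E₀ with h | h
  · refine (card_le_card fun ω hω => mem_filter.2 ⟨mem_univ _, hc ω hω⟩).trans
      ((card_cost_le hρ hD hD1 hW hD2).trans ((Nat.pow_le_pow_right hD1 (by omega)).trans
        (Nat.le_mul_of_pos_left _ (by positivity))))
  have hex : ∀ ω : Word ι k W (N * ρ), ∃ i, cost ρ ω i ≤ E / 2 := fun ω =>
    ⟨N, (cost_end ρ N ω).trans_le (Nat.zero_le _)⟩
  have hle : ∀ ω, Nat.find (hex ω) ≤ N := fun ω =>
    Nat.find_min' _ ((cost_end ρ N ω).trans_le (Nat.zero_le _))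
  have hcl : ∀ i ≤ N, ∀ C ⊆ T.filter fun ω => Nat.find (hex ω) = i,
      (∀ ω ∈ C, ∀ ω' ∈ C, ∀ t : Fin (N * ρ), (t : ℕ) < i * ρ → ω t = ω' t) →
      C.card ≤ ((l + 1) * B) ^ (Nat.log 2 (E / 2) + 1) * D ^ (2 * E₀) := by
    intro i hi C hC hp
    have e : i * ρ + (N - i) * ρ = N * ρ := by rw [← add_mul, Nat.add_sub_cancel' hi]
    obtain ⟨v', T', h1, h2, h3⟩ := hT.suffix (hC.trans (filter_subset _ _)) e hp
    rw [h2]
    refine ih (E / 2) (by omega) (N - i) v' T' h1 (by omega) (by omega) fun ω' hω' => ?_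
    obtain ⟨ω, hω, rfl⟩ := h3 ω' hω'
    refine (cost_suf hρ e ω).trans ?_
    rw [← (mem_filter.1 (hC hω)).2]
    exact Nat.find_spec (hex ω)
  have hlog : Nat.log 2 E = Nat.log 2 (E / 2) + 1 :=
    Nat.log_of_one_lt_of_le one_lt_two (by omega)
  refine (card_le_mul_card_image_of_maps_to (t := range (N + 1)) (f := fun ω => Nat.find (hex ω))
    (fun ω _ => mem_range.2 (Nat.lt_succ_of_le (hle ω)))
    (B * (((l + 1) * B) ^ (Nat.log 2 (E / 2) + 1) * D ^ (2 * E₀))) fun i hi => ?_).trans ?_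
  · have hi' := Nat.le_of_lt_succ (mem_range.1 hi)
    rcases i with _ | i
    · exact (hcl 0 hi' _ Subset.rfl fun _ _ _ _ t ht => absurd ht (by simp)).trans
        (Nat.le_mul_of_pos_left _ hB)
    rcases (T.filter fun ω => Nat.find (hex ω) = i + 1).eq_empty_or_nonempty with h0 | h0
    · rw [h0]
      exact Nat.zero_le _
    obtain ⟨j, u, hj, hu⟩ := hNS v N (i + 1) E hN hi' h hE _ h0 fun ω hω => by
      obtain ⟨h1, h2⟩ := mem_filter.1 hω
      refine ⟨⟨hT.inj ω h1, fun j => ?_, hc ω h1, ?_⟩, hT.mem ω h1⟩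
      · rw [(hT.mem ω h1 j).2]
        exact hoff _ (hT.mem ω h1 j).1
      · have h3 := Nat.find_min (hex ω) (m := i) (by omega)
        have h4 := cost_step ρ i ω
        omega
    refine hu.le.trans (Nat.mul_le_mul_left _ (hcl _ hi' _ (filter_subset _ _)
      fun ω hω ω' hω' t ht => ?_))
    obtain ⟨h1, h2⟩ := mem_filter.1 hω
    obtain ⟨h3, h4⟩ := mem_filter.1 hω'
    exact hT.ext ω (mem_filter.1 h1).1 ω' (mem_filter.1 h3).1 j (h2.trans h4.symm) t
      (Fin.le_def.2 (by omega))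
  · have h1 : N + 1 ≤ l + 1 := Nat.succ_le_succ ((Nat.le_mul_of_pos_right N hρ).trans hN)
    rw [card_range, hlog, pow_succ _ (Nat.log 2 (E / 2) + 1)]
    refine (Nat.mul_le_mul_left _ h1).trans (le_of_eq ?_)
    ring

theorem mem_ball_succ {V : Type} {V₀ : Finset V} {E : V → V → Prop} {x y : V} {n : ℕ} :
    y ∈ ball V₀ E x (n + 1) ↔
      y ∈ ball V₀ E x n ∨ y ∈ V₀ ∧ ∃ z ∈ ball V₀ E x n, E z y ∨ E y z := by
  simp only [ball, mem_union, mem_filter]

/-- `y` is at distance exactly `d` from `x`. -/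
def Lay (V₀ : Finset ℤ) (r : ι → ℤ) (x : ℤ) (d : ℕ) (y : ℤ) : Prop :=
  y ∈ ball V₀ (fun y z => ∃ a, z = y + r a) x d ∧
    ∀ d' < d, y ∉ ball V₀ (fun y z => ∃ a, z = y + r a) x d'

variable {x y : ℤ} {d : ℕ}

omit [DecidableEq ι] [Fintype ι] in
theorem Lay.unique {d' : ℕ} (h : Lay V₀ r x d y) (h' : Lay V₀ r x d' y) : d = d' :=
  le_antisymm (not_lt.1 fun e => h.2 d' e h'.1) (not_lt.1 fun e => h'.2 d e h.1)

theorem sum_stp (r : ι → ℤ) (σ : ι × Bool) :
    ∑ a, stp σ a * r a = (if σ.2 then 1 else -1) * r σ.1 := by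
  rw [sum_eq_single σ.1 (fun a _ ha => by rw [stp, Pi.single_eq_of_ne ha, zero_mul]) (by simp), stp,
    Pi.single_eq_same]

theorem Lay.parent (h : Lay V₀ r x (d + 1) y) :
    y ∈ V₀ ∧ ∃ z σ, Lay V₀ r x d z ∧ y = z + ∑ a, stp σ a * r a := by
  obtain ⟨h2, z, hz, h3⟩ := (mem_ball_succ.1 h.1).resolve_left (h.2 d d.lt_succ_self)
  have h4 : Lay V₀ r x d z := ⟨hz, fun d' hd' hz' => h.2 (d' + 1) (by omega)
    (mem_ball_succ.2 (Or.inr ⟨h2, z, hz', h3⟩))⟩
  rcases h3 with ⟨a, e⟩ | ⟨a, e⟩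
  · exact ⟨h2, z, (a, true), h4, by simp [sum_stp, e]⟩
  · exact ⟨h2, z, (a, false), h4, by simp [sum_stp, e]⟩

theorem exists_tree [Nonempty ι] (V₀ : Finset ℤ) (r : ι → ℤ) (off : ℤ → Fin k → Fin W) (x : ℤ)
    (d : ℕ) {S : Finset ℤ} (hS : ∀ y ∈ S, Lay V₀ r x d y) :
    ∃ T : Finset (Word ι k W d), Tree V₀ r off x T ∧ S.card = T.card := by
  classical
  have h0 : ∀ y, ∃ (z : ℤ) (σ : ι × Bool), ∀ c, Lay V₀ r x (c + 1) y →
      Lay V₀ r x c z ∧ y = z + ∑ a, stp σ a * r a := fun y => by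
    by_cases h : ∃ c, Lay V₀ r x (c + 1) y
    · obtain ⟨c, hc⟩ := h
      obtain ⟨z, σ, h1⟩ := hc.parent.2
      refine ⟨z, σ, fun c' hc' => ?_⟩
      obtain rfl : c' = c := Nat.succ_injective (hc'.unique hc)
      exact h1
    · exact ⟨0, Classical.arbitrary _, fun c hc => absurd ⟨c, hc⟩ h⟩
  choose par lab hpar using h0
  have h1 : ∀ y ∈ S, ∀ t c, t + c = d → Lay V₀ r x c (par^[t] y) := fun y hy t => by
    induction t with
    | zero => exact fun c hc => by simpa [← hc] using hS y hy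
    | succ t ih =>
      intro c hc
      rw [Function.iterate_succ_apply']
      exact (hpar _ c (ih (c + 1) (by omega))).1
  obtain ⟨w, hw⟩ : ∃ w : ℤ → Word ι k W d, ∀ y t, w y t =
      (lab (par^[d - (t + 1)] y), off (par^[d - (t + 1)] y)) := ⟨_, fun _ _ => rfl⟩
  have h2 : ∀ y ∈ S, ∀ t ≤ d, x + ∑ a, pre (w y) t a * r a = par^[d - t] y := fun y hy t => by
    induction t with
    | zero =>
      intro _
      have := (h1 y hy d 0 rfl).1
      rw [ball, mem_singleton] at this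
      simp [pre_zero, this]
    | succ t ih =>
      intro ht
      have e := (hpar _ t (h1 y hy (d - (t + 1)) (t + 1) (by omega))).2
      have e' : par^[d - t] y = par (par^[d - (t + 1)] y) := by
        rw [show d - t = d - (t + 1) + 1 by omega, Function.iterate_succ_apply']
      rw [e, ← e', ← ih (by omega), pre_succ _ (show t < d by omega), hw]
      simp only [Pi.add_apply, add_mul, sum_add_distrib, add_assoc]
  have h3 : ∀ y ∈ S, ∀ j, x + ∑ a, pos (w y) j a * r a = par^[d - (j + 1)] y := fun y hy j => by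
    rw [pos_eq, h2 y hy _ j.2]
  have h4 : ∀ y ∈ S, ∀ j : Fin d, Lay V₀ r x (j + 1) (par^[d - (j + 1)] y) := fun y hy j =>
    h1 y hy _ _ (by omega)
  refine ⟨S.image w, ⟨?_, ?_, ?_⟩, (card_image_of_injOn fun y hy y' hy' e => ?_).symm⟩
  · simp only [mem_image]
    rintro _ ⟨y, hy, rfl⟩ j j' e
    have a1 := h4 y hy j
    rw [← h3 y hy, e, h3 y hy] at a1
    exact Fin.ext (Nat.succ_injective (a1.unique (h4 y hy j')))
  · simp only [mem_image]
    rintro _ ⟨y, hy, rfl⟩ j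
    rw [h3 y hy, hw]
    exact ⟨(h4 y hy j).parent.1, rfl⟩
  · simp only [mem_image]
    rintro _ ⟨y, hy, rfl⟩ _ ⟨y', hy', rfl⟩ j e t ht
    have a1 := h3 y hy j
    rw [e, h3 y' hy'] at a1
    have a2 : (t : ℕ) ≤ j := ht
    rw [hw, hw, show d - (t + 1) = j - t + (d - (j + 1)) by omega, Function.iterate_add_apply,
      Function.iterate_add_apply, a1]
  · have a1 := h2 y hy d le_rfl
    rw [e, h2 y' hy' d le_rfl, Nat.sub_self] at a1
    exact a1.symm

end Ball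

open Ball in
theorem ball_bound {ι : Type} [Fintype ι] [DecidableEq ι] {k W ρ l E₀ D B : ℕ} (hρ : 1 ≤ ρ)
    (hE₀ : 4 * ρ ≤ E₀) (hD : Fintype.card ι ≤ D) (hD1 : 1 ≤ D) (hW : 1 ≤ W)
    (hD2 : (4 * ρ * W ^ k) ^ ρ ≤ D) (hB : 1 ≤ B) (V₀ : Finset ℤ) (r : ι → ℤ)
    (off : ℤ → Fin k → Fin W) (hoff : ∀ t ∈ V₀, Function.Injective (off t))
    (hNS : ∀ (v : ℤ) (N i E : ℕ), N * ρ ≤ l → i ≤ N → E₀ ≤ E → E ≤ l →
      ∀ 𝒯 : Finset (Word ι k W (N * ρ)), 𝒯.Nonempty →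
        (∀ ω ∈ 𝒯, Adm ρ i E ω ∧ ∀ j, v + ∑ a, pos ω j a * r a ∈ V₀ ∧
          (ω j).2 = off (v + ∑ a, pos ω j a * r a)) →
        ∃ (j : Fin (N * ρ)) (u : ι → ℤ), i * ρ ≤ j ∧
          𝒯.card < B * (𝒯.filter fun ω => pos ω j = u).card)
    (x : ℤ) : (ball V₀ (fun y z => ∃ a, z = y + r a) x l).card ≤
      (l + 1) * (2 * D) ^ ρ * (((l + 1) * B) ^ (Nat.log 2 l + 1) * D ^ (2 * E₀)) := by
  classical
  rcases isEmpty_or_nonempty ι with hι | hι
  · have : ∀ n, ball V₀ (fun y z => ∃ a, z = y + r a) x n = {x} := fun n => by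
      induction n with
      | zero => rfl
      | succ n ih =>
        ext y
        rw [mem_ball_succ, ih]
        simp
    rw [this, card_singleton]
    exact Nat.succ_le_of_lt (by positivity)
  obtain ⟨dep, hdep⟩ : ∃ dep : ℤ → ℕ, ∀ y ∈ ball V₀ (fun y z => ∃ a, z = y + r a) x l,
      dep y ≤ l ∧ Lay V₀ r x (dep y) y := by
    refine ⟨fun y => sInf {n | y ∈ ball V₀ (fun y z => ∃ a, z = y + r a) x n}, fun y hy =>
      ⟨Nat.sInf_le hy, Nat.sInf_mem (s := {n | y ∈ ball V₀ _ x n}) ⟨l, hy⟩, fun d' hd' => ?_⟩⟩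
    exact Nat.notMem_of_lt_sInf hd'
  refine (card_le_mul_card_image_of_maps_to (t := range (l + 1)) (f := dep)
    (fun y hy => mem_range.2 (Nat.lt_succ_of_le (hdep y hy).1))
    ((2 * D) ^ ρ * (((l + 1) * B) ^ (Nat.log 2 l + 1) * D ^ (2 * E₀))) fun d hd => ?_).trans
    (by rw [card_range]; exact le_of_eq (by ring))
  have hd' := Nat.le_of_lt_succ (mem_range.1 hd)
  obtain ⟨T, hT, hc⟩ := exists_tree V₀ r off x d
    (S := (ball V₀ (fun y z => ∃ a, z = y + r a) x l).filter fun y => dep y = d) fun y hy => by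
      obtain ⟨h1, h2⟩ := mem_filter.1 hy
      exact h2 ▸ (hdep y h1).2
  have e : d % ρ + d / ρ * ρ = d := Nat.mod_add_div' d ρ
  rw [hc]
  refine (card_le_mul_card_image_of_maps_to (t := univ)
    (f := fun (ω : Word ι k W d) (t : Fin (d % ρ)) => (ω ⟨t, by omega⟩).1) (fun _ _ => mem_univ _)
    (((l + 1) * B) ^ (Nat.log 2 l + 1) * D ^ (2 * E₀)) fun c _ => ?_).trans ?_
  · obtain ⟨v', T', h1, h2, -⟩ := hT.suffix (filter_subset (fun ω : Word ι k W d =>
      (fun t : Fin (d % ρ) => (ω ⟨t, by omega⟩).1) = c) T) e fun ω hω ω' hω' t ht => by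
        obtain ⟨a1, a2⟩ := mem_filter.1 hω
        obtain ⟨a3, a4⟩ := mem_filter.1 hω'
        refine hT.ext ω a1 ω' a3 t ?_ t le_rfl
        rw [pos_eq, pos_eq]
        exact pre_congr fun s hs => congrFun (a2.trans a4.symm) ⟨s, by omega⟩
    exact h2.trans_le (tree_bound hρ hE₀ hD hD1 hW hD2 hB hoff hNS l _ v' T' h1 (by omega) le_rfl
      fun ω _ => (cost_le ρ 0 ω).trans (by omega))
  · rw [mul_comm]
    refine Nat.mul_le_mul_right _ ?_
    rw [card_univ, Fintype.card_fun, Fintype.card_prod, Fintype.card_bool, Fintype.card_fin]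
    exact (Nat.pow_le_pow_left (by omega) _).trans
      (Nat.pow_le_pow_right (by omega) (Nat.mod_lt d hρ).le)

end Pool.Agent.Lib.MP_5ab464_nt
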