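import Pool.Agent.Lib.MP_5ab464_nt.H84Defs
import Pool.Agent.Lib.MP_5ab464_nt.EqFix

/-! Digraphs with local height functions and slow growth are four colourable. TASK COLOUR. -/

open Finset

namespace Pool.Agent.Lib.MP_5ab464_nt

namespace Colour

variable {V : Type} {V₀ : Finset V} {E : V → V → Prop} {x y z : V} {m n : ℕ}

theorem mem_ball_zero : y ∈ ball V₀ E x 0 ↔ y = x := by
  simp only [ball, mem_singleton]

theorem mem_ball_succ : y ∈ ball V₀ E x (n + 1) ↔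
    y ∈ ball V₀ E x n ∨ (y ∈ V₀ ∧ ∃ z ∈ ball V₀ E x n, E z y ∨ E y z) := by
  simp only [ball, mem_union, mem_filter]

theorem ball_mono (h : m ≤ n) (hy : y ∈ ball V₀ E x m) : y ∈ ball V₀ E x n := by
  induction h with
  | refl => exact hy
  | step _ ih => exact mem_ball_succ.2 (Or.inl ih)

theorem self_mem : x ∈ ball V₀ E x n := ball_mono (Nat.zero_le n) (mem_ball_zero.2 rfl)

theorem mem_V (hx : x ∈ V₀) (hy : y ∈ ball V₀ E x n) : y ∈ V₀ := by
  induction n with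
  | zero => rwa [mem_ball_zero.1 hy]
  | succ n ih => exact (mem_ball_succ.1 hy).elim ih fun h => h.1

theorem ball_step (hy : y ∈ ball V₀ E x n) (hz : z ∈ V₀) (h : E y z ∨ E z y) :
    z ∈ ball V₀ E x (n + 1) := mem_ball_succ.2 (Or.inr ⟨hz, y, hy, h⟩)

theorem ball_trans (hy : y ∈ ball V₀ E x m) (hz : z ∈ ball V₀ E y n) :
    z ∈ ball V₀ E x (m + n) := by
  induction n generalizing z with
  | zero => rwa [mem_ball_zero.1 hz]
  | succ n ih =>
    rcases mem_ball_succ.1 hz with h | ⟨h, w, hw, h'⟩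
    · exact ball_mono (by omega) (ih h)
    · exact ball_step (ih hw) h h'

theorem ball_symm (hx : x ∈ V₀) (hy : y ∈ ball V₀ E x n) : x ∈ ball V₀ E y n := by
  induction n generalizing y with
  | zero => rw [mem_ball_zero.1 hy]; exact self_mem
  | succ n ih =>
    rcases mem_ball_succ.1 hy with h | ⟨-, w, hw, h'⟩
    · exact ball_mono (by omega) (ih h)
    · have h1 : w ∈ ball V₀ E y (0 + 1) := ball_step self_mem (mem_V hx hw) h'.symm
      exact ball_mono (by omega) (ball_trans h1 (ih hw))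

/-- Removing `Z'` from `Z` leaves clusters of radius `R` at mutual distance more than `τ`. -/
def Sep (V₀ : Finset V) (E : V → V → Prop) (τ R : ℕ) (Z Z' : Finset V) : Prop :=
  Z' ⊆ Z ∧ ∃ c : V → V, (∀ x ∈ Z, x ∉ Z' → c x ∈ V₀ ∧ x ∈ ball V₀ E (c x) R) ∧
    ∀ x ∈ Z, x ∉ Z' → ∀ y ∈ Z, y ∉ Z' → y ∈ ball V₀ E x τ → c x = c y

open Classical in
theorem exists_sep (τ R : ℕ) {Z : Finset V} (hZ : Z ⊆ V₀) : ∃ Z', Sep V₀ E τ R Z Z' ∧
    ∀ x ∈ V₀, ∀ r ≤ R, 2 * (Z' ∩ ball V₀ E x r).card ≤ (Z ∩ ball V₀ E x (r + τ)).card := by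
  obtain ⟨Z', hZ', hmin⟩ := exists_min_image (Z.powerset.filter (Sep V₀ E τ R Z)) card
    ⟨Z, mem_filter.2 ⟨mem_powerset_self Z, Subset.rfl, id, fun x hx h => (h hx).elim,
      fun x hx h => (h hx).elim⟩⟩
  obtain ⟨hs, c, hc1, hc2⟩ := (mem_filter.1 hZ').2
  refine ⟨Z', ⟨hs, c, hc1, hc2⟩, fun x₀ hx₀ r hr => ?_⟩
  set B := ball V₀ E x₀ r with hB
  set B' := ball V₀ E x₀ (r + τ) with hB'
  have hBB : B ⊆ B' := fun y hy => ball_mono (by omega) hy
  have hs' : Z' \ B ∪ (Z ∩ B') \ B ⊆ Z :=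
    union_subset (sdiff_subset.trans hs) (sdiff_subset.trans inter_subset_left)
  have hout : ∀ x ∈ Z, x ∉ Z' \ B ∪ (Z ∩ B') \ B → x ∉ B → x ∉ Z' ∧ x ∉ B' := fun x hx h hb =>
    ⟨fun h' => h (mem_union_left _ (mem_sdiff.2 ⟨h', hb⟩)),
      fun h' => h (mem_union_right _ (mem_sdiff.2 ⟨mem_inter.2 ⟨hx, h'⟩, hb⟩))⟩
  have h1 := hmin (Z' \ B ∪ (Z ∩ B') \ B) (mem_filter.2 ⟨mem_powerset.2 hs', hs',
    fun x => if x ∈ B then x₀ else c x, fun x hx h => ?_, fun x hx h y hy h' hxy => ?_⟩)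
  · have h2 := card_union_le (Z' \ B) ((Z ∩ B') \ B)
    have h3 := card_sdiff_add_card_inter Z' B
    have h4 := card_sdiff_add_card_inter (Z ∩ B') B
    have h5 : (Z' ∩ B).card ≤ (Z ∩ B' ∩ B).card := card_le_card fun y hy =>
      mem_inter.2 ⟨mem_inter.2 ⟨hs (mem_inter.1 hy).1, hBB (mem_inter.1 hy).2⟩, (mem_inter.1 hy).2⟩
    omega
  · by_cases hb : x ∈ B
    · simp only [if_pos hb]
      exact ⟨hx₀, ball_mono hr hb⟩
    · simp only [if_neg hb]
      exact hc1 x hx (hout x hx h hb).1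
  · by_cases hb : x ∈ B
    · by_cases hb' : y ∈ B
      · simp only [if_pos hb, if_pos hb']
      · exact ((hout y hy h' hb').2 (ball_trans hb hxy)).elim
    · by_cases hb' : y ∈ B
      · exact ((hout x hx h hb).2 (ball_trans hb' (ball_symm (hZ hx) hxy))).elim
      · simp only [if_neg hb, if_neg hb']
        exact hc2 x hx (hout x hx h hb).1 y hy (hout y hy h' hb').1 hxy

open Classical in
theorem exists_layers (τ R : ℕ) (i : ℕ) (hi : i * τ ≤ R) {Z : Finset V} (hZ : Z ⊆ V₀)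
    (hg : ∀ x ∈ V₀, (Z ∩ ball V₀ E x (i * τ)).card < 2 ^ i) : ∃ (l : V → ℕ) (c : V → V),
      (∀ x ∈ Z, l x < i ∧ c x ∈ V₀ ∧ x ∈ ball V₀ E (c x) R) ∧
      ∀ x ∈ Z, ∀ y ∈ Z, l x = l y → y ∈ ball V₀ E x τ → c x = c y := by
  induction i generalizing Z with
  | zero =>
    have h : ∀ x, x ∉ Z := fun x hx => by
      have h1 := hg x (hZ hx)
      have h2 := card_pos.2 ⟨x, mem_inter.2 ⟨hx, self_mem (V₀ := V₀) (E := E) (n := 0 * τ)⟩⟩
      omega
    exact ⟨fun _ => 0, id, fun x hx => (h x hx).elim, fun x hx => (h x hx).elim⟩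
  | succ i ih =>
    have hi' : i * τ ≤ R := le_trans (Nat.mul_le_mul_right τ (Nat.le_succ i)) hi
    obtain ⟨Z', ⟨hs, c₀, h1, h2⟩, h3⟩ := exists_sep (E := E) τ R hZ
    obtain ⟨l, c, h4, h5⟩ := ih hi' (hs.trans hZ) fun x hx => by
      have h6 := h3 x hx _ hi'
      have h7 := hg x hx
      rw [Nat.succ_mul, pow_succ] at h7
      omega
    refine ⟨fun x => if x ∈ Z' then l x else i, fun x => if x ∈ Z' then c x else c₀ x,
      fun x hx => ?_, fun x hx y hy e hxy => ?_⟩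
    · by_cases h : x ∈ Z'
      · simp only [if_pos h]
        exact ⟨(h4 x h).1.trans (Nat.lt_succ_self i), (h4 x h).2⟩
      · simp only [if_neg h]
        exact ⟨Nat.lt_succ_self i, h1 x hx h⟩
    · by_cases h : x ∈ Z'
      · by_cases h' : y ∈ Z'
        · simp only [if_pos h, if_pos h'] at e ⊢
          exact h5 x h y h' e hxy
        · simp only [if_pos h, if_neg h'] at e
          exact ((h4 x h).1.ne e).elim
      · by_cases h' : y ∈ Z'
        · simp only [if_neg h, if_pos h'] at e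
          exact ((h4 y h').1.ne e.symm).elim
        · simp only [if_neg h, if_neg h']
          exact h2 x hx h y hy h' hxy

/-- Walks inside `A` with `a` forward and `b` backward steps. -/
inductive Walk (A : V → Prop) (E : V → V → Prop) (x : V) : V → ℕ → ℕ → Prop
  | nil : Walk A E x x 0 0
  | fwd {y z : V} {a b : ℕ} : Walk A E x y a b → A z → E y z → Walk A E x z (a + 1) b
  | bwd {y z : V} {a b : ℕ} : Walk A E x y a b → A z → E z y → Walk A E x z a (b + 1)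

variable {A : V → Prop} {a b : ℕ}

theorem Walk.mem (h : Walk A E x y a b) (hx : A x) : A y := by
  cases h with
  | nil => exact hx
  | fwd _ hz _ => exact hz
  | bwd _ hz _ => exact hz

theorem Walk.level (h : Walk A E x y a b) {k : ℕ} (hk : a + k ≤ b) :
    ∃ v a' b', Walk A E x v a' b' ∧ a' + b' ≤ a + b ∧ a' + k = b' := by
  induction h with
  | nil => exact ⟨x, 0, 0, .nil, le_rfl, by omega⟩
  | fwd h _ _ ih =>
    obtain ⟨v, a', b', h1, h2, h3⟩ := ih (by omega)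
    exact ⟨v, a', b', h1, by omega, h3⟩
  | @bwd y z a b h hz he ih =>
    rcases hk.eq_or_lt with e | e
    · exact ⟨z, a, b + 1, h.bwd hz he, le_rfl, e⟩
    · obtain ⟨v, a', b', h1, h2, h3⟩ := ih (by omega)
      exact ⟨v, a', b', h1, by omega, h3⟩

theorem Walk.mem_ball (h : Walk A E x y a b) (hA : ∀ z, A z → z ∈ V₀) :
    y ∈ ball V₀ E x (a + b) := by
  induction h with
  | nil => exact self_mem
  | fwd _ hz he ih => exact ball_mono (by omega) (ball_step ih (hA _ hz) (Or.inl he))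
  | bwd _ hz he ih => exact ball_step ih (hA _ hz) (Or.inr he)

theorem Walk.height (h : Walk A E x y a b) (hA : ∀ z, A z → z ∈ V₀) {H : V → ℤ} (hn : a + b ≤ n)
    (hH : ∀ u ∈ ball V₀ E x n, ∀ v ∈ ball V₀ E x n, E u v → H v = H u + 1) :
    H y = H x + a - b := by
  induction h with
  | nil => simp
  | fwd h hz he ih =>
    rw [hH _ (ball_mono (by omega) (h.mem_ball hA)) _ (ball_mono hn ((h.fwd hz he).mem_ball hA)) he,
      ih (by omega)]
    push_cast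
    ring
  | bwd h hz he ih =>
    have h1 := hH _ (ball_mono hn ((h.bwd hz he).mem_ball hA)) _
      (ball_mono (by omega) (h.mem_ball hA)) he
    have h2 := ih (by omega)
    push_cast
    linarith

theorem Walk.cut {T : ℕ} (hT : 1 ≤ T)
    (hw : ∀ x y a b, A x → Walk A E x y a b → a + b = T → b ≤ 2 * a) (h : Walk A E x y a b)
    (hx : A x) : ∃ u a' b', A u ∧ Walk A E u y a' b' ∧ a' + b' ≤ T ∧ 2 * a' + b ≤ 2 * a + b' := by
  induction h with
  | nil => exact ⟨x, 0, 0, hx, .nil, by omega, le_rfl⟩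
  | fwd h hz he ih =>
    obtain ⟨u, a', b', h1, h2, h3, h4⟩ := ih
    rcases h3.eq_or_lt with e | e
    · have h5 := hw _ _ _ _ h1 h2 e
      exact ⟨_, 0 + 1, 0, h.mem hx, Walk.nil.fwd hz he, by omega, by omega⟩
    · exact ⟨u, a' + 1, b', h1, h2.fwd hz he, by omega, by omega⟩
  | bwd h hz he ih =>
    obtain ⟨u, a', b', h1, h2, h3, h4⟩ := ih
    rcases h3.eq_or_lt with e | e
    · have h5 := hw _ _ _ _ h1 h2 e
      exact ⟨_, 0, 0 + 1, h.mem hx, Walk.nil.bwd hz he, by omega, by omega⟩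
    · exact ⟨u, a', b' + 1, h1, h2.bwd hz he, by omega, by omega⟩

/-- The potential argument of Minty. -/
theorem minty {T : ℕ} (hT : 1 ≤ T)
    (hw : ∀ x y a b, A x → Walk A E x y a b → a + b = T → b ≤ 2 * a) :
    ∃ φ : V → ℕ, ∀ x y, A x → A y → E x y → φ x + 1 ≤ φ y ∧ φ y ≤ φ x + 2 := by
  classical
  have hb : ∀ x y a b, A x → Walk A E x y a b → b ≤ 2 * a + T := fun x y a b hx h => by
    obtain ⟨u, a', b', -, -, h1, h2⟩ := h.cut hT hw hx
    omega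
  have hex : ∀ y, ∃ k, A y → ∃ x a b, A x ∧ Walk A E x y a b ∧ k + b = 2 * a + T := fun y =>
    ⟨T, fun hy => ⟨y, 0, 0, hy, .nil, by omega⟩⟩
  refine ⟨fun y => Nat.find (hex y), fun x y hx hy he => ⟨?_, ?_⟩⟩
  · obtain ⟨u, a, b, hu, h, e⟩ := Nat.find_spec (hex y) hy
    have h1 := hb _ _ _ _ hu (h.bwd hx he)
    have h2 : Nat.find (hex x) ≤ Nat.find (hex y) - 1 :=
      Nat.find_min' _ fun _ => ⟨u, a, b + 1, hu, h.bwd hx he, by omega⟩
    beta_reduce
    omega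
  · obtain ⟨u, a, b, hu, h, e⟩ := Nat.find_spec (hex x) hx
    beta_reduce
    exact Nat.find_min' _ fun _ => ⟨u, a + 1, b, hu, h.fwd hy he, by omega⟩

theorem exists_indep {M σ R R₁ B G : ℕ} (F : V → V → ℤ)
    (hF1 : ∀ c ∈ V₀, ∀ x ∈ ball V₀ E c R, ∀ y ∈ ball V₀ E c R, E x y → F c y = F c x + 1)
    (hF2 : ∀ c ∈ V₀, ∀ c' ∈ V₀, ∀ x ∈ ball V₀ E c R, ∀ y ∈ ball V₀ E c R,
      x ∈ ball V₀ E c' R → y ∈ ball V₀ E c' R → F c y - F c x = F c' y - F c' x)
    {l : V → ℕ} {c : V → V} (h1 : ∀ x ∈ V₀, l x < M ∧ c x ∈ V₀ ∧ x ∈ ball V₀ E (c x) R₁)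
    (h2 : ∀ x ∈ V₀, ∀ y ∈ V₀, l x = l y → y ∈ ball V₀ E x (4 * σ) → c x = c y)
    (hR : R₁ + σ ≤ R) (hB : M * (2 * M + 1) + 2 ≤ B) (hG : (2 * M + 1) * (B + M) ≤ G)
    (hσ : 3 * G + 1 ≤ σ) : ∃ U : V → Prop, (∀ x y, U x → U y → ¬ E x y) ∧
      ∀ x y a b, (x ∈ V₀ ∧ ¬ U x) → Walk (fun z => z ∈ V₀ ∧ ¬ U z) E x y a b → a + b = 3 * G →
        b ≤ 2 * a := by
  have hin : ∀ x ∈ V₀, ∀ y ∈ ball V₀ E x σ, y ∈ ball V₀ E (c x) R := fun x hx y hy =>
    ball_mono hR (ball_trans (h1 x hx).2.2 hy)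
  have hsame : ∀ x ∈ V₀, ∀ x' ∈ V₀, l x = l x' → ∀ y ∈ ball V₀ E x σ, ∀ y' ∈ ball V₀ E x' σ,
      y' ∈ ball V₀ E y (2 * σ) → c x = c x' := fun x hx x' hx' e y hy y' hy' h =>
    h2 x hx x' hx' e (ball_mono (by omega) (ball_trans (ball_trans hy h) (ball_symm hx' hy')))
  let S : ℕ → V → Prop := fun i y =>
    ∃ x ∈ V₀, l x = i ∧ y ∈ ball V₀ E x σ ∧ ((B + i : ℕ) : ℤ) ∣ F (c x) y
  refine ⟨fun y => ∃ i, S i y ∧ ∀ j < i, ∀ z, S j z → ¬ (E y z ∨ E z y), ?_, ?_⟩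
  · rintro y y' ⟨i, hy, hi⟩ ⟨j, hy', hj⟩ he
    rcases lt_trichotomy i j with h | rfl | h
    · exact hj i h y hy (Or.inr he)
    · obtain ⟨x, hx, e, hb, hd⟩ := hy
      obtain ⟨x', hx', e', hb', hd'⟩ := hy'
      have h3 : y' ∈ ball V₀ E y (0 + 1) := ball_step self_mem (mem_V hx' hb') (Or.inl he)
      have h4 := hsame x hx x' hx' (e.trans e'.symm) y hb y' hb' (ball_mono (by omega) h3)
      have h5 := hin x' hx' y' hb'
      rw [← h4] at h5 hd'
      rw [hF1 _ (h1 x hx).2.1 y (hin x hx y hb) y' h5 he] at hd'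
      have h6 := Int.le_of_dvd one_pos ((dvd_add_right hd).1 hd')
      omega
    · exact hi j h y' hy' (Or.inl he)
  rintro x y a b ⟨hx, hxU⟩ hw hab
  by_contra hcon
  set p : ℕ := B + l x with hp
  have hlx := (h1 x hx).1
  have hp0 : (0 : ℤ) < p := by omega
  set k₀ : ℕ := (F (c x) x % p).toNat with hk₀
  have hk1 : (k₀ : ℤ) = F (c x) x % p := Int.toNat_of_nonneg (Int.emod_nonneg _ hp0.ne')
  have hk2 : (k₀ : ℤ) < p := hk1 ▸ Int.emod_lt_of_pos _ hp0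
  have hH : ∀ u ∈ ball V₀ E x σ, ∀ v ∈ ball V₀ E x σ, E u v → F (c x) v = F (c x) u + 1 :=
    fun u hu v hv => hF1 _ (h1 x hx).2.1 u (hin x hx u hu) v (hin x hx v hv)
  have hblock : ∀ u : Fin (2 * M + 1), ∃ (q : Fin M × Bool) (z : V), (q.1 : ℕ) < l x ∧ S q.1 z ∧
      z ∈ ball V₀ E x σ ∧
        F (c x) z = F (c x) x - k₀ - p * (u : ℕ) + (if q.2 then 1 else -1) := fun u => by
    have h3 : p * u + p ≤ G := by
      have h4 : p * (u + 1) ≤ (B + M) * (2 * M + 1) := Nat.mul_le_mul (by omega) u.2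
      rw [mul_comm (B + M), mul_add, mul_one] at h4
      omega
    obtain ⟨v, a', b', hv, h4, h5⟩ := hw.level (k := k₀ + p * u) (by omega)
    have h6 := hv.mem_ball (V₀ := V₀) fun z hz => hz.1
    have h7 := hv.height (V₀ := V₀) (fun z hz => hz.1) (n := σ) (by omega) hH
    have h8 : F (c x) v = F (c x) x - k₀ - p * (u : ℕ) := by
      rw [h7, ← h5]
      push_cast
      ring
    have h9 : S (l x) v := ⟨x, hx, rfl, ball_mono (by omega) h6, by
      rw [h8, hk1, Int.emod_def]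
      exact ⟨F (c x) x / p - (u : ℕ), by ring⟩⟩
    have h10 := (hv.mem ⟨hx, hxU⟩).2
    by_contra hno
    refine h10 ⟨l x, h9, fun j hj z hz he => hno ?_⟩
    have hzV : z ∈ V₀ := by
      obtain ⟨x', hx', -, hb, -⟩ := hz
      exact mem_V hx' hb
    have hzb : z ∈ ball V₀ E x σ := ball_mono (by omega) (ball_step h6 hzV he)
    have hvb : v ∈ ball V₀ E x σ := ball_mono (by omega) h6
    rcases he with he | he
    · exact ⟨(⟨j, hj.trans hlx⟩, true), z, hj, hz, hzb, by rw [hH v hvb z hzb he, h8, if_pos rfl]⟩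
    · refine ⟨(⟨j, hj.trans hlx⟩, false), z, hj, hz, hzb, ?_⟩
      rw [← h8, hH z hzb v hvb he, if_neg Bool.false_ne_true]
      ring
  choose q z hq hS hz hF using hblock
  obtain ⟨u, u', hne, e⟩ := Fintype.exists_ne_map_eq_of_card_lt q (by simp; omega)
  obtain ⟨w, hw1, hw2, hw3, hw4⟩ := hS u
  obtain ⟨w', hw1', hw2', hw3', hw4'⟩ := hS u'
  have h3 := hsame w hw1 w' hw1' (by rw [hw2, hw2', e]) _ hw3 _ hw3'
    (ball_mono (by omega) (ball_trans (ball_symm hx (hz u)) (hz u')))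
  have h4 := hin w' hw1' _ hw3'
  rw [← h3] at h4 hw4'
  rw [← e] at hw4'
  have h5 := hF2 _ (h1 w hw1).2.1 _ (h1 x hx).2.1 _ (hin w hw1 _ hw3) _ h4 (hin x hx _ (hz u))
    (hin x hx _ (hz u'))
  have h6 := dvd_sub hw4' hw4
  rw [h5, hF, hF, ← e] at h6
  have hj := hq u
  have h7 : ((B + (q u).1 : ℕ) : ℤ) ∣ ((l x : ℤ) - ((q u).1 : ℕ)) * (((u : ℕ) : ℤ) - (u' : ℕ)) := by
    refine (dvd_sub h6 (dvd_mul_right ((B + (q u).1 : ℕ) : ℤ)
      (((u : ℕ) : ℤ) - (u' : ℕ)))).trans (dvd_of_eq ?_)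
    rw [hp]
    push_cast
    ring
  have h8 : ((u : ℕ) : ℤ) - (u' : ℕ) ≠ 0 := fun h => hne (Fin.ext (by omega))
  have h9 := Int.le_of_dvd (abs_pos.2 (mul_ne_zero (by omega) h8)) ((dvd_abs _ _).2 h7)
  have h10 : |((u : ℕ) : ℤ) - (u' : ℕ)| ≤ 2 * M + 1 := by
    have := u.2
    have := u'.2
    rw [abs_le]
    omega
  have h11 : |(l x : ℤ) - ((q u).1 : ℕ)| ≤ M := by
    rw [abs_le]
    omega
  rw [abs_mul] at h9
  have h12 := mul_le_mul h11 h10 (abs_nonneg _) (by positivity)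
  have h13 : (M : ℤ) * (2 * M + 1) + 2 ≤ B := by exact_mod_cast hB
  omega

end Colour

theorem four_colour {V : Type} (V₀ : Finset V) (E : V → V → Prop) {M : ℕ} (hM : 1 ≤ M)
    (F : V → V → ℤ)
    (hF1 : ∀ c ∈ V₀, ∀ x ∈ ball V₀ E c (1000 * M ^ 4), ∀ y ∈ ball V₀ E c (1000 * M ^ 4),
      E x y → F c y = F c x + 1)
    (hF2 : ∀ c ∈ V₀, ∀ c' ∈ V₀, ∀ x ∈ ball V₀ E c (1000 * M ^ 4), ∀ y ∈ ball V₀ E c (1000 * M ^ 4),
      x ∈ ball V₀ E c' (1000 * M ^ 4) → y ∈ ball V₀ E c' (1000 * M ^ 4) →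
        F c y - F c x = F c' y - F c' x)
    (hg : ∀ x ∈ V₀, (ball V₀ E x (1000 * M ^ 4)).card < 2 ^ M) :
    ∃ col : V → Fin 4, ∀ x ∈ V₀, ∀ y ∈ V₀, E x y → col x ≠ col y := by
  classical
  have p1 : M ≤ M ^ 2 := by nlinarith
  have p2 : M ^ 2 ≤ M ^ 3 := Nat.pow_le_pow_right hM (by norm_num)
  have p3 : M ^ 3 ≤ M ^ 4 := Nat.pow_le_pow_right hM (by norm_num)
  have e : M * (4 * (55 * M ^ 3)) = 220 * M ^ 4 := by ring
  obtain ⟨l, c, h1, h2⟩ := Colour.exists_layers (E := E) (4 * (55 * M ^ 3)) (220 * M ^ 4) M e.le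
    (Subset.refl V₀) fun x hx => lt_of_le_of_lt (card_le_card fun y hy =>
      Colour.ball_mono (by omega) (mem_inter.1 hy).2) (hg x hx)
  obtain ⟨U, hU, hw⟩ := Colour.exists_indep (B := 5 * M ^ 2) (G := 18 * M ^ 3) F hF1 hF2 h1 h2
    (by omega) (by nlinarith) (by nlinarith) (by omega)
  obtain ⟨φ, hφ⟩ := Colour.minty (by omega) hw
  refine ⟨fun x => if U x then 3 else ⟨φ x % 3, by omega⟩, fun x hx y hy he h => ?_⟩
  by_cases hux : U x
  · by_cases huy : U y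
    · exact hU x y hux huy he
    · simp only [if_pos hux, if_neg huy] at h
      have := congrArg Fin.val h
      simp only [show ((3 : Fin 4) : ℕ) = 3 from rfl] at this
      omega
  · by_cases huy : U y
    · simp only [if_neg hux, if_pos huy] at h
      have := congrArg Fin.val h
      simp only [show ((3 : Fin 4) : ℕ) = 3 from rfl] at this
      omega
    · simp only [if_neg hux, if_neg huy] at h
      have h3 := congrArg Fin.val h
      have h4 := hφ x y ⟨hx, hux⟩ ⟨hy, huy⟩ he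
      simp only at h3
      omega

end Pool.Agent.Lib.MP_5ab464_nt
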