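import Mathlib

/-! Definitions for the construction of an intersective set with a bounded colouring of primes. -/

open Finset

namespace Pool.Agent.Lib.MP_5ab464_nt

open Classical in
/-- Mass of an event under a weight vector. -/
noncomputable def mass {Ω : Type} [Fintype Ω] (π : Ω → ℝ) (P : Ω → Prop) : ℝ :=
  ∑ ω, if P ω then π ω else 0

/-- Shannon entropy of a weight vector. -/
noncomputable def ent {Ω : Type} [Fintype Ω] (π : Ω → ℝ) : ℝ := ∑ ω, Real.negMulLog (π ω)

open Classical in
/-- Ball in the undirected graph that `E` induces on `V₀`. -/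
noncomputable def ball {V : Type} (V₀ : Finset V) (E : V → V → Prop) (x : V) : ℕ → Finset V
  | 0 => {x}
  | n + 1 => ball V₀ E x n ∪ V₀.filter fun y => ∃ z ∈ ball V₀ E x n, E z y ∨ E y z

/-- No short integer relation among the vectors `s a`. -/
def Free {ι : Type} [Fintype ι] {e : ℕ} (L : ℕ) (s : ι → Fin e → ℤ) : Prop :=
  ∀ n : ι → ℤ, ∑ a, |n a| ≤ L → ∑ a, n a • s a = 0 → n = 0

/-- Words: each letter is a signed generator together with `k` offsets. -/
abbrev Word (ι : Type) (k W n : ℕ) : Type := Fin n → (ι × Bool) × (Fin k → Fin W)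

/-- The unit vector of a signed generator. -/
def stp {ι : Type} [DecidableEq ι] (σ : ι × Bool) : ι → ℤ := Pi.single σ.1 (if σ.2 then 1 else -1)

section word
variable {ι : Type} [DecidableEq ι] {k W n : ℕ}

/-- Position after the step `j`. -/
def pos (ω : Word ι k W n) (j : Fin n) : ι → ℤ := ∑ t ∈ univ.filter (· ≤ j), stp (ω t).1

/-- The generator of step `j` has not been used before in its block of length `ρ`. -/
def Fresh (ρ : ℕ) (ω : Word ι k W n) (j : Fin n) : Prop :=
  ∀ t : Fin n, t < j → (t : ℕ) / ρ = (j : ℕ) / ρ → (ω t).1.1 ≠ (ω j).1.1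

open Classical in
/-- Number of fresh steps from the block `i` on. -/
noncomputable def cost (ρ : ℕ) (ω : Word ι k W n) (i : ℕ) : ℕ :=
  (univ.filter fun j : Fin n => i * ρ ≤ j ∧ Fresh ρ ω j).card

/-- Self avoiding words with distinct offsets, total cost at most `E`, and cost at least `E / 4`
from the block `i` on. -/
def Adm (ρ i E : ℕ) (ω : Word ι k W n) : Prop :=
  Function.Injective (pos ω) ∧ (∀ j, Function.Injective (ω j).2) ∧ cost ρ ω 0 ≤ E ∧
    E ≤ 4 * cost ρ ω i

end word

/-- Density of `A` in the unit cube at `x`. -/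
noncomputable def cubeAv {e N : ℕ} (A : Finset (Fin e → ZMod N)) (x : Fin e → ZMod N) : ℝ :=
  ((univ.filter fun β : Fin e → Bool => (x + fun c => if β c then 1 else 0) ∈ A).card : ℝ) / 2 ^ e

end Pool.Agent.Lib.MP_5ab464_nt
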