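import Pool.Agent.Lib.MP_5ab464_nt.H84Step

/-! An intersective set and a finite colouring of the primes without a monochromatic difference. -/

open Finset

namespace Pool.Agent.Lib.MP_5ab464_nt

namespace Final

theorem col_zero (k : ℕ) : Col k 0 ∅ := fun _ => ⟨fun _ => (0, 0), fun _ _ r hr => by simp at hr⟩

/-- The recursion over the stages. -/
theorem seq {k : ℕ} (hk : 10 ^ 6 ≤ k) : ∃ (y : ℕ → ℕ) (R R' : ℕ → Finset ℕ), y 0 = 0 ∧
    (∀ j, Col k (y j) (R j)) ∧ (∀ j, R (j + 1) = R j ∪ R' j) ∧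
    (∀ j, y j + (R j).sup id < y (j + 1)) ∧
    (∀ j, ∀ r ∈ R' j, y (j + 1) < r ∧ ∀ p : ℕ, p.Prime → p ≤ y j + (R j).sup id → p ∣ r) ∧
    ∀ j : ℕ, Hit (1 / ((j : ℝ) + 1)) (R' j) := by
  classical
  have H : ∀ (j : ℕ) (s : {s : ℕ × Finset ℕ // Col k s.1 s.2}), ∃ (R' : Finset ℕ) (y' : ℕ),
      s.1.1 + s.1.2.sup id < y' ∧
      (∀ r ∈ R', y' < r ∧ ∀ p : ℕ, p.Prime → p ≤ s.1.1 + s.1.2.sup id → p ∣ r) ∧
      Hit (1 / ((j : ℝ) + 1)) R' ∧ Col k y' (s.1.2 ∪ R') := fun j s =>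
    step hk s.2 _ (by positivity)
  choose F G h using H
  let s : ℕ → {s : ℕ × Finset ℕ // Col k s.1 s.2} := fun n =>
    Nat.rec ⟨(0, ∅), col_zero k⟩ (fun j t => ⟨(G j t, t.1.2 ∪ F j t), (h j t).2.2.2⟩) n
  exact ⟨fun j => (s j).1.1, fun j => (s j).1.2, fun j => F j (s j), rfl, fun j => (s j).2,
    fun _ => rfl, fun j => (h j (s j)).1, fun j => (h j (s j)).2.1, fun j => (h j (s j)).2.2.1⟩

theorem rough_of_prime {y p : ℕ} (hp : p.Prime) (h : y < p) : Rough y (p : ℤ) := by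
  intro q hq hqy hd
  have := (Nat.prime_dvd_prime_iff_eq hq hp).1 (Int.natCast_dvd_natCast.1 hd)
  omega

/-- Each positive integer lies in a block of a strictly increasing sequence that starts at `0`. -/
theorem exists_blk {y : ℕ → ℕ} (h0 : y 0 = 0) (hy : StrictMono y) :
    ∃ b : ℕ → ℕ, ∀ p, 0 < p → y (b p) < p ∧ p ≤ y (b p + 1) := by
  classical
  have hex : ∀ p, ∃ j, p ≤ y (j + 1) := fun p => ⟨p, le_trans (Nat.le_succ p) (hy.id_le (p + 1))⟩
  refine ⟨fun p => Nat.find (hex p), fun p hp => ⟨?_, Nat.find_spec (hex p)⟩⟩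
  show y (Nat.find (hex p)) < p
  rcases h : Nat.find (hex p) with _ | j
  · omega
  · have := Nat.find_min (hex p) (m := j) (by omega)
    omega

end Final

theorem final : ∃ H : Set ℕ,
    (∀ A : Set ℕ, (∃ c : ℝ, 0 < c ∧ ∀ M : ℕ, ∃ N : ℕ, M ≤ N ∧
        c * (N : ℝ) ≤ (Nat.card ↑(A ∩ Set.Iio N) : ℝ)) → ∃ a ∈ A, ∃ b ∈ A, a < b ∧ b - a ∈ H) ∧
      ∃ (k : ℕ) (col : ℕ → Fin k), ∀ p q : ℕ, p.Prime → q.Prime → p < q → col p = col q →
        q - p ∉ H := by
  classical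
  obtain ⟨k, hk⟩ : ∃ k : ℕ, 10 ^ 6 ≤ k := ⟨_, le_rfl⟩
  have : NeZero k := ⟨by omega⟩
  obtain ⟨y, R, R', h0, hcol, hR, hy, hR', hhit⟩ := Final.seq hk
  have hmono : StrictMono y := strictMono_nat_of_lt_succ fun j => by have := hy j; omega
  have hRm : Monotone R := monotone_nat_of_le_succ fun j => by
    rw [hR j]; exact subset_union_left
  obtain ⟨b, hb⟩ := Final.exists_blk h0 hmono
  refine ⟨{r | ∃ j, r ∈ R' j}, ?_, ?_⟩
  · rintro A ⟨c, hc, hA⟩
    obtain ⟨j, hj⟩ := exists_nat_one_div_lt hc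
    obtain ⟨a, ha, a', ha', hlt, hmem⟩ := hhit j A fun M => by
      obtain ⟨N, hN, hN'⟩ := hA M
      rw [cnt_eq] at hN'
      exact ⟨N, hN, le_trans (mul_le_mul_of_nonneg_right hj.le (Nat.cast_nonneg N)) hN'⟩
    exact ⟨a, ha, a', ha', hlt, j, hmem⟩
  · choose c hc using fun j => hcol j (Finset.Ioc (y j : ℤ) (y (j + 1) : ℤ))
    refine ⟨Fintype.card (ZMod 2 × ZMod 3 × ZMod k),
      fun p => Fintype.equivFin _ ((b p : ZMod 2), c (b p) p), ?_⟩
    rintro p q hp hq hpq hcc ⟨i, hi⟩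
    have hcc' := (Fintype.equivFin (ZMod 2 × ZMod 3 × ZMod k)).injective hcc
    obtain ⟨hpar, hceq⟩ := Prod.mk.inj hcc'
    obtain ⟨hp1, hp2⟩ := hb p hp.pos
    obtain ⟨hq1, hq2⟩ := hb q hq.pos
    obtain ⟨hr1, hr2⟩ := hR' i _ hi
    have hpY : y i + (R i).sup id < p := by
      by_contra hle
      have hd := hr2 p hp (not_lt.1 hle)
      have hd' : p ∣ q := by
        have := Nat.dvd_add hd (dvd_refl p)
        rwa [Nat.sub_add_cancel hpq.le] at this
      have := (Nat.prime_dvd_prime_iff_eq hp hq).1 hd'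
      omega
    have hij : i ≤ b p := by
      have : y i < y (b p + 1) := by omega
      exact Nat.lt_succ_iff.1 (hmono.lt_iff_lt.1 this)
    have hjj : b p ≤ b q := by
      have : y (b p) < y (b q + 1) := by omega
      exact Nat.lt_succ_iff.1 (hmono.lt_iff_lt.1 this)
    have hin : q - p ∈ R (i + 1) := by rw [hR i]; exact mem_union_right _ hi
    have hup : b q ≤ b p + 1 := by
      by_contra hlt
      have h1 : y (b p + 1 + 1) ≤ y (b q) := hmono.monotone (by omega)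
      have h2 := hy (b p + 1)
      have h3 : q - p ≤ (R (b p + 1)).sup id :=
        le_sup (f := id) (hRm (Nat.succ_le_succ hij) hin)
      omega
    rcases Nat.eq_or_lt_of_le hjj with heq | hlt
    · have hlt : i < b p := by
        rcases Nat.eq_or_lt_of_le hij with h | h
        · rw [← heq, ← h] at hq2
          omega
        · exact h
      have hmem : q - p ∈ R (b p) := hRm (Nat.succ_le_of_lt hlt) hin
      have hsum : (p : ℤ) + ((q - p : ℕ) : ℤ) = q := by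
        rw [Nat.cast_sub hpq.le]; ring
      rw [← heq] at hq1 hq2 hceq
      refine hc (b p) p (mem_Ioc.2 ⟨by exact_mod_cast hp1, by exact_mod_cast hp2⟩) _ hmem
        ?_ (Final.rough_of_prime hp hp1) ?_ ?_
      · rw [hsum]; exact mem_Ioc.2 ⟨by exact_mod_cast hq1, by exact_mod_cast hq2⟩
      · rw [hsum]; exact Final.rough_of_prime hq hq1
      · rw [hsum]; exact hceq
    · have he : b q = b p + 1 := by omega
      rw [he] at hpar
      push_cast at hpar
      have h01 : (1 : ZMod 2) = 0 := by linear_combination -hpar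
      exact absurd h01 (by decide)

end Pool.Agent.Lib.MP_5ab464_nt
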