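import Pool.Agent.Lib.MP_5ab464_nt.H84Defs

/-! The entropy game: choose the linear forms prime by prime. TASK GAME. -/

open Finset

namespace Pool.Agent.Lib.MP_5ab464_nt

open Classical in
theorem ent_le_log_card {Ω : Type} [Fintype Ω] {π : Ω → ℝ} (hπ : π ∈ stdSimplex ℝ Ω)
    (S : Finset Ω) (hS : ∀ ω, π ω ≠ 0 → ω ∈ S) : ent π ≤ Real.log S.card := by
  have hsum : ∑ ω ∈ S, π ω = 1 := by
    rw [← hπ.2]
    exact sum_subset (subset_univ _) fun ω _ h => by
      by_contra h'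
      exact h (hS ω h')
  have hc : (0 : ℝ) < S.card := by
    rcases S.eq_empty_or_nonempty with rfl | h
    · simp at hsum
    · exact_mod_cast h.card_pos
  have h1 : ent π = ∑ ω ∈ S, Real.negMulLog (π ω) := by
    refine (sum_subset (subset_univ _) fun ω _ h => ?_).symm
    have : π ω = 0 := by
      by_contra h'
      exact h (hS ω h')
    simp [this]
  have h2 : ∀ ω, Real.negMulLog (π ω) ≤ π ω * Real.log S.card + (1 / S.card - π ω) := by
    intro ω
    rcases (hπ.1 ω).eq_or_lt with h | h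
    · rw [← h]
      simp
    · have h3 := Real.log_le_sub_one_of_pos (x := (π ω * S.card)⁻¹) (by positivity)
      rw [Real.log_inv, Real.log_mul h.ne' hc.ne'] at h3
      have h4 := mul_le_mul_of_nonneg_left h3 h.le
      have h5 : π ω * ((π ω * S.card)⁻¹ - 1) = 1 / S.card - π ω := by field_simp
      rw [h5] at h4
      simp only [Real.negMulLog]
      linarith
  rw [h1]
  refine (sum_le_sum fun ω _ => h2 ω).trans (le_of_eq ?_)
  rw [sum_add_distrib, sum_sub_distrib, ← sum_mul, hsum, sum_const, nsmul_eq_mul]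
  field_simp
  ring

theorem ent_nonneg {Ω : Type} [Fintype Ω] {π : Ω → ℝ} (hπ : π ∈ stdSimplex ℝ Ω) : 0 ≤ ent π :=
  sum_nonneg fun ω _ => Real.negMulLog_nonneg (hπ.1 ω) (mem_Icc_of_mem_stdSimplex hπ ω).2

namespace Game

theorem ent_mix {Ω : Type} [Fintype Ω] {π π' : Ω → ℝ} (h0 : ∀ ω, 0 ≤ π ω) (h0' : ∀ ω, 0 ≤ π' ω)
    (K : Ω → Prop) (hK : ∀ ω, K ω → π' ω = 0) :
    ent π + ent π' + mass π K / 2 ≤ 2 * ent ((1 / 2 : ℝ) • π + (1 / 2 : ℝ) • π') := by
  classical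
  simp only [ent, mass, sum_div, mul_sum, ← sum_add_distrib]
  refine sum_le_sum fun ω _ => ?_
  simp only [Pi.add_apply, Pi.smul_apply, smul_eq_mul]
  split_ifs with h
  · rw [hK ω h, mul_zero, add_zero, Real.negMulLog_mul]
    have h1 : Real.negMulLog (1 / 2) = 1 / 2 * Real.log 2 := by
      simp [Real.negMulLog]
    have h2 := Real.log_two_gt_d9
    have h3 := h0 ω
    rw [h1, Real.negMulLog_zero]
    nlinarith
  · have := Real.concaveOn_negMulLog.2 (Set.mem_Ici.2 (h0 ω)) (Set.mem_Ici.2 (h0' ω))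
      (by norm_num : (0 : ℝ) ≤ 1 / 2) (by norm_num : (0 : ℝ) ≤ 1 / 2) (by norm_num)
    simp only [smul_eq_mul] at this
    linarith

theorem exists_max {Ω : Type} [Fintype Ω] {C : Set (Ω → ℝ)} (hcl : IsClosed C)
    (hcv : Convex ℝ C) (hsub : C ⊆ stdSimplex ℝ Ω) (D : Ω → Prop) {v : ℝ}
    (hv : ∀ π ∈ C, (∀ ω, D ω → π ω = 0) → ent π ≤ v) (hne : C.Nonempty) :
    ∃ π₀ ∈ C, ∀ K : Ω → Prop, ∀ π ∈ C, (∀ ω, D ω ∨ K ω → π ω = 0) →
      ent π ≤ v - mass π₀ K / 2 := by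
  by_cases hF : (C ∩ {π | ∀ ω, D ω → π ω = 0}).Nonempty
  swap
  · obtain ⟨π₀, h₀⟩ := hne
    exact ⟨π₀, h₀, fun K π hπ h => absurd ⟨π, hπ, fun ω hω => h ω (Or.inl hω)⟩ hF⟩
  have hc : IsClosed {π : Ω → ℝ | ∀ ω, D ω → π ω = 0} := by
    simp only [Set.ofPred_forall]
    exact isClosed_iInter fun ω => isClosed_iInter fun _ =>
      isClosed_eq (continuous_apply ω) continuous_const
  have hcomp : IsCompact (C ∩ {π | ∀ ω, D ω → π ω = 0}) :=
    (isCompact_stdSimplex ℝ Ω).of_isClosed_subset (hcl.inter hc) fun π hπ => hsub hπ.1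
  have hcont : Continuous (ent : (Ω → ℝ) → ℝ) :=
    continuous_finsetSum _ fun ω _ => Real.continuous_negMulLog.comp (continuous_apply ω)
  obtain ⟨π₀, h₀, hmax⟩ := hcomp.exists_isMaxOn hF hcont.continuousOn
  refine ⟨π₀, h₀.1, fun K π hπ h => ?_⟩
  have h1 := ent_mix (hsub h₀.1).1 (hsub hπ).1 K fun ω hω => h ω (Or.inr hω)
  have h2 : (1 / 2 : ℝ) • π₀ + (1 / 2 : ℝ) • π ∈ C ∩ {π | ∀ ω, D ω → π ω = 0} :=
    ⟨hcv h₀.1 hπ (by norm_num) (by norm_num) (by norm_num), fun ω hω => by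
      simp [h₀.2 ω hω, h ω (Or.inl hω)]⟩
  have h3 : ent _ ≤ ent π₀ := hmax h2
  have h4 := hv π₀ h₀.1 h₀.2
  linarith

theorem exists_avg {ι Φ : Type} [Fintype ι] [Fintype Φ] [Nonempty Φ] (B : ι → Φ → Prop)
    [∀ i φ, Decidable (B i φ)] (c : ι → ℝ) (hc : ∀ i, 0 ≤ c i) {β : ℝ}
    (hB : ∀ i, ((univ.filter (B i)).card : ℝ) ≤ β * Fintype.card Φ) :
    ∃ φ, ∑ i ∈ univ.filter (fun i => B i φ), c i ≤ β * ∑ i, c i := by
  have h1 : ∑ φ : Φ, ∑ i ∈ univ.filter (fun i => B i φ), c i ≤ ∑ _φ : Φ, β * ∑ i, c i := by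
    simp only [sum_filter]
    rw [sum_comm, sum_const, card_univ, nsmul_eq_mul, mul_sum, mul_sum]
    refine sum_le_sum fun i _ => ?_
    rw [← sum_filter, sum_const, nsmul_eq_mul]
    nlinarith [hB i, hc i]
  obtain ⟨φ, -, h⟩ := exists_le_of_sum_le univ_nonempty h1
  exact ⟨φ, h⟩

open Classical in
theorem aux {S P : Type} {Ω : S → Type} [∀ s, Fintype (Ω s)]
    {Φ A : P → Type} [∀ p, Fintype (Φ p)] [∀ p, Nonempty (Φ p)] [∀ p, Fintype (A p)]
    (C : ∀ s, Set (Ω s → ℝ)) (hcl : ∀ s, IsClosed (C s)) (hcv : ∀ s, Convex ℝ (C s))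
    (hsub : ∀ s, C s ⊆ stdSimplex ℝ (Ω s)) (h : S → ℝ) (hh : ∀ s, 0 ≤ h s)
    (sz : P → ℕ) (hA : ∀ p, Fintype.card (A p) ≤ sz p) (K : ∀ p s, Φ p → A p → Ω s → Prop)
    (𝒦 : Finset P) : (∀ p ∈ 𝒦, 3 ≤ sz p) → (∀ p ∈ 𝒦, ∀ s, ∀ π ∈ C s,
      ((univ.filter fun φ : Φ p => ∃ a, mass π (K p s φ a) < h s / (2 * sz p)).card : ℝ) ≤
        (sz p : ℝ) ^ (-(1 / 5 : ℝ)) / 2 * Fintype.card (Φ p)) →
    ∀ (ι : Type) [Fintype ι] (x : ι → Σ s, (Ω s → Prop)) (v σ : ι → ℝ) (w : ℝ), 0 ≤ w →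
      (∀ p ∈ 𝒦, 1 / (sz p * Real.log (sz p)) ≤ w) → ∑ i, Real.exp (-σ i) ≤ 1 →
      (∀ i, (C (x i).1).Nonempty) →
      (∀ i, ∀ π ∈ C (x i).1, (∀ ω, (x i).2 ω → π ω = 0) → ent π ≤ v i) →
      ∃ φ : ∀ p, Φ p, ∀ (i : ι) (a : ∀ p, A p), ∀ π ∈ C (x i).1, (∀ ω, (x i).2 ω → π ω = 0) →
        (∀ p ∈ 𝒦, ∀ ω, K p (x i).1 (φ p) (a p) ω → π ω = 0) →
          ent π ≤ v i - h (x i).1 / 4 * ((∑ p ∈ 𝒦, (1 : ℝ) / sz p) / 11 - 5 / 11 * σ i * w) := by
  have hσ : ∀ (ι : Type) [Fintype ι] (σ : ι → ℝ), ∑ i, Real.exp (-σ i) ≤ 1 → ∀ i, 0 ≤ σ i := by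
    intro ι _ σ hs i
    have := (single_le_sum (f := fun i => Real.exp (-σ i)) (fun i _ => (Real.exp_pos _).le)
      (mem_univ i)).trans hs
    simpa using this
  induction 𝒦 using Finset.induction_on_min_value sz with
  | empty =>
    intro _ _ ι _ x v σ w hw _ hs _ hv
    refine ⟨fun p => Classical.arbitrary _, fun i a π hπ hd _ => ?_⟩
    have := hv i π hπ hd
    have h1 := mul_nonneg (hh (x i).1) (mul_nonneg (hσ ι σ hs i) hw)
    simp only [sum_empty]
    nlinarith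
  | insert p 𝒦 hp hmin ih =>
    intro h3 hK ι _ x v σ w hw hwp hs hne hv
    have hq3 : (3 : ℝ) ≤ sz p := by exact_mod_cast h3 p (mem_insert_self _ _)
    set q : ℝ := (sz p : ℝ) with hq
    have hq0 : 0 < q := by linarith
    have hl1 : 1 ≤ Real.log q := by
      rw [Real.le_log_iff_exp_le hq0]
      exact (Real.exp_one_lt_d9.le.trans (by norm_num)).trans hq3
    choose π₀ h₀ hmax using fun i =>
      exists_max (hcl (x i).1) (hcv _) (hsub _) (x i).2 (hv i) (hne i)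
    obtain ⟨φ₀, hφ₀⟩ := exists_avg
      (fun i φ => ∃ a, mass (π₀ i) (K p (x i).1 φ a) < h (x i).1 / (2 * q))
      (fun i => Real.exp (-σ i)) (fun i => (Real.exp_pos _).le)
      fun i => hK p (mem_insert_self _ _) _ _ (h₀ i)
    set Bad : ι → Prop := fun i => ∃ a, mass (π₀ i) (K p (x i).1 φ₀ a) < h (x i).1 / (2 * q)
      with hBad
    obtain ⟨φ, hφ⟩ := ih (fun p' hp' => h3 p' (mem_insert_of_mem hp'))
      (fun p' hp' => hK p' (mem_insert_of_mem hp')) ({i // Bad i} ⊕ ι × A p)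
      (Sum.elim (fun i => x i.1)
        fun ia => ⟨(x ia.1).1, fun ω => (x ia.1).2 ω ∨ K p _ φ₀ ia.2 ω⟩)
      (Sum.elim (fun i => v i.1)
        fun ia => v ia.1 - mass (π₀ ia.1) (K p _ φ₀ ia.2) / 2)
      (Sum.elim (fun i => σ i.1 - Real.log q / 5) fun ia => σ ia.1 + Real.log (2 * q))
      (1 / (q * Real.log q)) (by positivity)
      (fun p' hp' => by
        have h1 : q ≤ sz p' := by rw [hq]; exact_mod_cast hmin p' hp'
        have h2 := Real.log_le_log hq0 h1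
        exact one_div_le_one_div_of_le (by positivity)
          (mul_le_mul h1 h2 (by linarith) (by linarith)))
      (by
        rw [Fintype.sum_sum_type, Fintype.sum_prod_type]
        simp only [Sum.elim_inl, Sum.elim_inr, neg_sub, neg_add, Real.exp_add, Real.exp_sub,
          sum_const, card_univ, nsmul_eq_mul]
        have e1 : ∑ i : {i // Bad i}, Real.exp (Real.log q / 5) / Real.exp (σ i.1) =
            q ^ (1 / 5 : ℝ) * ∑ i ∈ univ.filter Bad, Real.exp (-σ i) := by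
          rw [← sum_subtype_eq_sum_filter, subtype_univ, mul_sum]
          refine sum_congr rfl fun i _ => ?_
          rw [Real.rpow_def_of_pos hq0, Real.exp_neg]
          congr 2
          ring
        have e2 : q ^ (1 / 5 : ℝ) * q ^ (-(1 / 5 : ℝ)) = 1 := by
          rw [← Real.rpow_add hq0]
          simp
        have e3 : q ^ (1 / 5 : ℝ) * ∑ i ∈ univ.filter Bad, Real.exp (-σ i) ≤ 1 / 2 := by
          have h1 : 0 < q ^ (1 / 5 : ℝ) := by positivity
          have h2 : 0 < q ^ (-(1 / 5 : ℝ)) := by positivity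
          have h4 := mul_le_mul_of_nonneg_left (hφ₀.trans
            (mul_le_mul_of_nonneg_left hs (by positivity))) h1.le
          nlinarith
        have e4 : ∑ i, (Fintype.card (A p) : ℝ) *
            (Real.exp (-σ i) * Real.exp (-Real.log (2 * q))) ≤ 1 / 2 := by
          have h1 : (Fintype.card (A p) : ℝ) ≤ q := by rw [hq]; exact_mod_cast hA p
          rw [Real.exp_neg (Real.log _), Real.exp_log (by positivity), ← mul_sum, ← sum_mul]
          have h2 : 0 ≤ ∑ i, Real.exp (-σ i) := sum_nonneg fun _ _ => (Real.exp_pos _).le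
          calc _ ≤ q * (1 * (2 * q)⁻¹) := by gcongr
            _ = 1 / 2 := by field_simp
        rw [e1]
        linarith)
      (by
        rintro (i | ia)
        · exact hne i.1
        · exact hne ia.1)
      (by
        rintro (i | ia)
        · exact hv i.1
        · exact fun π hπ hd => hmax ia.1 _ π hπ hd)
    refine ⟨Function.update φ p φ₀, fun i a π hπ hd hk => ?_⟩
    have hk' : ∀ p' ∈ 𝒦, ∀ ω, K p' (x i).1 (φ p') (a p') ω → π ω = 0 := fun p' hp' ω hω =>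
      hk p' (mem_insert_of_mem hp') ω (by
        rwa [Function.update_of_ne (fun e : p' = p => hp (e ▸ hp'))])
    have hk0 : ∀ ω, K p (x i).1 φ₀ (a p) ω → π ω = 0 := fun ω hω =>
      hk p (mem_insert_self _ _) ω (by rwa [Function.update_self])
    rw [sum_insert hp, ← hq]
    have hw1 := hwp p (mem_insert_self _ _)
    have hσi := hσ ι σ hs i
    have hhi := hh (x i).1
    have hσw : σ i * (1 / (q * Real.log q)) ≤ σ i * w := mul_le_mul_of_nonneg_left hw1 hσi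
    have e5 : Real.log q * (1 / (q * Real.log q)) = 1 / q := by field_simp
    by_cases hb : Bad i
    · have h1 := hφ (Sum.inl ⟨i, hb⟩) a π hπ hd hk'
      simp only [Sum.elim_inl] at h1
      refine h1.trans (sub_le_sub_left (mul_le_mul_of_nonneg_left ?_ (by positivity)) _)
      nlinarith
    · have h1 : ent π ≤ v i - mass (π₀ i) (K p (x i).1 φ₀ (a p)) / 2 - h (x i).1 / 4 *
          ((∑ p ∈ 𝒦, (1 : ℝ) / sz p) / 11 -
            5 / 11 * (σ i + Real.log (2 * q)) * (1 / (q * Real.log q))) :=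
        hφ (Sum.inr (i, a p)) a π hπ (fun ω hω => hω.elim (hd ω) (hk0 ω)) hk'
      have h2 : h (x i).1 / (2 * q) ≤ mass (π₀ i) (K p (x i).1 φ₀ (a p)) :=
        not_lt.1 fun h => hb ⟨a p, h⟩
      have h4 : Real.log (2 * q) ≤ 2 * Real.log q := by
        rw [Real.log_mul (by norm_num) hq0.ne']
        have := Real.log_le_log (by norm_num : (0 : ℝ) < 2) (by linarith : 2 ≤ q)
        linarith
      have h5 : Real.log (2 * q) * (1 / (q * Real.log q)) ≤ 2 * (1 / q) := by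
        rw [← e5, ← mul_assoc]
        exact mul_le_mul_of_nonneg_right h4 (by positivity)
      have h6 : h (x i).1 / (2 * q) = 2 * (h (x i).1 / 4 * (1 / q)) := by field_simp; ring
      have h7 : h (x i).1 / 4 * ((1 / q + ∑ p ∈ 𝒦, (1 : ℝ) / sz p) / 11 - 5 / 11 * σ i * w) ≤
          h (x i).1 / 4 * (1 / q + ((∑ p ∈ 𝒦, (1 : ℝ) / sz p) / 11 -
            5 / 11 * (σ i + Real.log (2 * q)) * (1 / (q * Real.log q)))) :=
        mul_le_mul_of_nonneg_left (by nlinarith) (by positivity)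
      rw [mul_add] at h7
      linarith

end Game

open Classical in
theorem game {S P : Type} [Fintype S] {Ω : S → Type} [∀ s, Fintype (Ω s)]
    {Φ A : P → Type} [∀ p, Fintype (Φ p)] [∀ p, Nonempty (Φ p)] [∀ p, Fintype (A p)]
    (C : ∀ s, Set (Ω s → ℝ)) (hcl : ∀ s, IsClosed (C s)) (hcv : ∀ s, Convex ℝ (C s))
    (hsub : ∀ s, C s ⊆ stdSimplex ℝ (Ω s)) (h v : S → ℝ) (hh : ∀ s, 0 ≤ h s)
    (hv : ∀ s, ∀ π ∈ C s, ent π ≤ v s) (sz : P → ℕ) (hA : ∀ p, Fintype.card (A p) ≤ sz p)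
    (𝒦 : Finset P) (h3 : ∀ p ∈ 𝒦, 3 ≤ sz p) (hS : ∀ p ∈ 𝒦, Fintype.card S ≤ sz p)
    (K : ∀ p s, Φ p → A p → Ω s → Prop)
    (hK : ∀ p ∈ 𝒦, ∀ s, ∀ π ∈ C s,
      ((univ.filter fun φ : Φ p => ∃ a, mass π (K p s φ a) < h s / (2 * sz p)).card : ℝ) ≤
        (sz p : ℝ) ^ (-(1 / 5 : ℝ)) / 2 * Fintype.card (Φ p)) :
    ∃ φ : ∀ p, Φ p, ∀ (s : S) (a : ∀ p, A p), ∀ π ∈ C s,
      (∀ p ∈ 𝒦, ∀ ω, K p s (φ p) (a p) ω → π ω = 0) →
        ent π ≤ v s - h s / 4 * ((∑ p ∈ 𝒦, (1 : ℝ) / sz p) / 11 - 1) := by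
  rcases isEmpty_or_nonempty S with hE | hE
  · exact ⟨fun p => Classical.arbitrary _, fun s => hE.elim s⟩
  have hc : (1 : ℝ) ≤ Fintype.card S := by exact_mod_cast Fintype.card_pos
  obtain ⟨φ, hφ⟩ := Game.aux C hcl hcv hsub h hh sz hA K 𝒦 h3 hK {s // (C s).Nonempty}
    (fun s => ⟨s.1, fun _ => False⟩) (fun s => v s.1) (fun _ => Real.log (Fintype.card S))
    (1 / Fintype.card S) (by positivity)
    (fun p hp => by
      have h1 : (Fintype.card S : ℝ) ≤ sz p := by exact_mod_cast hS p hp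
      have h2 : (3 : ℝ) ≤ sz p := by exact_mod_cast h3 p hp
      have hl1 : 1 ≤ Real.log (sz p) := by
        rw [Real.le_log_iff_exp_le (by linarith)]
        exact (Real.exp_one_lt_d9.le.trans (by norm_num)).trans h2
      exact one_div_le_one_div_of_le (by linarith) (by nlinarith))
    (by
      rw [Real.exp_neg, Real.exp_log (by linarith), sum_const, card_univ, nsmul_eq_mul]
      have : (Fintype.card {s // (C s).Nonempty} : ℝ) ≤ Fintype.card S := by
        exact_mod_cast Fintype.card_subtype_le _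
      rw [← div_eq_mul_inv, div_le_one (by linarith)]
      exact this)
    (fun s => s.2) fun s π hπ _ => hv s.1 π hπ
  refine ⟨φ, fun s a π hπ hk => ?_⟩
  refine (hφ ⟨s, π, hπ⟩ a π hπ (fun _ h => h.elim) hk).trans
    (sub_le_sub_left (mul_le_mul_of_nonneg_left ?_ (by have := hh s; positivity)) _)
  have h1 := Real.log_le_sub_one_of_pos (by linarith : (0 : ℝ) < Fintype.card S)
  have h2 : Real.log (Fintype.card S) * (1 / Fintype.card S) ≤ 1 := by
    rw [mul_one_div, div_le_one (by linarith)]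
    linarith
  nlinarith

end Pool.Agent.Lib.MP_5ab464_nt
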