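import Pool.Agent.Lib.MP_5ab464_nt.H84Defs
import Pool.Agent.Lib.MP_5ab464_nt.Dens

/-! Dense sets contain one of the sampled moves. -/

open Finset

namespace Pool.Agent.Lib.MP_5ab464_nt

/-- The difference of two residues modulo `T` is an odd box move. -/
def OddPair (Q : Finset ℕ) {T : ℕ} (jj : Fin T × Fin T) : Prop :=
  OddBox (q := fun q : Q => (q : ℕ))
    ((fun q : Q => ((jj.2 : ℕ) : ZMod q)) - fun q : Q => ((jj.1 : ℕ) : ZMod q))

namespace Itr

theorem cubeAv_nonneg {e N : ℕ} (A : Finset (Fin e → ZMod N)) (x : Fin e → ZMod N) :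
    0 ≤ cubeAv A x := by
  unfold cubeAv
  positivity

theorem cubeAv_le_one {e N : ℕ} (A : Finset (Fin e → ZMod N)) (x : Fin e → ZMod N) :
    cubeAv A x ≤ 1 := by
  unfold cubeAv
  rw [div_le_one (by positivity)]
  have := card_filter_le (univ : Finset (Fin e → Bool))
    fun β => (x + fun c => if β c then 1 else 0) ∈ A
  rw [card_univ, Fintype.card_fun, Fintype.card_bool, Fintype.card_fin] at this
  exact_mod_cast this

theorem sum_cubeAv {e N : ℕ} [NeZero N] (A : Finset (Fin e → ZMod N)) :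
    ∑ x, cubeAv A x = A.card := by
  simp only [cubeAv, card_filter, Nat.cast_sum, ← sum_div]
  rw [sum_comm]
  have : ∀ β : Fin e → Bool, ∑ x : Fin e → ZMod N,
      ((if (x + fun c => if β c then 1 else 0) ∈ A then 1 else 0 : ℕ) : ℝ) = A.card := by
    intro β
    refine (Equiv.sum_comp (Equiv.addRight fun c => if β c then (1 : ZMod N) else 0)
      fun x => ((if x ∈ A then 1 else 0 : ℕ) : ℝ)).trans ?_
    simp
  simp only [this, sum_const, card_univ, Fintype.card_fun, Fintype.card_bool, Fintype.card_fin,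
    nsmul_eq_mul]
  push_cast
  field_simp

theorem exists_oddPair {Q : Finset ℕ} (hQ : ∀ q ∈ Q, q.Prime ∧ 2 < q) {T : ℕ}
    (hT : T = ∏ q ∈ Q, q) (J : Finset (Fin T)) (hJ : ∏ q ∈ Q, ((q : ℝ) - 1) < J.card) :
    ∃ j ∈ J, ∃ j' ∈ J, OddPair Q (j, j') := by
  classical
  have : ∀ i : Q, NeZero (i : ℕ) := fun i => ⟨(hQ i i.2).1.ne_zero⟩
  have h3 : ∀ i : Q, 3 ≤ (i : ℕ) := fun i => (hQ i i.2).2
  have ho : ∀ i : Q, Odd (i : ℕ) := fun i => (hQ i i.2).1.odd_of_ne_two (hQ i i.2).2.ne'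
  by_contra hc
  push Not at hc
  have hinj : Function.Injective fun (j : Fin T) (q : Q) => ((j : ℕ) : ZMod q) := by
    intro j j' h
    refine Fin.ext (Nat.ModEq.eq_of_lt_of_lt (m := T) ?_ j.2 j'.2)
    rw [Nat.modEq_iff_dvd]
    have e : (T : ℤ) = ∏ q ∈ Q, (q : ℤ) := by rw [hT, Nat.cast_prod]
    rw [e]
    refine Finset.prod_dvd_of_coprime (fun x hx y hy hxy => ?_) fun q hq => ?_
    · exact Nat.isCoprime_iff_coprime.2 ((Nat.coprime_primes (hQ x hx).1 (hQ y hy).1).2 hxy)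
    · exact Nat.modEq_iff_dvd.1 ((ZMod.natCast_eq_natCast_iff _ _ _).1 (congrFun h ⟨q, hq⟩))
  have h1 := box_bound ho h3 (J.image fun (j : Fin T) (q : Q) => ((j : ℕ) : ZMod q)) (by
    intro x hx y hy
    obtain ⟨j, hj, rfl⟩ := mem_image.1 hx
    obtain ⟨j', hj', rfl⟩ := mem_image.1 hy
    exact hc j hj j' hj')
  rw [card_image_of_injective _ hinj, prod_coe_sort Q fun q => q - 1] at h1
  have e : ((∏ q ∈ Q, (q - 1) : ℕ) : ℝ) = ∏ q ∈ Q, ((q : ℝ) - 1) := by
    rw [Nat.cast_prod]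
    exact prod_congr rfl fun q hq => by rw [Nat.cast_sub (hQ q hq).1.one_lt.le, Nat.cast_one]
  rw [← e] at hJ
  exact absurd h1 (not_le.2 (by exact_mod_cast hJ))

theorem card_bdry {e N : ℕ} (c : Fin e) (v : ℕ) :
    (univ.filter fun f : Fin e → Fin N => (f c : ℕ) = v).card * N ≤ N ^ e := by
  classical
  have h := card_le_card_of_injOn (s := (univ.filter fun f : Fin e → Fin N => (f c : ℕ) = v) ×ˢ
    (univ : Finset (Fin N))) (t := univ) (fun p => Function.update p.1 c p.2)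
    (fun _ _ => mem_univ _) (by
      rintro ⟨f, x⟩ hf ⟨f', x'⟩ hf' h
      simp only [coe_product, coe_filter, mem_univ, true_and, Set.mem_prod, Set.mem_ofPred_eq]
        at hf hf'
      have h1 : x = x' := by simpa using congrFun h c
      refine Prod.ext (funext fun c' => ?_) h1
      by_cases hc : c' = c
      · subst hc
        exact Fin.ext (hf.1.trans hf'.1.symm)
      · simpa [hc] using congrFun h c')
  simpa using h

end Itr

open Itr in
theorem window_edge {Q : Finset ℕ} (hQ : ∀ q ∈ Q, q.Prime ∧ 2 < q) {T e N D₀ : ℕ} [NeZero N]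
    (hT : T = ∏ q ∈ Q, q) {δ : ℝ} (hδ : 0 < δ) (hP : ∏ q ∈ Q, ((q : ℝ) - 1) ≤ δ / 8 * T)
    (hN : 8 * (e : ℝ) ≤ δ * N) (s : {jj : Fin T × Fin T // OddPair Q jj} × Fin D₀ → Fin e → ℤ)
    (hs : ∀ a c, |s a c| ≤ 1)
    (hmix : ∀ v (A B : Finset (Fin e → ZMod N)),
      (∀ i, ∀ x ∈ A, (x + fun c => (s (v, i) c : ZMod N)) ∉ B) →
        ∑ x, cubeAv A x * cubeAv B x ≤ δ ^ 3 / (64 * T ^ 2) * (N : ℝ) ^ e)
    (A : Finset (Fin T × (Fin e → Fin N))) (hA : δ * (T * (N : ℝ) ^ e) ≤ A.card) :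
    ∃ x ∈ A, ∃ x' ∈ A, ∃ a, a.1.1 = (x.1, x'.1) ∧ ∀ c, ((x'.2 c : ℕ) : ℤ) = (x.2 c : ℕ) + s a c := by
  classical
  by_contra hc
  push Not at hc
  have hT0 : (0 : ℝ) < T := by
    rw [hT]
    exact_mod_cast prod_pos fun q hq => (hQ q hq).1.pos
  have hN0 : (0 : ℝ) < N := by exact_mod_cast Nat.pos_of_neZero N
  set cs : (Fin e → Fin N) → Fin e → ZMod N := fun f c => ((f c : ℕ) : ZMod N) with hcs
  have hinj : Function.Injective cs := fun f f' h => funext fun c => Fin.ext
    (Nat.ModEq.eq_of_lt_of_lt ((ZMod.natCast_eq_natCast_iff _ _ _).1 (congrFun h c))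
      (f c).2 (f' c).2)
  set F : Fin T → Finset (Fin e → Fin N) := fun j => univ.filter fun f =>
    (j, f) ∈ A ∧ ∀ c, (f c : ℕ) ≠ 0 ∧ (f c : ℕ) ≠ N - 1 with hF
  set α : Fin T → (Fin e → ZMod N) → ℝ := fun j => cubeAv ((F j).image cs) with hα
  have h1 : ∀ v : {jj : Fin T × Fin T // OddPair Q jj},
      ∑ x, α v.1.1 x * α v.1.2 x ≤ δ ^ 3 / (64 * T ^ 2) * (N : ℝ) ^ e := by
    refine fun v => hmix v _ _ fun i x hx hx' => ?_
    obtain ⟨f, hf, rfl⟩ := mem_image.1 hx
    obtain ⟨f', hf', h⟩ := mem_image.1 hx'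
    simp only [hF, mem_filter, mem_univ, true_and] at hf hf'
    obtain ⟨c, hc⟩ := hc _ hf.1 _ hf'.1 (v, i) rfl
    refine hc ?_
    have h2 : ((((f' c : ℕ) : ℤ) - ((f c : ℕ) + s (v, i) c) : ℤ) : ZMod N) = 0 := by
      have := congrFun h c
      simp only [hcs, Pi.add_apply] at this
      push_cast
      rw [this, sub_self]
    have h3 := abs_le.1 (hs (v, i) c)
    have h4 := hf.2 c
    have h5 := (f c).2
    have h6 := (f' c).2
    have := Int.eq_zero_of_abs_lt_dvd ((ZMod.intCast_zmod_eq_zero_iff_dvd _ _).1 h2)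
      (abs_lt.2 ⟨by omega, by omega⟩)
    dsimp only
    omega
  have h2 : (A.card : ℝ) ≤ ∑ j, ((F j).card : ℝ) + δ / 4 * (T * (N : ℝ) ^ e) := by
    set Bd : Finset (Fin e → Fin N) := univ.biUnion fun c =>
      (univ.filter fun f => (f c : ℕ) = 0) ∪ univ.filter fun f => (f c : ℕ) = N - 1 with hBd
    have h3 : Bd.card * N ≤ e * (2 * N ^ e) := by
      refine (Nat.mul_le_mul_right _ card_biUnion_le).trans ?_
      rw [sum_mul]
      refine (sum_le_card_nsmul _ _ (2 * N ^ e) fun c _ => ?_).trans (by simp)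
      refine (Nat.mul_le_mul_right _ (card_union_le _ _)).trans ?_
      have := card_bdry (N := N) c 0
      have := card_bdry (N := N) c (N - 1)
      rw [add_mul]
      omega
    have h4 : (Bd.card : ℝ) ≤ δ / 4 * (N : ℝ) ^ e := by
      have h5 : (Bd.card : ℝ) * N ≤ e * (2 * (N : ℝ) ^ e) := by exact_mod_cast h3
      refine le_of_mul_le_mul_right (h5.trans ?_) hN0
      have : (0 : ℝ) < (N : ℝ) ^ e := by positivity
      nlinarith
    have h5 : A ⊆ univ.biUnion fun j => {j} ×ˢ (F j ∪ Bd) := by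
      rintro ⟨j, f⟩ hx
      simp only [mem_biUnion, mem_univ, true_and, mem_product, mem_singleton, mem_union, hF, hBd,
        mem_filter]
      refine ⟨j, rfl, ?_⟩
      by_contra h
      push Not at h
      obtain ⟨c, hc⟩ := h.1 hx
      have := h.2 c
      tauto
    have h6 : A.card ≤ ∑ j, ((F j).card + Bd.card) :=
      (card_le_card h5).trans (card_biUnion_le.trans (sum_le_sum fun j _ => by
        rw [card_product, card_singleton, one_mul]
        exact card_union_le _ _))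
    have h7 : (A.card : ℝ) ≤ ∑ j, (((F j).card : ℝ) + Bd.card) := by exact_mod_cast h6
    rw [sum_add_distrib, sum_const, card_univ, Fintype.card_fin, nsmul_eq_mul] at h7
    nlinarith
  have h5 : ∑ j, ∑ x, α j x = ∑ j, ((F j).card : ℝ) := sum_congr rfl fun j _ => by
    rw [sum_cubeAv, card_image_of_injective _ hinj]
  have hα0 : ∀ j x, 0 ≤ α j x := fun j x => cubeAv_nonneg _ _
  have hα1 : ∀ j x, α j x ≤ 1 := fun j x => cubeAv_le_one _ _
  clear_value α F
  have h3 : ∀ x, ∑ j, α j x ≤ 3 * δ / 8 * T + 16 * T / δ ^ 2 *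
      ∑ v : {jj : Fin T × Fin T // OddPair Q jj}, α v.1.1 x * α v.1.2 x := by
    intro x
    have h0 : ∀ v : {jj : Fin T × Fin T // OddPair Q jj}, 0 ≤ α v.1.1 x * α v.1.2 x :=
      fun v => mul_nonneg (hα0 _ _) (hα0 _ _)
    set J : Finset (Fin T) := univ.filter fun j => δ / 4 ≤ α j x with hJ
    by_cases h : (J.card : ℝ) ≤ δ / 8 * T
    · have h4 : ∑ j, α j x ≤ ∑ j, ((if j ∈ J then 1 else 0) + δ / 4) := sum_le_sum fun j _ => by
        split_ifs with hj
        · have := hα1 j x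
          linarith
        · simp only [hJ, mem_filter, mem_univ, true_and, not_le] at hj
          linarith
      rw [sum_add_distrib, sum_ite_mem, univ_inter, sum_const, sum_const, card_univ,
        Fintype.card_fin, nsmul_eq_mul, nsmul_eq_mul] at h4
      have : 0 ≤ 16 * T / δ ^ 2 *
          ∑ v : {jj : Fin T × Fin T // OddPair Q jj}, α v.1.1 x * α v.1.2 x :=
        mul_nonneg (by positivity) (sum_nonneg fun v _ => h0 v)
      linarith
    · obtain ⟨j, hj, j', hj', ho⟩ := exists_oddPair hQ hT J (hP.trans_lt (not_le.1 h))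
      simp only [hJ, mem_filter, mem_univ, true_and] at hj hj'
      have h4 : δ / 4 * (δ / 4) ≤
          ∑ v : {jj : Fin T × Fin T // OddPair Q jj}, α v.1.1 x * α v.1.2 x :=
        (mul_le_mul hj hj' (by positivity) (hα0 _ _)).trans
          (single_le_sum (f := fun v : {jj : Fin T × Fin T // OddPair Q jj} =>
            α v.1.1 x * α v.1.2 x) (fun v _ => h0 v) (mem_univ ⟨(j, j'), ho⟩))
      have h5 : ∑ j, α j x ≤ ∑ _j : Fin T, (1 : ℝ) := sum_le_sum fun j _ => hα1 _ _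
      rw [sum_const, card_univ, Fintype.card_fin, nsmul_eq_mul, mul_one] at h5
      have h6 := mul_le_mul_of_nonneg_left h4 (by positivity : 0 ≤ 16 * (T : ℝ) / δ ^ 2)
      have h7 : 16 * (T : ℝ) / δ ^ 2 * (δ / 4 * (δ / 4)) = T := by field_simp; norm_num
      have : 0 ≤ 3 * δ / 8 * T := by positivity
      linarith
  have h4 : ∑ j, ∑ x, α j x ≤ (N : ℝ) ^ e * (3 * δ / 8 * T) + 16 * T / δ ^ 2 *
      ∑ v : {jj : Fin T × Fin T // OddPair Q jj}, ∑ x, α v.1.1 x * α v.1.2 x := by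
    rw [sum_comm, sum_comm (f := fun (v : {jj : Fin T × Fin T // OddPair Q jj})
      (x : Fin e → ZMod N) => α v.1.1 x * α v.1.2 x), mul_sum]
    refine (sum_le_sum fun x (_ : x ∈ univ) => h3 x).trans (le_of_eq ?_)
    rw [sum_add_distrib, sum_const, card_univ, Fintype.card_fun, ZMod.card, Fintype.card_fin,
      nsmul_eq_mul, Nat.cast_pow]
  have h6 := sum_le_card_nsmul univ _ _ fun v _ => h1 v
  have h7 : ((univ : Finset {jj : Fin T × Fin T // OddPair Q jj}).card : ℝ) ≤ T ^ 2 := by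
    have := Fintype.card_subtype_le fun jj : Fin T × Fin T => OddPair Q jj
    rw [Fintype.card_prod, Fintype.card_fin, ← sq] at this
    exact_mod_cast this
  rw [nsmul_eq_mul] at h6
  have h8 := mul_le_mul_of_nonneg_left (h6.trans (mul_le_mul_of_nonneg_right h7 (by positivity)))
    (by positivity : 0 ≤ 16 * (T : ℝ) / δ ^ 2)
  have h9 : 16 * (T : ℝ) / δ ^ 2 * (T ^ 2 * (δ ^ 3 / (64 * T ^ 2) * (N : ℝ) ^ e)) =
      δ / 4 * (T * (N : ℝ) ^ e) := by field_simp; norm_num
  have h10 : 0 < δ * (T * (N : ℝ) ^ e) := by positivity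
  linarith

open Classical in
/-- A set of upper density `2 δ` has density `δ` in some translate of a finite pattern. -/
theorem exists_window {𝒲 : Type} [Fintype 𝒲] (o : 𝒲 → ℕ) {A : Set ℕ} {δ : ℝ} (hδ : 0 < δ)
    (hA : ∀ M : ℕ, ∃ N : ℕ, M ≤ N ∧ 2 * δ * N ≤ cnt A N) :
    ∃ x : ℕ, δ * Fintype.card 𝒲 ≤ (univ.filter fun w => x + o w ∈ A).card := by
  obtain ⟨N, hN, hN'⟩ := hA (⌈(univ.sup o : ℕ) / δ⌉₊ + 1)
  have hO : ((univ.sup o : ℕ) : ℝ) ≤ δ * N := by
    have h1 := Nat.le_ceil (((univ.sup o : ℕ) : ℝ) / δ)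
    have h2 : ((⌈((univ.sup o : ℕ) : ℝ) / δ⌉₊ + 1 : ℕ) : ℝ) ≤ N := by exact_mod_cast hN
    push_cast at h2
    rw [div_le_iff₀ hδ] at h1
    nlinarith
  have h1 : ∀ w, δ * N ≤ ((range N).filter fun x => x + o w ∈ A).card := by
    intro w
    have h2 : cnt A N ≤ (range (univ.sup o) ∪
        ((range N).filter fun x => x + o w ∈ A).image (· + o w)).card := by
      refine card_le_card fun y hy => ?_
      simp only [mem_filter, mem_range, mem_union, mem_image] at hy ⊢
      have := le_sup (f := o) (mem_univ w)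
      by_cases h : y < univ.sup o
      · exact Or.inl h
      · refine Or.inr ⟨y - o w, ⟨by omega, ?_⟩, by omega⟩
        rw [Nat.sub_add_cancel (by omega)]
        exact hy.2
    have h3 := h2.trans ((card_union_le _ _).trans (add_le_add le_rfl card_image_le))
    rw [card_range] at h3
    have h4 : (cnt A N : ℝ) ≤ (univ.sup o : ℕ) +
      (((range N).filter fun x => x + o w ∈ A).card : ℝ) := by exact_mod_cast h3
    linarith
  have h2 : ∑ _x ∈ range N, δ * Fintype.card 𝒲 ≤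
      ∑ x ∈ range N, ((univ.filter fun w => x + o w ∈ A).card : ℝ) := by
    simp only [card_filter, Nat.cast_sum] at h1 ⊢
    rw [sum_comm, sum_const, card_range, nsmul_eq_mul]
    refine le_trans (le_of_eq ?_) (sum_le_sum fun w _ => h1 w)
    rw [sum_const, card_univ, nsmul_eq_mul]
    ring
  obtain ⟨x, -, hx⟩ := exists_le_of_sum_le (nonempty_range_iff.2 (by omega)) h2
  exact ⟨x, hx⟩

end Pool.Agent.Lib.MP_5ab464_nt
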