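import Pool.Agent.Lib.MP_5ab464_nt.H84KillB

/-! A random linear form over a prime field hits a spread family at every level. TASK KILL. -/

open Finset

namespace Pool.Agent.Lib.MP_5ab464_nt

namespace Kill

lemma bonf {M : Type} [Fintype M] (T : Finset M) (H : M → Prop) (R : M × M → Prop)
    (hR : ∀ m ∈ T, ∀ m' ∈ T, m ≠ m' → H m → H m' → R (m, m')) :
    ∑ m, ind (m ∈ T) * ind (H m) - ∑ z : M × M, ind (z.1 ≠ z.2) * ind (R z) ≤ ind (∃ m, H m) := by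
  classical
  simp only [← ind_and]
  rw [sum_ind, sum_ind]
  set S := univ.filter fun m => m ∈ T ∧ H m
  have h1 : #S.offDiag ≤ #(univ.filter fun z : M × M => z.1 ≠ z.2 ∧ R z) := by
    refine card_le_card fun z hz => ?_
    obtain ⟨h1, h2, h3⟩ := mem_offDiag.1 hz
    rw [mem_filter] at h1 h2
    exact mem_filter.2 ⟨mem_univ _, h3, hR _ h1.2.1 _ h2.2.1 h3 h1.2.2 h2.2.2⟩
  rw [offDiag_card, tsub_le_iff_right] at h1
  have h2 : (#S : ℝ) * #S ≤ #(univ.filter fun z : M × M => z.1 ≠ z.2 ∧ R z) + #S := by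
    exact_mod_cast h1
  rcases S.eq_empty_or_nonempty with h | ⟨m, hm⟩
  · rw [h, card_empty, Nat.cast_zero]
    linarith [ind_nonneg (P := ∃ m, H m),
      Nat.cast_nonneg (α := ℝ) #(univ.filter fun z : M × M => z.1 ≠ z.2 ∧ R z)]
  · rw [ind_pos ⟨m, (mem_filter.1 hm).2.2⟩]
    nlinarith [sq_nonneg ((#S : ℝ) - 1)]

lemma mass_prod {ι Ω : Type} [Fintype ι] [Fintype Ω] (π : Ω → ℝ) (h0 : ∀ ω, 0 ≤ π ω)
    (C : ι × Ω → Prop) (R : ι × Ω → Prop) {η : ℝ} (hη : ∀ i, mass π (fun ω => R (i, ω)) ≤ η) :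
    mass (fun z => π z.2 * ind (C z)) R ≤ Fintype.card ι * η := by
  simp only [mass_eq] at hη ⊢
  rw [Fintype.sum_prod_type]
  refine (sum_le_card_nsmul _ _ η fun i _ => le_trans (sum_le_sum fun ω _ => ?_) (hη i)).trans ?_
  · exact mul_le_mul_of_nonneg_right (mul_le_of_le_one_right (h0 ω) ind_le_one) ind_nonneg
  · rw [nsmul_eq_mul, card_univ]

variable {F : Type} [Field F] [Fintype F] {e : ℕ} {Ω M : Type} [Fintype Ω] [Fintype M]

lemma spread (π : Ω → ℝ) (h0 : ∀ ω, 0 ≤ π ω) (P : Ω → (Fin e → F) × F × F) {θ : ℝ}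
    (hsp : ∀ u, mass π (fun ω => (P ω).1 = u) ≤ θ) (p p' : (Fin e → F) × F × F) :
    mass π (fun ω => On F (P ω) p p') ≤ (Fintype.card F : ℝ) ^ 2 * θ := by
  simp only [mass_eq] at hsp ⊢
  calc _ ≤ ∑ ω, π ω * ∑ c : F × F, ind ((P ω).1 = c.1 • p.1 + c.2 • p'.1) :=
        sum_le_sum fun ω _ => mul_le_mul_of_nonneg_left
          (ind_le_sum _ _ fun ⟨x, y, h⟩ => ⟨(x, y), mem_univ _, by rw [h]; rfl⟩) (h0 ω)
    _ ≤ _ := by
        simp only [mul_sum]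
        rw [sum_comm]
        refine (sum_le_card_nsmul _ _ θ fun c _ => hsp _).trans ?_
        simp [sq]

omit [Fintype F] [Fintype Ω] in
/-- The deterministic step: the choice of the point to be avoided. -/
lemma choice [DecidableEq F] (G : Finset ((Fin e → F) × F × F)) (φ : Fin e → F) (a : F)
    (h1 : ∀ p ∈ G, ∀ p' ∈ G, K (φ, a) p → K (φ, a) p' → p = p')
    (h2 : ∀ p ∈ G, K (φ, a) p → p.2.2 ≠ 0) :
    ∃ d : (Fin e → F) × F, (d ∈ G.image (fun p => (p.2.2⁻¹ • p.1, p.2.2⁻¹ * p.2.1)) ∨ d = (0, a)) ∧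
      d.1 ⬝ᵥ φ + d.2 = a ∧ ∀ (u u' : Fin e → F) (β β' : F), K (φ, a) (u, β, 1) →
        K (φ, a) (u', β', 1) →
        (∀ c : F, ¬ (c • u + (1 - c) • u' = d.1 ∧ c * β + (1 - c) * β' = d.2)) →
        ∀ p ∈ G, ¬ On F p (u, β, 1) (u', β', 1) := by
  by_cases h : ∃ p ∈ G, K (φ, a) p
  · obtain ⟨p, hp, hk⟩ := h
    have h3 := h2 p hp hk
    refine ⟨_, Or.inl (mem_image_of_mem _ hp), ?_, fun u u' β β' k1 k2 hc p' hp' ⟨x, y, ho⟩ => ?_⟩
    · unfold K at hk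
      simp only [smul_dotProduct, smul_eq_mul] at hk ⊢
      rw [← mul_add, hk, mul_comm, mul_inv_cancel_right₀ h3]
    · obtain rfl := h1 p hp p' hp' hk (ho ▸ K_comb k1 k2 x y)
      have h4 : p.2.2 = x + y := by rw [ho]; simp
      have h5 : 1 - p.2.2⁻¹ * x = p.2.2⁻¹ * y := by
        rw [← inv_mul_cancel₀ h3, ← mul_sub, h4, add_sub_cancel_left]
      refine hc (p.2.2⁻¹ * x) ?_
      rw [h5]
      have h6 : p.1 = x • u + y • u' := by rw [ho]; rfl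
      have h7 : p.2.1 = x * β + y * β' := by rw [ho]; rfl
      exact ⟨by rw [h6]; module, by rw [h7]; ring⟩
  · exact ⟨(0, a), Or.inr rfl, by simp, fun u u' β β' k1 k2 _ p hp ⟨x, y, ho⟩ =>
      h ⟨p, hp, ho ▸ K_comb k1 k2 x y⟩⟩

theorem kill_gen (π : Ω → ℝ) (h0 : ∀ ω, 0 ≤ π ω) (h1 : ∑ ω, π ω = 1)
    (f : M → Ω → Fin e → F) (b : M → Ω → F) {θ A q : ℝ} (hq : q = Fintype.card F) {h : ℕ}
    (hh : 1 ≤ h) (hsp : ∀ m u, mass π (fun ω => f m ω = u) ≤ θ)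
    (hd : ∀ ω, π ω ≠ 0 → ∀ m m', f m ω = f m' ω → b m ω = b m' ω → m = m')
    (hr : ∀ ω, π ω ≠ 0 → ∀ (g : Fin e → F) (a : F), ∃ T : Finset M, h ≤ T.card ∧
      ∀ m ∈ T, ∀ m' ∈ T, m ≠ m' → ∀ c : F,
        ¬ (c • f m ω + (1 - c) • f m' ω = g ∧ c * b m ω + (1 - c) * b m' ω = a))
    (hθ : θ * q ^ 14 ≤ 1) (hA1 : 1 ≤ A) (hA : A ^ 3 ≤ q) (hN : (Fintype.card M : ℝ) ^ 2 ≤ q) :
    ∑ φ : Fin e → F, ind (∃ a : F, mass π (fun ω => ∃ m, f m ω ⬝ᵥ φ + b m ω = a) < h / (2 * q)) ≤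
      300 * (Fintype.card M : ℝ) ^ 4 / A * q ^ e := by
  classical
  set N : ℝ := (Fintype.card M : ℝ) with hNdef
  have hA0 : 0 < A := by linarith
  have hAq : A ≤ q := (le_self_pow₀ hA1 (by norm_num)).trans hA
  have hq1 : 1 ≤ q := hA1.trans hAq
  have hq0 : 0 < q := by linarith
  have hh1 : (1 : ℝ) ≤ h := by exact_mod_cast hh
  obtain ⟨ω₀, -, hω₀⟩ := exists_ne_zero_of_sum_ne_zero (h1.trans_ne one_ne_zero)
  have hhN : (h : ℝ) ≤ N := by
    obtain ⟨T, hT, -⟩ := hr ω₀ hω₀ 0 0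
    exact Nat.cast_le.2 (hT.trans (card_le_univ T))
  have hN1 : 1 ≤ N := hh1.trans hhN
  have hθ0 : 0 ≤ θ := by
    obtain ⟨m⟩ : Nonempty M := Fintype.card_pos_iff.1 (Nat.cast_pos.1 (zero_lt_one.trans_le hN1))
    refine le_trans ?_ (hsp m 0)
    rw [mass_eq]
    exact sum_nonneg fun ω _ => mul_nonneg (h0 ω) ind_nonneg
  have hθ5 : q ^ 5 * θ ≤ A⁻¹ := by
    rw [← one_div, le_div_iff₀ hA0]
    calc q ^ 5 * θ * A ≤ q ^ 5 * θ * q ^ 9 := by
          gcongr; exact hAq.trans (le_self_pow₀ hq1 (by norm_num))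
      _ = θ * q ^ 14 := by ring
      _ ≤ 1 := hθ
  obtain ⟨NN, hNN⟩ := exists_NN F ((Fin e → F) × F × F)
  -- weighted lines
  let μ : (M × M) × Ω → ℝ := fun z => π z.2 * ind (z.1.1 ≠ z.1.2)
  let P : (M × M) × Ω → (Fin e → F) × F × F := fun z => (f z.1.1 z.2, b z.1.1 z.2, 1)
  let P' : (M × M) × Ω → (Fin e → F) × F × F := fun z => (f z.1.2 z.2, b z.1.2 z.2, 1)
  have hμ : ∀ z, 0 ≤ μ z := fun z => mul_nonneg (h0 _) ind_nonneg
  have hMM : (Fintype.card (M × M) : ℝ) = N ^ 2 := by rw [Fintype.card_prod, sq]; push_cast; rfl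
  have hn : ∑ z, μ z ≤ N ^ 2 := by
    have := mass_prod π h0 (fun z : (M × M) × Ω => z.1.1 ≠ z.1.2) (fun _ => True) (η := 1)
      fun _ => by simp [mass, h1]
    rwa [hMM, mul_one, mass_eq, ind_pos trivial, ← sum_mul, mul_one] at this
  have hη : ∀ p p', mass μ (fun z => On F (P z) p p') ≤ N ^ 2 * (q ^ 2 * θ) := fun p p' => by
    rw [← hMM, hq]
    exact mass_prod π h0 _ _ fun i => spread π h0 _ (hsp i.1) p p'
  have hi : ∀ z, μ z ≠ 0 → LinearIndependent F ![P z, P' z] := fun z hz => by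
    refine (LinearIndependent.pair_iff' fun h => one_ne_zero (congrArg (·.2.2) h)).2 fun c hc => ?_
    have h2 : c = 1 := by simpa [P, P'] using congrArg (·.2.2) hc
    rw [h2, one_smul] at hc
    have h3 := hd z.2 (left_ne_zero_of_mul hz) _ _ (congrArg (·.1) hc) (congrArg (·.2.1) hc)
    exact right_ne_zero_of_mul hz (ind_neg fun h => h h3)
  obtain ⟨G, hG, cG, sG⟩ := popular NN (fun p => mass μ fun z => On F p (P z) (P' z))
    (fun p => by rw [mass_eq]; exact sum_nonneg fun z _ => mul_nonneg (hμ z) ind_nonneg) hA1 hAq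
    (sq_nonneg N) hN (by
      simp only [mass_eq]
      rw [sum_comm]
      calc _ ≤ ∑ z, μ z * q ^ 2 := sum_le_sum fun z _ => by
            rw [← mul_sum, hq]; exact mul_le_mul_of_nonneg_left (sum_on_le _ _ _) (hμ z)
        _ ≤ _ := by rw [← sum_mul]; gcongr)
    (fun S hS cS => by
      simp only [mass_eq] at hη ⊢
      rw [sum_comm]
      calc _ ≤ ∑ z, μ z * (1 + ∑ p ∈ S, ∑ p' ∈ S, ind (On F (P z) p p')) := sum_le_sum fun z _ => by
            rw [← mul_sum]; exact mul_le_mul_of_nonneg_left (hNN.sum_on_le hS _ _) (hμ z)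
        _ = ∑ z, μ z + ∑ p ∈ S, ∑ p' ∈ S, ∑ z, μ z * ind (On F (P z) p p') := by
            simp only [mul_add, mul_one, sum_add_distrib, mul_sum]
            rw [sum_comm]
            congr 1
            exact sum_congr rfl fun p _ => sum_comm
        _ ≤ N ^ 2 + #S * (#S * (N ^ 2 * (q ^ 2 * θ))) := by
            refine add_le_add hn ?_
            rw [← nsmul_eq_mul, ← nsmul_eq_mul]
            exact sum_le_card_nsmul _ _ _ fun p _ => sum_le_card_nsmul _ _ _ fun p' _ => hη p p'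
        _ ≤ N ^ 2 + q ^ 6 * (q ^ 6 * (N ^ 2 * (q ^ 2 * θ))) := by gcongr
        _ = N ^ 2 + N ^ 2 * (θ * q ^ 14) := by ring
        _ ≤ N ^ 2 + N ^ 2 * 1 := by gcongr
        _ = _ := by ring)
  have hM2 := second (G := G) hNN μ hμ P P' hi hn hη
  rw [← hq] at hM2
  set M2 := fun x : (Fin e → F) × F =>
    mass μ fun z => (∀ p ∈ G, ¬ On F p (P z) (P' z)) ∧ K x (P z) ∧ K x (P' z) with hM2d
  -- the sets of marks
  have hT : ∀ ω (d : (Fin e → F) × F), ∃ T : Finset M, π ω ≠ 0 → #T = h ∧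
      ∀ m ∈ T, ∀ m' ∈ T, m ≠ m' → ∀ c : F,
        ¬ (c • f m ω + (1 - c) • f m' ω = d.1 ∧ c * b m ω + (1 - c) * b m' ω = d.2) := by
    intro ω d
    by_cases hω : π ω = 0
    · exact ⟨∅, fun h => absurd hω h⟩
    obtain ⟨T, h2, h3⟩ := hr ω hω d.1 d.2
    obtain ⟨T', h4, h5⟩ := exists_subset_card_eq h2
    exact ⟨T', fun _ => ⟨h5, fun m hm m' hm' => h3 m (h4 hm) m' (h4 hm')⟩⟩
  choose T hT using hT
  let X := fun (d : (Fin e → F) × F) (φ : Fin e → F) =>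
    mass (fun y : M × Ω => π y.2 * ind (y.1 ∈ T y.2 d))
      fun y => (f y.1 y.2 - d.1) ⬝ᵥ φ = d.2 - b y.1 y.2
  have hX : ∀ d, ∑ φ, (X d φ - h / q) ^ 2 ≤ q ^ e * (h * (N * θ) * (q + 1)) := fun d => by
    have h2 := var (fun y : M × Ω => π y.2 * ind (y.1 ∈ T y.2 d))
      (fun y => mul_nonneg (h0 _) ind_nonneg) (fun y => f y.1 y.2 - d.1)
      (fun y => d.2 - b y.1 y.2) (η := N * θ) fun v => mass_prod π h0 _ _ fun m => by
        simpa only [sub_eq_iff_eq_add] using hsp m (v + d.1)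
    have h3 : ∑ y : M × Ω, π y.2 * ind (y.1 ∈ T y.2 d) = h := by
      rw [Fintype.sum_prod_type_right, ← one_mul (h : ℝ), ← h1, sum_mul]
      refine sum_congr rfl fun ω _ => ?_
      by_cases hω : π ω = 0
      · simp [hω]
      · dsimp only
        rw [← mul_sum, sum_ind, filter_mem_eq_inter, univ_inter, (hT ω d hω).1]
    rwa [h3, ← hq] at h2
  let D : Finset ((Fin e → F) × F) :=
    G.image (fun p => (p.2.2⁻¹ • p.1, p.2.2⁻¹ * p.2.1)) ∪ univ.image fun a => (0, a)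
  let L := G.offDiag ∪ (G.filter fun p => p.2.2 = 0).image
    fun p => (p, ((0, 0, 1) : (Fin e → F) × F × F))
  have cD : (#D : ℝ) ≤ 3 * q ^ 2 := by
    have h2 : #D ≤ #G + Fintype.card F :=
      (card_union_le _ _).trans (add_le_add card_image_le card_image_le)
    have h3 : (#D : ℝ) ≤ #G + q := by rw [hq]; exact_mod_cast h2
    have h4 : N ^ 2 * A ≤ q * q := by gcongr
    have h5 : q ≤ q ^ 2 := le_self_pow₀ hq1 (by norm_num)
    linarith
  have cL : (#L : ℝ) ≤ 6 * N ^ 4 / A * q := by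
    have h2 : #L ≤ #G * #G + #G := by
      refine (card_union_le _ _).trans (add_le_add ?_ (card_image_le.trans (card_filter_le _ _)))
      rw [offDiag_card]
      exact Nat.sub_le _ _
    have h3 : (#L : ℝ) ≤ #G * #G + #G := by exact_mod_cast h2
    have h4 : 1 ≤ N ^ 2 * A := one_le_mul_of_one_le_of_one_le (one_le_pow₀ hN1) hA1
    calc _ ≤ (2 * N ^ 2 * A) * (2 * N ^ 2 * A) + 2 * N ^ 2 * A := h3.trans (by gcongr)
      _ ≤ 6 * (N ^ 2 * A) ^ 2 := by linarith [le_self_pow₀ h4 two_ne_zero]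
      _ = 6 * N ^ 4 / A * A ^ 3 := by field_simp
      _ ≤ _ := by gcongr
  have iL : ∀ r ∈ L, LinearIndependent F ![r.1, r.2] := fun r hr => by
    rcases mem_union.1 hr with hr | hr
    · obtain ⟨h2, h3, h4⟩ := mem_offDiag.1 hr
      exact hNN.indep (hG h2) (hG h3) h4
    · obtain ⟨p, hp, rfl⟩ := mem_image.1 hr
      rw [mem_filter] at hp
      refine (LinearIndependent.pair_iff' (hNN.ne p (hG hp.1))).2 fun c hc => ?_
      simpa [hp.2] using congrArg (·.2.2) hc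
  have key : ∀ φ : Fin e → F,
      ind (∃ a : F, mass π (fun ω => ∃ m, f m ω ⬝ᵥ φ + b m ω = a) < h / (2 * q)) ≤
        ∑ a : F, ∑ r ∈ L, ind (K (φ, a) r.1 ∧ K (φ, a) r.2) + ∑ a : F, 16 * q ^ 2 * M2 (φ, a) ^ 2 +
          ∑ d ∈ D, 16 * q ^ 2 * (X d φ - h / q) ^ 2 := by
    intro φ
    have n1 : ∀ a, 0 ≤ ∑ r ∈ L, ind (K (φ, a) r.1 ∧ K (φ, a) r.2) := fun a =>
      sum_nonneg fun _ _ => ind_nonneg
    have p1 : 0 ≤ ∑ a, ∑ r ∈ L, ind (K (φ, a) r.1 ∧ K (φ, a) r.2) := sum_nonneg fun a _ => n1 a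
    have p2 : 0 ≤ ∑ a, 16 * q ^ 2 * M2 (φ, a) ^ 2 := by positivity
    have p3 : 0 ≤ ∑ d ∈ D, 16 * q ^ 2 * (X d φ - h / q) ^ 2 := by positivity
    refine ind_le (by positivity) fun ⟨a, ha⟩ => le_of_not_gt fun hlt => ?_
    have k1 : ∀ a, ∀ r ∈ L, ¬ (K (φ, a) r.1 ∧ K (φ, a) r.2) := fun a r hr hk => by
      have h2 := ind_le_sum L (fun r => K (φ, a) r.1 ∧ K (φ, a) r.2) (P := True) fun _ => ⟨r, hr, hk⟩
      have h3 := single_le_sum (fun a _ => n1 a) (mem_univ a)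
      rw [ind_pos trivial] at h2
      linarith
    obtain ⟨d, d1, d2, d3⟩ := choice G φ a
      (fun p hp p' hp' h2 h3 => by_contra fun h4 =>
        k1 a (p, p') (mem_union_left _ (mem_offDiag.2 ⟨hp, hp', h4⟩)) ⟨h2, h3⟩)
      fun p hp h2 h3 => k1 0 (p, (0, 0, 1))
        (mem_union_right _ (mem_image_of_mem _ (mem_filter.2 ⟨hp, h3⟩)))
        ⟨by simpa [K, h3] using h2, by simp [K]⟩
    have hD : d ∈ D := d1.elim (mem_union_left _) fun h2 =>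
      mem_union_right _ (h2 ▸ mem_image_of_mem _ (mem_univ a))
    have k2 := single_le_sum (f := fun a => 16 * q ^ 2 * M2 (φ, a) ^ 2) (fun _ _ => by positivity)
      (mem_univ a)
    have k3 := single_le_sum (f := fun d => 16 * q ^ 2 * (X d φ - h / q) ^ 2)
      (fun _ _ => by positivity) hD
    have k4 : 4 * q * M2 (φ, a) < 1 :=
      (abs_lt.1 ((sq_lt_one_iff_abs_lt_one _).1 (by linarith))).2
    have k5 : -1 < 4 * q * (X d φ - h / q) :=
      (abs_lt.1 ((sq_lt_one_iff_abs_lt_one _).1 (by linarith))).1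
    have k6 : X d φ - M2 (φ, a) ≤ mass π fun ω => ∃ m, f m ω ⬝ᵥ φ + b m ω = a := by
      simp only [X, hM2d, μ, mass_eq]
      rw [Fintype.sum_prod_type_right, Fintype.sum_prod_type_right (α₁ := M × M), ← sum_sub_distrib]
      refine sum_le_sum fun ω _ => ?_
      by_cases hω : π ω = 0
      · simp [hω]
      simp only [mul_assoc, ← mul_sum, ← mul_sub]
      refine mul_le_mul_of_nonneg_left ?_ (h0 ω)
      have h2 : ∀ m, (f m ω - d.1) ⬝ᵥ φ = d.2 - b m ω ↔ f m ω ⬝ᵥ φ + b m ω = a := fun m => by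
        rw [sub_dotProduct, ← d2]
        constructor <;> intro h <;> linear_combination h
      simp only [h2]
      refine bonf _ _ _ fun m hm m' hm' hne h3 h4 => ?_
      have h5 : K (φ, a) (f m ω, b m ω, 1) := by simpa [K] using h3
      have h6 : K (φ, a) (f m' ω, b m' ω, 1) := by simpa [K] using h4
      exact ⟨d3 _ _ _ _ h5 h6 ((hT ω d hω).2 m hm m' hm' hne), h5, h6⟩
    rw [lt_div_iff₀ (by positivity)] at ha
    rw [mul_sub, mul_assoc 4 q (h / q), mul_div_cancel₀ _ hq0.ne'] at k5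
    have k7 := mul_le_mul_of_nonneg_left k6 (by positivity : 0 ≤ 4 * q)
    linarith
  refine (sum_le_sum fun φ _ => key φ).trans ?_
  rw [sum_add_distrib, sum_add_distrib]
  have t1 : ∑ φ : Fin e → F, ∑ a : F, ∑ r ∈ L, ind (K (φ, a) r.1 ∧ K (φ, a) r.2) ≤
      6 * N ^ 4 / A * q ^ e := by
    rw [← Fintype.sum_prod_type' (f := fun φ a => ∑ r ∈ L, ind (K (φ, a) r.1 ∧ K (φ, a) r.2)),
      sum_comm]
    refine (sum_le_card_nsmul _ _ (q ^ e / q) fun r hr => ?_).trans ?_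
    · rw [le_div_iff₀ hq0, hq]
      exact cnt2 (iL r hr)
    · rw [nsmul_eq_mul]
      calc _ ≤ 6 * N ^ 4 / A * q * (q ^ e / q) := by gcongr
        _ = _ := by field_simp
  have hN4 : N ^ 2 ≤ N ^ 4 := pow_le_pow_right₀ hN1 (by norm_num)
  have t2 : ∑ φ : Fin e → F, ∑ a : F, 16 * q ^ 2 * M2 (φ, a) ^ 2 ≤ 80 * N ^ 4 / A * q ^ e := by
    rw [← Fintype.sum_prod_type' (f := fun φ a => 16 * q ^ 2 * M2 (φ, a) ^ 2), ← mul_sum]
    calc _ ≤ 16 * q ^ 2 * (q ^ (e + 1) * (N ^ 2 * (N ^ 2 * (q ^ 2 * θ)) + (q ^ 3)⁻¹ *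
          (3 * N ^ 2 / A) + (q ^ 4)⁻¹ * (N ^ 2) ^ 2)) := by
          refine mul_le_mul_of_nonneg_left (hM2.trans ?_) (by positivity)
          gcongr
      _ = 16 * (N ^ 4 * (q ^ 5 * θ) + 3 * N ^ 2 * A⁻¹ + N ^ 4 * q⁻¹) * q ^ e := by
          field_simp
          ring
      _ ≤ 16 * (N ^ 4 * A⁻¹ + 3 * N ^ 4 * A⁻¹ + N ^ 4 * A⁻¹) * q ^ e := by gcongr
      _ = _ := by ring
  have t3 : ∑ φ : Fin e → F, ∑ d ∈ D, 16 * q ^ 2 * (X d φ - h / q) ^ 2 ≤ 96 * N ^ 4 / A * q ^ e := by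
    rw [sum_comm]
    refine (sum_le_card_nsmul _ _ (16 * q ^ 2 * (q ^ e * (N * (N * θ) * (q + q))))
      fun d _ => ?_).trans ?_
    · rw [← mul_sum]
      refine mul_le_mul_of_nonneg_left ((hX d).trans ?_) (by positivity)
      gcongr
    · rw [nsmul_eq_mul]
      calc _ ≤ 3 * q ^ 2 * (16 * q ^ 2 * (q ^ e * (N * (N * θ) * (q + q)))) := by gcongr
        _ = 96 * N ^ 2 * (q ^ 5 * θ) * q ^ e := by ring
        _ ≤ 96 * N ^ 4 * A⁻¹ * q ^ e := by gcongr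
        _ = _ := by ring
  have t4 : 0 ≤ N ^ 4 / A * q ^ e := by positivity
  simp only [mul_div_assoc, mul_assoc] at t1 t2 t3 ⊢
  linarith

end Kill

open Classical in
theorem kill_lemma {q : ℕ} [Fact q.Prime] {e : ℕ} {Ω M : Type} [Fintype Ω] [Fintype M]
    (π : Ω → ℝ) (h0 : ∀ ω, 0 ≤ π ω) (h1 : ∑ ω, π ω = 1)
    (f : M → Ω → Fin e → ZMod q) (b : M → Ω → ZMod q) {θ A : ℝ} {h : ℕ} (hh : 1 ≤ h)
    (hsp : ∀ m u, mass π (fun ω => f m ω = u) ≤ θ)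
    (hd : ∀ ω, π ω ≠ 0 → ∀ m m', f m ω = f m' ω → b m ω = b m' ω → m = m')
    (hr : ∀ ω, π ω ≠ 0 → ∀ (g : Fin e → ZMod q) (a : ZMod q), ∃ T : Finset M, h ≤ T.card ∧
      ∀ m ∈ T, ∀ m' ∈ T, m ≠ m' → ∀ c : ZMod q,
        ¬ (c • f m ω + (1 - c) • f m' ω = g ∧ c * b m ω + (1 - c) * b m' ω = a))
    (hθ : θ * (q : ℝ) ^ 14 ≤ 1) (hA1 : 1 ≤ A) (hA : A ^ 3 ≤ q)
    (hN : Fintype.card M ^ 2 ≤ q) :
    ((univ.filter fun φ : Fin e → ZMod q => ∃ a : ZMod q,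
        mass π (fun ω => ∃ m, f m ω ⬝ᵥ φ + b m ω = a) < h / (2 * q)).card : ℝ) ≤
      300 * (Fintype.card M : ℝ) ^ 4 / A * (q : ℝ) ^ e := by
  rw [← Kill.sum_ind]
  exact Kill.kill_gen π h0 h1 f b (by rw [ZMod.card]) hh hsp hd hr hθ hA1 hA (by exact_mod_cast hN)

end Pool.Agent.Lib.MP_5ab464_nt
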