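import Pool.Agent.Lib.MP_5ab464_nt.H84Defs

/-! Counting lemmas over a finite field for TASK KILL. -/

open Finset

namespace Pool.Agent.Lib.MP_5ab464_nt.Kill

open Classical in
/-- Indicator of a proposition. -/
noncomputable def ind (P : Prop) : ℝ := if P then 1 else 0

section ind
variable {P Q : Prop}

lemma ind_pos (h : P) : ind P = 1 := if_pos h

lemma ind_neg (h : ¬ P) : ind P = 0 := if_neg h

lemma ind_nonneg : 0 ≤ ind P := by unfold ind; split_ifs <;> norm_num

lemma ind_le_one : ind P ≤ 1 := by unfold ind; split_ifs <;> norm_num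

lemma ind_and : ind (P ∧ Q) = ind P * ind Q := by
  by_cases h : P <;> by_cases h' : Q <;> simp [ind, h, h']

lemma ind_mono (h : P → Q) : ind P ≤ ind Q := by
  by_cases hP : P
  · rw [ind_pos hP, ind_pos (h hP)]
  · rw [ind_neg hP]; exact ind_nonneg

lemma ind_le {x : ℝ} (h0 : 0 ≤ x) (h : P → 1 ≤ x) : ind P ≤ x := by
  by_cases hP : P
  · rw [ind_pos hP]; exact h hP
  · rw [ind_neg hP]; exact h0

lemma ind_le_sum {ι : Type} (S : Finset ι) (R : ι → Prop) (h : P → ∃ s ∈ S, R s) :
    ind P ≤ ∑ s ∈ S, ind (R s) := by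
  refine ind_le (sum_nonneg fun _ _ => ind_nonneg) fun hP => ?_
  obtain ⟨s, hs, hR⟩ := h hP
  rw [← ind_pos hR]
  exact single_le_sum (f := fun s => ind (R s)) (fun _ _ => ind_nonneg) hs

lemma sum_ind {ι : Type} (S : Finset ι) (R : ι → Prop) [DecidablePred R] :
    ∑ s ∈ S, ind (R s) = (S.filter R).card := by
  rw [card_filter]
  push_cast
  exact sum_congr rfl fun s _ => by unfold ind; congr

lemma sum_ind_eq_le {ι : Type} (S : Finset ι) (c : ι) : ∑ s ∈ S, ind (s = c) ≤ 1 := by
  classical
  rw [sum_ind]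
  have : #(S.filter fun s => s = c) ≤ 1 := card_le_one.2 fun a ha b hb => by
    rw [(mem_filter.1 ha).2, (mem_filter.1 hb).2]
  exact_mod_cast this

lemma mass_eq {Z : Type} [Fintype Z] (μ : Z → ℝ) (R : Z → Prop) :
    mass μ R = ∑ z, μ z * ind (R z) :=
  sum_congr rfl fun z _ => by unfold ind; split_ifs <;> simp

end ind

section count
variable {F : Type} [Field F] [Fintype F]

lemma cntA {W : Type} [AddCommGroup W] [Module F W] [Fintype W] {d : ℕ} (l : Fin d → W →ₗ[F] F)
    (h : LinearIndependent F l) (t : Fin d → F) :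
    (∑ w, ind (∀ i, l i w = t i)) * (Fintype.card F : ℝ) ^ d = Fintype.card W := by
  classical
  have hs : Function.Surjective (LinearMap.pi l) := by
    rw [← LinearMap.range_eq_top]
    by_contra hne
    obtain ⟨χ, h0, h1⟩ := Submodule.exists_dual_map_eq_bot_of_lt_top (lt_top_iff_ne_top.2 hne)
      inferInstance
    have h2 := Fintype.linearIndependent_iff.1 h (fun i => χ fun j => if i = j then 1 else 0) (by
      ext w
      have : χ (LinearMap.pi l w) ∈ (⊥ : Submodule F F) := h1 ▸ ⟨_, ⟨w, rfl⟩, rfl⟩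
      rw [Submodule.mem_bot, LinearMap.pi_apply_eq_sum_univ] at this
      simpa [mul_comm] using this)
    refine h0 (LinearMap.ext fun x => ?_)
    rw [LinearMap.pi_apply_eq_sum_univ]
    simp [h2]
  have h1 : Fintype.card W = ∑ s : Fin d → F, #{w | LinearMap.pi l w = s} :=
    card_eq_sum_card_fiberwise fun _ _ => mem_coe.2 (mem_univ _)
  rw [sum_congr rfl fun s _ => AddMonoidHom.card_fiber_eq_of_mem_range (LinearMap.pi l) (hs s)
    (hs t), sum_const, card_univ, Fintype.card_fun, Fintype.card_fin, smul_eq_mul] at h1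
  rw [sum_ind, h1, mul_comm]
  push_cast
  congr 3
  ext w
  simp [funext_iff]

variable {e : ℕ}

/-- The linear form of `(φ, a)` kills the vector. -/
def K (x : (Fin e → F) × F) (v : (Fin e → F) × F × F) : Prop := v.1 ⬝ᵥ x.1 + v.2.1 = x.2 * v.2.2

/-- The linear part of the condition `K`. -/
def lin (v : (Fin e → F) × F × F) : ((Fin e → F) × F) →ₗ[F] F where
  toFun x := v.1 ⬝ᵥ x.1 - x.2 * v.2.2
  map_add' x y := by simp only [Prod.fst_add, Prod.snd_add, dotProduct_add]; ring
  map_smul' c x := by
    simp only [Prod.smul_fst, Prod.smul_snd, dotProduct_smul, smul_eq_mul, RingHom.id_apply]; ring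

omit [Fintype F] in
lemma K_comb {x : (Fin e → F) × F} {A B : (Fin e → F) × F × F} (hA : K x A) (hB : K x B)
    (s t : F) : K x (s • A + t • B) := by
  simp only [K, Prod.fst_add, Prod.snd_add, Prod.smul_fst, Prod.smul_snd, add_dotProduct,
    smul_dotProduct, smul_eq_mul] at *
  linear_combination s * hA + t * hB

lemma cntB {d : ℕ} (v : Fin d → (Fin e → F) × F × F) (hv : LinearIndependent F v) :
    (∑ x, ind (∀ i, K x (v i))) * (Fintype.card F : ℝ) ^ d ≤ (Fintype.card F : ℝ) ^ (e + 1) := by
  classical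
  by_cases h : LinearIndependent F fun i => lin (v i)
  · have := cntA _ h fun i => -(v i).2.1
    rw [Fintype.card_prod, Fintype.card_fun, Fintype.card_fin] at this
    push_cast at this
    rw [pow_succ, ← this]
    refine le_of_eq ?_
    congr 1
    refine sum_congr rfl fun x _ => congrArg ind (propext (forall_congr' fun i => ?_))
    change _ ↔ (v i).1 ⬝ᵥ x.1 - x.2 * (v i).2.2 = _
    unfold K
    constructor <;> intro h <;> linear_combination h
  · rw [sum_eq_zero, zero_mul]
    · positivity
    refine fun x _ => ind_neg fun hx => h (Fintype.linearIndependent_iff.2 fun c hc => ?_)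
    have h1 : ∀ y : (Fin e → F) × F, (∑ i, c i • v i).1 ⬝ᵥ y.1 - y.2 * (∑ i, c i • v i).2.2 = 0 := by
      intro y
      have := LinearMap.congr_fun hc y
      simp only [LinearMap.coe_sum, Finset.sum_apply, LinearMap.smul_apply, smul_eq_mul,
        LinearMap.zero_apply] at this
      rw [← this]
      simp only [Prod.fst_sum, Prod.snd_sum, sum_dotProduct, mul_sum, ← sum_sub_distrib]
      refine sum_congr rfl fun i _ => ?_
      change _ = c i * ((v i).1 ⬝ᵥ y.1 - y.2 * (v i).2.2)
      simp only [Prod.smul_fst, Prod.smul_snd, smul_dotProduct, smul_eq_mul]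
      ring
    have h2 : K x (∑ i, c i • v i) := by
      refine sum_induction _ _ (fun a b ha hb => by simpa using K_comb ha hb 1 1) (by simp [K])
        fun i _ => by simpa using K_comb (hx i) (hx i) (c i) 0
    refine Fintype.linearIndependent_iff.1 hv c (Prod.ext ?_ (Prod.ext ?_ ?_))
    · exact dotProduct_eq_zero _ fun w => by simpa using h1 (w, 0)
    · unfold K at h2
      have := h1 x
      change _ = (0 : F)
      linear_combination h2 - this
    · simpa using h1 (0, 1)

lemma cntD {d : ℕ} (u : Fin d → Fin e → F) (hu : LinearIndependent F u) (t : Fin d → F) :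
    (∑ φ, ind (∀ i, u i ⬝ᵥ φ = t i)) * (Fintype.card F : ℝ) ^ d = (Fintype.card F : ℝ) ^ e := by
  classical
  have := cntA _ (hu.map' (dotProductEquiv F (Fin e)).toLinearMap (LinearEquiv.ker _)) t
  rw [Fintype.card_fun, Fintype.card_fin] at this
  push_cast at this
  exact this

/-- Covariance of two linear conditions. -/
lemma cov (u u' : Fin e → F) (t t' : F) :
    ∑ φ, (ind (u ⬝ᵥ φ = t) - (Fintype.card F : ℝ)⁻¹) * (ind (u' ⬝ᵥ φ = t') - (Fintype.card F : ℝ)⁻¹)
      ≤ (Fintype.card F : ℝ) ^ e * (ind (u = 0) + ∑ c : F, ind (u' = c • u)) := by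
  classical
  set q : ℝ := (Fintype.card F : ℝ) with hq
  have hq1 : 1 ≤ q := by rw [hq]; exact_mod_cast Fintype.card_pos
  have hc : (#(univ : Finset (Fin e → F)) : ℝ) = q ^ e := by simp [hq]
  have hs : 0 ≤ ∑ c : F, ind (u' = c • u) := sum_nonneg fun _ _ => ind_nonneg
  by_cases h : u = 0 ∨ ∃ c : F, u' = c • u
  · have h1 : 1 ≤ ind (u = 0) + ∑ c : F, ind (u' = c • u) := by
      rcases h with h | h
      · rw [ind_pos h]; linarith
      · have := ind_le_sum univ (fun c : F => u' = c • u) (P := True) fun _ => by simpa using h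
        rw [ind_pos trivial] at this
        linarith [ind_nonneg (P := u = 0)]
    refine le_trans (sum_le_card_nsmul _ _ 1 fun φ _ => ?_) ?_
    · have h2 : 0 ≤ q⁻¹ := by positivity
      have h3 : q⁻¹ ≤ 1 := inv_le_one_of_one_le₀ hq1
      unfold ind
      split_ifs <;> nlinarith
    · rw [nsmul_eq_mul, hc]
      exact mul_le_mul_of_nonneg_left h1 (by positivity)
  · push Not at h
    have hi : LinearIndependent F ![u, u'] :=
      (LinearIndependent.pair_iff' h.1).2 fun c hc => h.2 c hc.symm
    have h2 := cntD _ hi ![t, t']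
    have ha := cntD ![u] (by simpa using h.1) ![t]
    have hb := cntD ![u'] (by simpa using h.2 0) ![t']
    simp only [Fin.forall_fin_succ, Matrix.cons_val_zero, Matrix.cons_val_succ, IsEmpty.forall_iff,
      and_true, ind_and, pow_one, ← hq] at h2 ha hb
    refine le_trans (le_of_eq ?_) (by have := ind_nonneg (P := u = 0); positivity)
    simp only [sub_mul, mul_sub, sum_sub_distrib, ← sum_mul, ← mul_sum, sum_const, nsmul_eq_mul, hc]
    rw [eq_div_of_mul_eq (by positivity) h2, eq_div_of_mul_eq (by positivity) ha,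
      eq_div_of_mul_eq (by positivity) hb]
    field_simp
    ring

/-- Variance of a weighted number of satisfied linear conditions. -/
lemma var {Y : Type} [Fintype Y] (ν : Y → ℝ) (h0 : ∀ y, 0 ≤ ν y) (u : Y → Fin e → F) (t : Y → F)
    {η : ℝ} (hη : ∀ v, mass ν (fun y => u y = v) ≤ η) :
    ∑ φ, (mass ν (fun y => u y ⬝ᵥ φ = t y) - (∑ y, ν y) / Fintype.card F) ^ 2 ≤
      (Fintype.card F : ℝ) ^ e * ((∑ y, ν y) * η * (Fintype.card F + 1)) := by
  classical
  set q : ℝ := (Fintype.card F : ℝ) with hq
  have hH : 0 ≤ ∑ y, ν y := sum_nonneg fun y _ => h0 y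
  have e1 : ∀ φ, (mass ν (fun y => u y ⬝ᵥ φ = t y) - (∑ y, ν y) / q) ^ 2 = ∑ y, ∑ y',
      ν y * ν y' * ((ind (u y ⬝ᵥ φ = t y) - q⁻¹) * (ind (u y' ⬝ᵥ φ = t y') - q⁻¹)) := by
    intro φ
    rw [mass_eq, div_eq_mul_inv, sum_mul, ← sum_sub_distrib, sq, sum_mul_sum]
    exact sum_congr rfl fun y _ => sum_congr rfl fun y' _ => by ring
  simp only [e1]
  rw [sum_comm]
  simp only [mass_eq] at hη
  calc _ ≤ ∑ y, q ^ e * (ν y * ind (u y = 0) * (∑ y, ν y) + ν y * (q * η)) := by
        refine sum_le_sum fun y _ => ?_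
        rw [sum_comm]
        calc _ ≤ ∑ y', ν y * ν y' * (q ^ e * (ind (u y = 0) + ∑ c : F, ind (u y' = c • u y))) := by
              refine sum_le_sum fun y' _ => ?_
              rw [← mul_sum]
              exact mul_le_mul_of_nonneg_left (cov _ _ _ _) (mul_nonneg (h0 y) (h0 y'))
          _ = q ^ e * (ν y * ind (u y = 0) * (∑ y, ν y) +
                ν y * ∑ c : F, ∑ y', ν y' * ind (u y' = c • u y)) := by
              rw [sum_comm]
              simp only [mul_sum, ← sum_add_distrib, mul_add]
              refine sum_congr rfl fun y' _ => ?_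
              congr 1
              · ring
              · exact sum_congr rfl fun c _ => by ring
          _ ≤ _ := by
              have := sum_le_card_nsmul univ (fun c : F => ∑ y', ν y' * ind (u y' = c • u y)) η
                fun c _ => hη _
              rw [nsmul_eq_mul, card_univ] at this
              have h1 := h0 y
              gcongr
    _ = q ^ e * ((∑ y, ν y * ind (u y = 0)) * (∑ y, ν y) + (∑ y, ν y) * (q * η)) := by
        rw [← mul_sum, sum_add_distrib, ← sum_mul, ← sum_mul]
    _ ≤ q ^ e * (η * (∑ y, ν y) + (∑ y, ν y) * (q * η)) := by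
        have := hη 0
        gcongr
    _ = _ := by ring

end count

end Pool.Agent.Lib.MP_5ab464_nt.Kill
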