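import Pool.Agent.Lib.MP_5ab464_nt.H84KillA

/-! Popular points of a weighted family of lines, for TASK KILL. -/

open Finset

namespace Pool.Agent.Lib.MP_5ab464_nt.Kill

variable {F : Type} [Field F]

section geom
variable {E : Type} [AddCommGroup E] [Module F E]

variable (F) in
/-- The vector `p` lies in the plane of `A` and `B`. -/
def On (p A B : E) : Prop := ∃ x y : F, p = x • A + y • B

variable (F) in
/-- A system of representatives of the projective points. -/
structure IsNN (NN : Finset E) : Prop where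
  ne : ∀ p ∈ NN, p ≠ 0
  cover : ∀ v ≠ 0, ∃ p ∈ NN, ∃ c : F, p = c • v
  uniq : ∀ p ∈ NN, ∀ p' ∈ NN, ∀ c : F, p = c • p' → p = p'

variable (F E) in
lemma exists_NN [Fintype E] : ∃ NN : Finset E, IsNN F NN := by
  classical
  refine ⟨univ.filter fun v => ∃ h : v ≠ 0, (Projectivization.mk F v h).rep = v,
    fun p hp => (mem_filter.1 hp).2.1, fun v hv => ?_, fun p hp p' hp' c hc => ?_⟩
  · obtain ⟨a, ha⟩ := Projectivization.exists_smul_eq_mk_rep F v hv
    exact ⟨_, mem_filter.2 ⟨mem_univ _, Projectivization.rep_nonzero _,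
      by rw [Projectivization.mk_rep]⟩, a, ha.symm⟩
  · obtain ⟨h1, h2⟩ := (mem_filter.1 hp).2
    obtain ⟨h3, h4⟩ := (mem_filter.1 hp').2
    rw [← h2, ← h4, (Projectivization.mk_eq_mk_iff' F p p' h1 h3).2 ⟨c, hc.symm⟩]

lemma IsNN.indep {NN : Finset E} (h : IsNN F NN) {p p' : E} (hp : p ∈ NN) (hp' : p' ∈ NN)
    (hne : p ≠ p') : LinearIndependent F ![p, p'] :=
  (LinearIndependent.pair_iff' (h.ne p hp)).2 fun c hc => hne (h.uniq _ hp' _ hp c hc.symm).symm

lemma IsNN.on {NN : Finset E} (h : IsNN F NN) {p p' A B : E} (hp : p ∈ NN) (hp' : p' ∈ NN)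
    (hne : p ≠ p') (h1 : On F p A B) (h2 : On F p' A B) : On F A p p' := by
  obtain ⟨x, y, h1⟩ := h1
  obtain ⟨x', y', h2⟩ := h2
  have hi := LinearIndependent.pair_iff.1 (h.indep hp hp' hne)
  have hd : x * y' - x' * y ≠ 0 := fun hd => by
    have e1 := hi y' (-y) (by rw [h1, h2]; match_scalars; exacts [by linear_combination hd, by ring])
    have e2 := hi x' (-x) (by rw [h1, h2]; match_scalars; exacts [by ring, by linear_combination -hd])
    exact h.ne p' hp' (by rw [h2, e1.1, e2.1]; simp)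
  refine ⟨(x * y' - x' * y)⁻¹ * y', -((x * y' - x' * y)⁻¹ * y), ?_⟩
  rw [h1, h2]
  match_scalars
  · field_simp
    ring
  · ring

lemma sum_on_le [Fintype F] (S : Finset E) (A B : E) :
    ∑ p ∈ S, ind (On F p A B) ≤ (Fintype.card F : ℝ) ^ 2 := by
  calc _ ≤ ∑ p ∈ S, ∑ c : F × F, ind (p = c.1 • A + c.2 • B) :=
        sum_le_sum fun p _ => ind_le_sum _ _ fun ⟨x, y, h⟩ => ⟨(x, y), mem_univ _, h⟩
    _ ≤ _ := by
        rw [sum_comm]
        refine (sum_le_card_nsmul _ _ 1 fun c _ => sum_ind_eq_le _ _).trans ?_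
        simp [sq]

lemma IsNN.sum_on_le {NN S : Finset E} (h : IsNN F NN) (hS : S ⊆ NN) (A B : E) :
    ∑ p ∈ S, ind (On F p A B) ≤ 1 + ∑ p ∈ S, ∑ p' ∈ S, ind (On F A p p') := by
  have h0 : ∀ p ∈ S, 0 ≤ ∑ p' ∈ S, ind (On F A p p') := fun _ _ => sum_nonneg fun _ _ => ind_nonneg
  by_cases hx : ∃ p ∈ S, On F p A B
  · obtain ⟨p₀, hp₀, h1⟩ := hx
    calc _ ≤ ∑ p ∈ S, (ind (p = p₀) + ind (On F A p₀ p)) := by
          refine sum_le_sum fun p hp => ind_le (add_nonneg ind_nonneg ind_nonneg) fun h2 => ?_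
          by_cases h3 : p = p₀
          · rw [ind_pos h3]; linarith [ind_nonneg (P := On F A p₀ p)]
          · rw [ind_neg h3, ind_pos (h.on (hS hp₀) (hS hp) (Ne.symm h3) h1 h2), zero_add]
      _ ≤ _ := by
          rw [sum_add_distrib]
          exact add_le_add (sum_ind_eq_le _ _) (single_le_sum h0 hp₀)
  · push Not at hx
    rw [sum_eq_zero fun p hp => ind_neg (hx p hp)]
    linarith [sum_nonneg h0]

end geom

/-- Few popular points, small second moment of the others. -/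
lemma popular {E : Type} [DecidableEq E] (NN : Finset E) (κ : E → ℝ) (h0 : ∀ p, 0 ≤ κ p)
    {n q A : ℝ} (hA1 : 1 ≤ A) (hA : A ≤ q) (hn0 : 0 ≤ n) (hn : n ≤ q)
    (h1 : ∑ p ∈ NN, κ p ≤ n * q ^ 2) (h2 : ∀ S ⊆ NN, (#S : ℝ) ≤ q ^ 6 → ∑ p ∈ S, κ p ≤ 2 * n) :
    ∃ G ⊆ NN, (#G : ℝ) ≤ 2 * n * A ∧ ∑ p ∈ NN \ G, κ p ^ 2 ≤ 3 * n / A := by
  have hq : 1 ≤ q := hA1.trans hA
  have hA0 : 0 < A := by linarith
  set G2 := NN.filter fun p => 1 ≤ q ^ 3 * κ p with hG2
  have c2 : (#G2 : ℝ) ≤ q ^ 6 := by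
    calc (#G2 : ℝ) = ∑ p ∈ G2, 1 := by simp
      _ ≤ ∑ p ∈ G2, q ^ 3 * κ p := sum_le_sum fun p hp => (mem_filter.1 hp).2
      _ ≤ ∑ p ∈ NN, q ^ 3 * κ p := sum_le_sum_of_subset_of_nonneg (filter_subset _ _)
          fun p _ _ => mul_nonneg (by positivity) (h0 p)
      _ ≤ q ^ 3 * (q * q ^ 2) := by
          rw [← mul_sum]
          gcongr
          exact h1.trans (by gcongr)
      _ = _ := by ring
  have s2 := h2 G2 (filter_subset _ _) c2
  have hq3 : A ≤ q ^ 3 := hA.trans (le_self_pow₀ hq (by norm_num))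
  refine ⟨NN.filter fun p => 1 ≤ A * κ p, filter_subset _ _, ?_, ?_⟩
  · calc (#(NN.filter fun p => 1 ≤ A * κ p) : ℝ) = ∑ p ∈ NN.filter fun p => 1 ≤ A * κ p, 1 := by
          simp
      _ ≤ ∑ p ∈ NN.filter fun p => 1 ≤ A * κ p, A * κ p := sum_le_sum fun p hp => (mem_filter.1 hp).2
      _ ≤ ∑ p ∈ G2, A * κ p := by
          refine sum_le_sum_of_subset_of_nonneg (fun p hp => mem_filter.2 ⟨(mem_filter.1 hp).1, ?_⟩)
            fun p _ _ => mul_nonneg hA0.le (h0 p)
          exact (mem_filter.1 hp).2.trans (mul_le_mul_of_nonneg_right hq3 (h0 p))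
      _ ≤ _ := by rw [← mul_sum]; nlinarith
  · calc _ ≤ ∑ p ∈ NN \ NN.filter fun p => 1 ≤ A * κ p,
          ((if 1 ≤ q ^ 3 * κ p then A⁻¹ * κ p else 0) + (q ^ 3)⁻¹ * κ p) := by
          refine sum_le_sum fun p hp => ?_
          have h3 := h0 p
          have h4 : A * κ p ≤ 1 := by
            rw [mem_sdiff, mem_filter] at hp
            exact le_of_not_ge fun h => hp.2 ⟨hp.1, h⟩
          split_ifs with h5
          · have : κ p ≤ A⁻¹ := by rwa [← one_div, le_div_iff₀' hA0]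
            have : 0 ≤ (q ^ 3)⁻¹ * κ p := by positivity
            nlinarith
          · have : κ p ≤ (q ^ 3)⁻¹ := by
              rw [← one_div, le_div_iff₀' (by positivity)]; exact le_of_not_ge h5
            nlinarith
      _ ≤ ∑ p ∈ NN, ((if 1 ≤ q ^ 3 * κ p then A⁻¹ * κ p else 0) + (q ^ 3)⁻¹ * κ p) := by
          refine sum_le_sum_of_subset_of_nonneg sdiff_subset fun p _ _ => ?_
          have h3 := h0 p
          split_ifs <;> positivity
      _ ≤ A⁻¹ * (2 * n) + (q ^ 3)⁻¹ * (n * q ^ 2) := by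
          rw [sum_add_distrib, ← sum_filter, ← mul_sum, ← mul_sum]
          gcongr
      _ = 2 * n / A + n / q := by field_simp
      _ ≤ 2 * n / A + n / A := by gcongr
      _ = _ := by ring

variable [Fintype F] {e : ℕ}

lemma cnt2 {A B : (Fin e → F) × F × F} (h : LinearIndependent F ![A, B]) :
    (∑ x, ind (K x A ∧ K x B)) * (Fintype.card F : ℝ) ≤ (Fintype.card F : ℝ) ^ e := by
  have := cntB _ h
  simp only [Fin.forall_fin_succ, Matrix.cons_val_zero, Matrix.cons_val_succ, IsEmpty.forall_iff,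
    and_true] at this
  have hq : (0 : ℝ) < Fintype.card F := by exact_mod_cast Fintype.card_pos
  rw [pow_succ, pow_succ, pow_succ, pow_zero, one_mul, ← mul_assoc] at this
  exact le_of_mul_le_mul_right this hq

/-- The number of forms that kill two lines. -/
lemma cnt4 [DecidableEq F] {NN G : Finset ((Fin e → F) × F × F)} (hNN : IsNN F NN)
    {A A' B B' : (Fin e → F) × F × F} (hA : LinearIndependent F ![A, A'])
    (hB : LinearIndependent F ![B, B']) (hG : ∀ p ∈ G, ¬ On F p A A') :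
    ∑ x, ind (K x A ∧ K x A') * ind (K x B ∧ K x B') ≤ (Fintype.card F : ℝ) ^ (e + 1) *
      (ind (On F B A A') + ((Fintype.card F : ℝ) ^ 3)⁻¹ *
        ∑ p ∈ NN \ G, ind (On F p A A') * ind (On F p B B') + ((Fintype.card F : ℝ) ^ 4)⁻¹) := by
  set q : ℝ := (Fintype.card F : ℝ) with hq
  have hq0 : 0 < q := by rw [hq]; exact_mod_cast Fintype.card_pos
  have hs : 0 ≤ ∑ p ∈ NN \ G, ind (On F p A A') * ind (On F p B B') :=
    sum_nonneg fun _ _ => mul_nonneg ind_nonneg ind_nonneg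
  have hi := ind_nonneg (P := On F B A A')
  simp only [← ind_and]
  by_cases h1 : On F B A A'
  · refine (sum_le_card_nsmul _ _ 1 fun _ _ => ind_le_one).trans ?_
    rw [ind_pos h1, nsmul_eq_mul, card_univ, Fintype.card_prod, Fintype.card_fun, Fintype.card_fin]
    push_cast
    rw [← hq, ← pow_succ]
    gcongr
    have : 0 ≤ (q ^ 3)⁻¹ * ∑ p ∈ NN \ G, ind (On F p A A' ∧ On F p B B') := by
      simp only [ind_and]; positivity
    have : 0 ≤ (q ^ 4)⁻¹ := by positivity
    linarith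
  have i3 : LinearIndependent F ![B, A, A'] := hA.finCons fun h => by
    obtain ⟨c, hc⟩ := (Submodule.mem_span_range_iff_exists_fun F).1 h
    exact h1 ⟨c 0, c 1, by simpa using hc.symm⟩
  simp only [ind_and (P := On F _ A A')]
  by_cases h2 : B' ∈ Submodule.span F (Set.range ![B, A, A'])
  · obtain ⟨c, hc⟩ := (Submodule.mem_span_range_iff_exists_fun F).1 h2
    simp only [Fin.sum_univ_three, Matrix.cons_val_zero, Matrix.cons_val_one, Matrix.cons_val_two,
      Matrix.head_cons, Matrix.tail_cons] at hc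
    have hv : (-c 0) • B + (1 : F) • B' ≠ 0 := fun h =>
      one_ne_zero (LinearIndependent.pair_iff.1 hB _ _ h).2
    obtain ⟨p, hp, d, hd⟩ := hNN.cover _ hv
    have o1 : On F p A A' := ⟨d * c 1, d * c 2, by rw [hd, ← hc]; module⟩
    have o2 : On F p B B' := ⟨d * -c 0, d, by rw [hd]; module⟩
    have h3 : 1 ≤ ∑ p ∈ NN \ G, ind (On F p A A') * ind (On F p B B') := by
      have := single_le_sum (f := fun p => ind (On F p A A') * ind (On F p B B'))
        (fun _ _ => mul_nonneg ind_nonneg ind_nonneg) (mem_sdiff.2 ⟨hp, fun h => hG p h o1⟩)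
      simpa only [ind_pos o1, ind_pos o2, mul_one] using this
    have h4 := cntB _ i3
    simp only [Fin.forall_fin_succ, Matrix.cons_val_zero, Matrix.cons_val_succ, IsEmpty.forall_iff,
      and_true] at h4
    calc _ ≤ ∑ x, ind (K x B ∧ K x A ∧ K x A') := sum_le_sum fun x _ => ind_mono (by tauto)
      _ ≤ q ^ (e + 1) * ((q ^ 3)⁻¹ * 1) := by
          rw [mul_one, ← div_eq_mul_inv, le_div_iff₀ (by positivity)]; exact h4
      _ ≤ _ := by
          have : (q ^ 3)⁻¹ * 1 ≤ (q ^ 3)⁻¹ *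
              ∑ p ∈ NN \ G, ind (On F p A A') * ind (On F p B B') := by gcongr
          have : 0 ≤ (q ^ 4)⁻¹ := by positivity
          gcongr
          linarith
  · have h4 := cntB ![B', B, A, A'] (i3.finCons h2)
    simp only [Fin.forall_fin_succ, Matrix.cons_val_zero, Matrix.cons_val_succ, IsEmpty.forall_iff,
      and_true] at h4
    calc _ ≤ ∑ x, ind (K x B' ∧ K x B ∧ K x A ∧ K x A') :=
          sum_le_sum fun x _ => ind_mono (by tauto)
      _ ≤ q ^ (e + 1) * (q ^ 4)⁻¹ := by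
          rw [← div_eq_mul_inv, le_div_iff₀ (by positivity)]; exact h4
      _ ≤ _ := by
          have : 0 ≤ (q ^ 3)⁻¹ * ∑ p ∈ NN \ G, ind (On F p A A') * ind (On F p B B') := by
            positivity
          gcongr
          linarith

/-- Second moment of the weight of killed lines without popular points. -/
lemma second [DecidableEq F] {NN G : Finset ((Fin e → F) × F × F)} (hNN : IsNN F NN) {Z : Type}
    [Fintype Z] (μ : Z → ℝ) (h0 : ∀ z, 0 ≤ μ z) (A B : Z → (Fin e → F) × F × F)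
    (hi : ∀ z, μ z ≠ 0 → LinearIndependent F ![A z, B z]) {n η : ℝ} (hn : ∑ z, μ z ≤ n)
    (hη : ∀ p p', mass μ (fun z => On F (A z) p p') ≤ η) :
    ∑ x, mass μ (fun z => (∀ p ∈ G, ¬ On F p (A z) (B z)) ∧ K x (A z) ∧ K x (B z)) ^ 2 ≤
      (Fintype.card F : ℝ) ^ (e + 1) * (n * η + ((Fintype.card F : ℝ) ^ 3)⁻¹ *
        ∑ p ∈ NN \ G, mass μ (fun z => On F p (A z) (B z)) ^ 2 +
          ((Fintype.card F : ℝ) ^ 4)⁻¹ * n ^ 2) := by
  set q : ℝ := (Fintype.card F : ℝ) with hq
  have hq0 : 0 < q := by rw [hq]; exact_mod_cast Fintype.card_pos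
  have hs : 0 ≤ ∑ z, μ z := sum_nonneg fun z _ => h0 z
  simp only [mass_eq, sq, sum_mul_sum] at hη ⊢
  rw [sum_comm]
  calc _ ≤ ∑ z, ∑ z', μ z * μ z' * (q ^ (e + 1) * (ind (On F (A z') (A z) (B z)) + (q ^ 3)⁻¹ *
        ∑ p ∈ NN \ G, ind (On F p (A z) (B z)) * ind (On F p (A z') (B z')) + (q ^ 4)⁻¹)) := by
        refine sum_le_sum fun z _ => ?_
        rw [sum_comm]
        refine sum_le_sum fun z' _ => ?_
        by_cases hz : μ z = 0
        · simp [hz]
        by_cases hz' : μ z' = 0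
        · simp [hz']
        have hm := mul_nonneg (h0 z) (h0 z')
        by_cases hG : ∀ p ∈ G, ¬ On F p (A z) (B z)
        · refine le_trans ?_ (mul_le_mul_of_nonneg_left (cnt4 hNN (hi z hz) (hi z' hz') hG) hm)
          rw [mul_sum]
          refine sum_le_sum fun x _ => ?_
          rw [mul_mul_mul_comm]
          exact mul_le_mul_of_nonneg_left (mul_le_mul (ind_mono And.right) (ind_mono And.right)
            ind_nonneg ind_nonneg) hm
        · rw [sum_eq_zero fun x _ => by rw [ind_neg fun h => hG h.1, mul_zero, zero_mul]]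
          have := ind_nonneg (P := On F (A z') (A z) (B z))
          have : 0 ≤ ∑ p ∈ NN \ G, ind (On F p (A z) (B z)) * ind (On F p (A z') (B z')) :=
            sum_nonneg fun _ _ => mul_nonneg ind_nonneg ind_nonneg
          positivity
    _ = q ^ (e + 1) * (∑ z, μ z * ∑ z', μ z' * ind (On F (A z') (A z) (B z)) + (q ^ 3)⁻¹ *
        ∑ p ∈ NN \ G, ∑ z, ∑ z', μ z * ind (On F p (A z) (B z)) *
          (μ z' * ind (On F p (A z') (B z'))) + (q ^ 4)⁻¹ * ((∑ z, μ z) * ∑ z, μ z)) := by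
        rw [sum_mul_sum, sum_comm (s := NN \ G)]
        simp only [mul_sum, ← sum_add_distrib, mul_add]
        refine sum_congr rfl fun z _ => ?_
        rw [sum_comm (s := NN \ G)]
        simp only [← sum_add_distrib]
        refine sum_congr rfl fun z' _ => ?_
        congr 1
        · congr 1
          · ring
          · exact sum_congr rfl fun p _ => by ring
        · ring
    _ ≤ _ := by
        have h1 : ∑ z, μ z * ∑ z', μ z' * ind (On F (A z') (A z) (B z)) ≤ n * η := by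
          have h2 : 0 ≤ η := le_trans (sum_nonneg fun z _ => mul_nonneg (h0 z) ind_nonneg) (hη 0 0)
          calc _ ≤ ∑ z, μ z * η := sum_le_sum fun z _ => mul_le_mul_of_nonneg_left (hη _ _) (h0 z)
            _ ≤ _ := by rw [← sum_mul]; gcongr
        have h3 := hs.trans hn
        gcongr

end Pool.Agent.Lib.MP_5ab464_nt.Kill
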