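import Pool.Agent.Lib.MP_5ab464_nt.H84Defs

/-! Counting cheap words, and many marks in general position through any point. TASK RICH. -/

open Finset

namespace Pool.Agent.Lib.MP_5ab464_nt

variable {ι : Type} [Fintype ι] [DecidableEq ι] {k W : ℕ}

namespace Rich

omit [Fintype ι] [DecidableEq ι] in
lemma exists_first {n : ℕ} (ρ : ℕ) (ω : Word ι k W n) (j : Fin n) :
    ∃ t : Fin n, (t : ℕ) / ρ = (j : ℕ) / ρ ∧ (ω t).1.1 = (ω j).1.1 ∧ Fresh ρ ω t := by
  induction j using WellFoundedLT.induction with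
  | ind j ih =>
    by_cases h : Fresh ρ ω j
    · exact ⟨j, rfl, rfl, h⟩
    · unfold Fresh at h
      push Not at h
      obtain ⟨t, h1, h2, h3⟩ := h
      obtain ⟨t', h4, h5, h6⟩ := ih t h1
      exact ⟨t', h4.trans h2, h5.trans h3, h6⟩

omit [Fintype ι] [DecidableEq ι] in
lemma le_cost {ρ N : ℕ} (hρ : 1 ≤ ρ) (ω : Word ι k W (N * ρ)) : N ≤ cost ρ ω 0 := by
  classical
  have hb : ∀ b : Fin N, (b : ℕ) * ρ < N * ρ := fun b => Nat.mul_lt_mul_of_pos_right b.2 hρ
  unfold cost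
  refine (card_fin N).symm.le.trans (card_le_card_of_injOn
    (fun b : Fin N => (⟨b * ρ, hb b⟩ : Fin (N * ρ))) (fun b _ => ?_) fun b _ b' _ h => ?_)
  · simp only [coe_filter, mem_univ, true_and, Set.mem_ofPred_eq, zero_mul, zero_le]
    intro t h1 h2
    exfalso
    have h3 : (t : ℕ) < b * ρ := h1
    simp only [Nat.mul_div_cancel _ hρ] at h2
    have := Nat.div_mul_le_self t ρ
    rw [h2] at this
    omega
  · exact Fin.ext (Nat.eq_of_mul_eq_mul_right hρ (congrArg Fin.val h))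

lemma sum_abs_stp (σ : ι × Bool) : ∑ a, |stp σ a| = 1 := by
  rw [sum_eq_single σ.1 (fun a _ ha => by simp [stp, ha]) (by simp)]
  cases h : σ.2 <;> simp [stp, h]

lemma sum_abs_sum_le {n : ℕ} (ω : Word ι k W n) (S : Finset (Fin n)) :
    ∑ a, |(∑ t ∈ S, stp (ω t).1) a| ≤ n := by
  calc ∑ a, |(∑ t ∈ S, stp (ω t).1) a| ≤ ∑ a, ∑ t ∈ S, |stp (ω t).1 a| :=
        sum_le_sum fun a _ => by rw [Finset.sum_apply]; exact abs_sum_le_sum_abs _ _
    _ = S.card := by rw [sum_comm]; simp [sum_abs_stp]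
    _ ≤ n := by exact_mod_cast (card_le_univ S).trans (Fintype.card_fin n).le

omit [Fintype ι] in
lemma pos_sub {n : ℕ} (ω : Word ι k W n) {j j' : Fin n} (h : j' ≤ j) :
    pos ω j - pos ω j' = ∑ t ∈ univ.filter (fun t => j' < t ∧ t ≤ j), stp (ω t).1 := by
  rw [sub_eq_iff_eq_add, pos, pos, ← sum_union]
  · congr 1
    ext t
    simp only [mem_filter, mem_univ, true_and, mem_union]
    omega
  · rw [disjoint_filter]
    intro t _ h1 h2
    omega

omit [DecidableEq ι] in
lemma abs_comb_le {e : ℕ} {s : ι → Fin e → ℤ} (hs : ∀ a c, |s a c| ≤ 1) (n : ι → ℤ) (c : Fin e) :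
    |(∑ a, n a • s a) c| ≤ ∑ a, |n a| := by
  rw [Finset.sum_apply]
  refine (abs_sum_le_sum_abs _ _).trans (sum_le_sum fun a _ => ?_)
  rw [Pi.smul_apply, smul_eq_mul, abs_mul]
  exact mul_le_of_le_one_right (abs_nonneg _) (hs a c)

lemma cast_zero {q : ℕ} {x : ℤ} (h : (x : ZMod q) = 0) (hx : |x| < q) : x = 0 :=
  Int.eq_zero_of_abs_lt_dvd ((ZMod.intCast_zmod_eq_zero_iff_dvd x q).1 h) hx

omit [DecidableEq ι] in
/-- Proportional residues of short combinations come from proportional coefficients. -/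
lemma coord {e L l q : ℕ} [Fact q.Prime] {s : ι → Fin e → ℤ} (hs : ∀ a c, |s a c| ≤ 1)
    (hF : Free L s) (hL : 2 * l ^ 2 ≤ L) (hq : 2 * l ^ 2 + 2 < q) {d d' : ι → ℤ}
    (hd : ∑ a, |d a| ≤ l) (hd' : ∑ a, |d' a| ≤ l) (h0 : d ≠ 0) {lam : ZMod q}
    (h : ∀ c, (((∑ a, d a • s a) c : ℤ) : ZMod q) = lam * (((∑ a, d' a • s a) c : ℤ) : ZMod q))
    (a : ι) : (d a : ZMod q) = lam * d' a := by
  set u := ∑ a, d a • s a with hu
  set u' := ∑ a, d' a • s a with hu'
  have b1 : ∀ c, |u c| ≤ l := fun c => (abs_comb_le hs d c).trans hd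
  have b2 : ∀ c, |u' c| ≤ l := fun c => (abs_comb_le hs d' c).trans hd'
  have l0 : (0 : ℤ) ≤ l := by positivity
  have hL' : 2 * (l : ℤ) ^ 2 ≤ L := by exact_mod_cast hL
  have hq' : 2 * (l : ℤ) ^ 2 + 2 < q := by exact_mod_cast hq
  have ll : (l : ℤ) ≤ 2 * l ^ 2 := by nlinarith
  obtain ⟨c, hc⟩ : ∃ c, u c ≠ 0 := by
    by_contra h1
    push Not at h1
    exact h0 (hF d (by linarith) (funext h1))
  have minor : ∀ c', u' c * u c' - u c * u' c' = 0 := fun c' => by
    refine cast_zero (q := q) (by push_cast; rw [h c, h c']; ring) ?_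
    refine (abs_sub _ _).trans_lt ?_
    rw [abs_mul, abs_mul]
    have := mul_le_mul (b2 c) (b1 c') (abs_nonneg _) l0
    have := mul_le_mul (b1 c) (b2 c') (abs_nonneg _) l0
    nlinarith
  have h1 := hF (fun a => u' c * d a - u c * d' a) (by
    calc ∑ a, |u' c * d a - u c * d' a| ≤ ∑ a, (l * |d a| + l * |d' a|) :=
          sum_le_sum fun a _ => (abs_sub _ _).trans (by
            rw [abs_mul, abs_mul]
            exact add_le_add (mul_le_mul_of_nonneg_right (b2 c) (abs_nonneg _))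
              (mul_le_mul_of_nonneg_right (b1 c) (abs_nonneg _)))
      _ = l * ∑ a, |d a| + l * ∑ a, |d' a| := by rw [sum_add_distrib, mul_sum, mul_sum]
      _ ≤ L := by nlinarith) (by
    funext c'
    have : ∑ a, (u' c * d a - u c * d' a) • s a = u' c • u - u c • u' := by
      simp only [hu, hu', smul_sum, ← sum_sub_distrib, sub_smul, mul_smul]
    rw [this]
    exact minor c')
  have h2 : ((u' c * d a - u c * d' a : ℤ) : ZMod q) = 0 := by
    rw [show u' c * d a - u c * d' a = 0 from congrFun h1 a, Int.cast_zero]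
  have h3 : (u' c : ZMod q) ≠ 0 := fun h4 =>
    hc (cast_zero (q := q) (by rw [h c, h4, mul_zero]) (by linarith [b1 c]))
  push_cast at h2
  rw [h c] at h2
  exact mul_left_cancel₀ h3 (by linear_combination h2)

omit [Fintype ι] in
lemma fresh_coord {n ρ : ℕ} {ω : Word ι k W n} {j j' : Fin n} (h : j' < j)
    (hb : (j' : ℕ) / ρ = (j : ℕ) / ρ) (hf : Fresh ρ ω j) :
    (pos ω j - pos ω j') (ω j).1.1 ^ 2 = 1 := by
  rw [pos_sub ω h.le, Finset.sum_apply, sum_eq_single j]
  · cases h : (ω j).1.2 <;> simp [stp, h]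
  · intro t ht hne
    simp only [mem_filter, mem_univ, true_and] at ht
    have h1 : (t : ℕ) / ρ ≤ (j : ℕ) / ρ := Nat.div_le_div_right ht.2
    have h2 : (j' : ℕ) / ρ ≤ (t : ℕ) / ρ := Nat.div_le_div_right ht.1.le
    have := hf t (lt_of_le_of_ne ht.2 hne) (by omega)
    simp [stp, Ne.symm this]
  · simp [h]

lemma exists_section {α β : Type} [DecidableEq β] (S : Finset α) (σ : α → β) (c : ℕ)
    (h : ∀ y, (S.filter fun m => σ m = y).card ≤ c) :
    ∃ T ⊆ S, Set.InjOn σ T ∧ S.card ≤ c * T.card := by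
  obtain ⟨T, h1, h2, h3⟩ := exists_subset_injOn_image_eq_of_surjOn (f := σ) (S : Set α) (S.image σ)
    (by rw [coe_image]; exact Set.surjOn_image _ _)
  refine ⟨T, h1, h2, ?_⟩
  rw [← card_image_of_injOn h2, h3]
  exact card_le_mul_card_image S c fun y _ => h y

end Rich

open Rich

open Classical in
theorem card_cost_le {ρ N E D : ℕ} (hρ : 1 ≤ ρ) (hD : Fintype.card ι ≤ D) (hD1 : 1 ≤ D)
    (hW : 1 ≤ W) (hD2 : (4 * ρ * W ^ k) ^ ρ ≤ D) :
    (univ.filter fun ω : Word ι k W (N * ρ) => cost ρ ω 0 ≤ E).card ≤ D ^ (2 * E) := by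
  by_cases hN : E < N
  · rw [filter_eq_empty_iff.2 fun ω _ h => by have := le_cost hρ ω; omega]
    simp
  choose fst h1 h2 h3 using fun (ω : Word ι k W (N * ρ)) j => exists_first ρ ω j
  let π : Word ι k W (N * ρ) → Fin (N * ρ) → Fin ρ × Bool × (Fin k → Fin W) :=
    fun ω j => (⟨fst ω j % ρ, Nat.mod_lt _ hρ⟩, (ω j).1.2, (ω j).2)
  have hπ : ∀ ω ω', π ω = π ω' → ∀ j, fst ω j = fst ω' j := fun ω ω' h j => by
    have a : (fst ω j : ℕ) % ρ = fst ω' j % ρ := congrArg (fun z => (z.1 : ℕ)) (congrFun h j)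
    refine Fin.ext ?_
    rw [← Nat.div_add_mod (fst ω j) ρ, ← Nat.div_add_mod (fst ω' j) ρ, a, h1, h1]
  refine (card_le_mul_card_image (f := π) _ (D ^ E) fun y hy => ?_).trans ?_
  · obtain ⟨ω0, hω0, rfl⟩ := mem_image.1 hy
    let Φ := univ.filter fun j : Fin (N * ρ) => 0 * ρ ≤ j ∧ Fresh ρ ω0 j
    have hΦ : Φ.card ≤ E := (mem_filter.1 hω0).2
    refine (card_le_card_of_injOn (t := (univ : Finset (Φ → ι))) (fun ω j => (ω j).1.1)
      (fun _ _ => mem_coe.2 (mem_univ _)) fun ω hω ω' hω' h => ?_).trans ?_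
    · have e := (mem_filter.1 (mem_coe.1 hω)).2
      have e' := (mem_filter.1 (mem_coe.1 hω')).2
      funext j
      have e1 := congrFun (e.trans e'.symm) j
      simp only [π, Prod.mk.injEq] at e1
      refine Prod.ext (Prod.ext ?_ e1.2.1) e1.2.2
      rw [← h2 ω j, ← h2 ω' j, hπ _ _ e, hπ _ _ e']
      exact congrFun h ⟨fst ω0 j, mem_filter.2 ⟨mem_univ _, by simp, h3 _ _⟩⟩
    · rw [card_univ, Fintype.card_fun, Fintype.card_coe]
      exact (Nat.pow_le_pow_left hD _).trans (Nat.pow_le_pow_right hD1 hΦ)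
  · rw [two_mul, pow_add]
    refine Nat.mul_le_mul_left _ ((card_le_univ _).trans ?_)
    simp only [Fintype.card_fun, Fintype.card_prod, Fintype.card_fin, Fintype.card_bool]
    calc (ρ * (2 * W ^ k)) ^ (N * ρ) ≤ (4 * ρ * W ^ k) ^ (N * ρ) :=
          Nat.pow_le_pow_left (by nlinarith [Nat.zero_le (ρ * W ^ k)]) _
      _ = ((4 * ρ * W ^ k) ^ ρ) ^ N := by rw [← pow_mul, mul_comm ρ N]
      _ ≤ D ^ N := Nat.pow_le_pow_left hD2 _
      _ ≤ D ^ E := Nat.pow_le_pow_right hD1 (by omega)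

theorem sum_abs_pos_sub_le {n : ℕ} (ω : Word ι k W n) (j j' : Fin n) :
    ∑ a, |pos ω j a - pos ω j' a| ≤ n := by
  rcases le_total j' j with h | h
  · have := sum_abs_sum_le ω (univ.filter fun t => j' < t ∧ t ≤ j)
    rwa [← pos_sub ω h] at this
  · have := sum_abs_sum_le ω (univ.filter fun t => j < t ∧ t ≤ j')
    rw [← pos_sub ω h] at this
    simpa only [abs_sub_comm (pos ω j _), Pi.sub_apply] using this

theorem sum_abs_pos_le {n : ℕ} (ω : Word ι k W n) (j : Fin n) : ∑ a, |pos ω j a| ≤ n :=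
  sum_abs_sum_le ω _

/-- Short combinations are determined by their residues. -/
theorem eq_of_cast_eq {e L l q : ℕ} {s : ι → Fin e → ℤ} (hs : ∀ a c, |s a c| ≤ 1) (hF : Free L s)
    (hL : l ≤ L) (hq : l < q) {n n' : ι → ℤ} (hn : ∑ a, |n a - n' a| ≤ l)
    (h : ∀ c, (((∑ a, n a • s a) c : ℤ) : ZMod q) = (((∑ a, n' a • s a) c : ℤ) : ZMod q)) :
    n = n' := by
  refine sub_eq_zero.1 (hF (n - n') (hn.trans (by exact_mod_cast hL)) (funext fun c => ?_))
  refine cast_zero (q := q) ?_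
    (((abs_comb_le hs _ c).trans hn).trans_lt (by exact_mod_cast hq))
  have : ∑ a, (n - n') a • s a = ∑ a, n a • s a - ∑ a, n' a • s a := by
    simp only [Pi.sub_apply, sub_smul, sum_sub_distrib]
  rw [this, Pi.sub_apply, Int.cast_sub, h c, sub_self]

theorem rich {e L l q ρ N i E : ℕ} [Fact q.Prime] {s : ι → Fin e → ℤ} (hs : ∀ a c, |s a c| ≤ 1)
    (hF : Free L s) (hL : 2 * l ^ 2 ≤ L) (hq : 2 * l ^ 2 + 2 < q) (hWq : W ≤ q)
    (hρ : 2 * W ^ 3 ≤ ρ) (hW : 1 ≤ W) (hl : N * ρ ≤ l) (hE : 16 ≤ E) {ω : Word ι k W (N * ρ)}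
    (hω : Adm ρ i E ω) (g : Fin e → ZMod q) (a : ZMod q) :
    ∃ T : Finset ({j : Fin (N * ρ) // i * ρ ≤ j} × Fin k), (k - 1) * E / 32 ≤ T.card ∧
      ∀ m ∈ T, ∀ m' ∈ T, m ≠ m' → ∀ c : ZMod q,
        ¬ (c • (fun x => (((∑ a, pos ω m.1 a • s a) x : ℤ) : ZMod q)) +
            (1 - c) • (fun x => (((∑ a, pos ω m'.1 a • s a) x : ℤ) : ZMod q)) = g ∧
          c * (((ω m.1).2 m.2 : ℕ) : ZMod q) + (1 - c) * (((ω m'.1).2 m'.2 : ℕ) : ZMod q) = a) := by
  classical
  obtain ⟨hp, ho, -, hν⟩ := hω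
  let J := {j : Fin (N * ρ) // i * ρ ≤ j}
  let f : J → Fin e → ZMod q := fun j x => (((∑ a, pos ω j a • s a) x : ℤ) : ZMod q)
  let u : J × Fin k → ZMod q := fun m => (((ω m.1).2 m.2 : ℕ) : ZMod q) - a
  let σ : J × Fin k → Fin e → ZMod q := fun m => (u m)⁻¹ • (f m.1 - g)
  let M : Finset J → Finset (J × Fin k) := fun S => (S ×ˢ univ).filter fun m => u m ≠ 0
  have ρ0 : 1 ≤ ρ := le_trans (by have := Nat.one_le_pow 3 W hW; omega) hρ
  have ll : l ≤ 2 * l ^ 2 := by nlinarith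
  have hd : ∀ j j' : J, ∑ a, |pos ω j a - pos ω j' a| ≤ (l : ℤ) := fun j j' =>
    (sum_abs_pos_sub_le ω j j').trans (by exact_mod_cast hl)
  have finj : ∀ j j', f j = f j' → j = j' := fun j j' h =>
    Subtype.ext (hp (eq_of_cast_eq hs hF (ll.trans hL) (by omega) (hd j j') (congrFun h)))
  have cinj : ∀ x y : Fin W, ((x : ℕ) : ZMod q) = ((y : ℕ) : ZMod q) → x = y := fun x y h =>
    Fin.ext (Nat.ModEq.eq_of_lt_of_lt ((ZMod.natCast_eq_natCast_iff _ _ _).1 h)
      (x.2.trans_le hWq) (y.2.trans_le hWq))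
  have uinj : ∀ j x y, u (j, x) = u (j, y) → x = y := fun j x y h =>
    ho j (cinj _ _ (sub_left_injective h))
  have same : ∀ m m', u m ≠ 0 → σ m = σ m' → u m = u m' → m = m' := by
    rintro ⟨j, x⟩ ⟨j', x'⟩ h0 h1 h2
    simp only [σ, ← h2] at h1
    obtain rfl := finj _ _ (sub_left_injective (smul_right_injective _ (inv_ne_zero h0) h1))
    rw [uinj _ _ _ h2]
  have prop : ∀ m m', u m ≠ 0 → σ m = σ m' → f m.1 - g = (u m / u m') • (f m'.1 - g) :=
    fun m m' h0 h1 => by
      rw [div_eq_mul_inv, mul_smul]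
      exact (inv_smul_eq_iff₀ h0).1 h1
  have cardM : ∀ S, (k - 1) * S.card ≤ (M S).card := fun S => by
    rw [card_eq_sum_card_fiberwise (f := Prod.fst) (s := M S) (t := S)
      fun m hm => (mem_product.1 (mem_filter.1 hm).1).1, mul_comm]
    refine card_nsmul_le_sum _ _ _ fun j hj => ?_
    have h1 : (univ.filter fun x : Fin k => u (j, x) = 0).card ≤ 1 :=
      card_le_one.2 fun x hx y hy =>
        uinj j x y ((mem_filter.1 hx).2.trans (mem_filter.1 hy).2.symm)
    have h2 := card_filter_add_card_filter_not (s := (univ : Finset (Fin k)))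
      fun x => u (j, x) = 0
    rw [card_fin] at h2
    refine le_trans (by omega : k - 1 ≤ (univ.filter fun x : Fin k => ¬ u (j, x) = 0).card)
      (card_le_card_of_injOn (fun x => (j, x)) (fun x hx => ?_) fun x _ y _ h => congrArg Prod.snd h)
    simpa [M, hj] using hx
  suffices H : ∃ S c, (∀ y, ((M S).filter fun m => σ m = y).card ≤ c) ∧ 0 < c ∧
      c * E ≤ 32 * S.card by
    obtain ⟨S, c, h1, c0, h2⟩ := H
    obtain ⟨T, hT, hi, hc⟩ := exists_section (M S) σ c h1
    refine ⟨T, Nat.div_le_of_le_mul (Nat.le_of_mul_le_mul_left ?_ c0), ?_⟩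
    · have := cardM S
      calc c * ((k - 1) * E) = (k - 1) * (c * E) := by ring
        _ ≤ (k - 1) * (32 * S.card) := Nat.mul_le_mul_left _ h2
        _ = 32 * ((k - 1) * S.card) := by ring
        _ ≤ 32 * (c * T.card) := Nat.mul_le_mul_left _ (this.trans hc)
        _ = c * (32 * T.card) := by ring
    · rintro m hm m' hm' hne c ⟨e1, e2⟩
      have u1 : u m ≠ 0 := (mem_filter.1 (hT hm)).2
      have u2 : u m' ≠ 0 := (mem_filter.1 (hT hm')).2
      have e3 : c * u m + (1 - c) * u m' = 0 := by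
        simp only [u]
        linear_combination e2
      have c0 : c ≠ 0 := by
        rintro rfl
        simp [u2] at e3
      refine hne (hi hm hm' (funext fun x => ?_))
      have e4 : c * f m.1 x + (1 - c) * f m'.1 x = g x := congrFun e1 x
      simp only [σ, Pi.smul_apply, Pi.sub_apply, smul_eq_mul]
      field_simp
      refine mul_left_cancel₀ c0 ?_
      linear_combination u m' * e4 - (f m'.1 x - g x) * e3
  by_cases hc : cost ρ ω i < 2 * W ^ 2 * (N - i)
  · refine ⟨univ, W, fun y => ?_, hW, ?_⟩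
    · refine (card_le_card_of_injOn (t := (univ : Finset (Fin W))) (fun m => (ω m.1).2 m.2)
        (fun _ _ => mem_coe.2 (mem_univ _)) fun m hm m' hm' h => ?_).trans (card_fin W).le
      have h1 := mem_filter.1 (mem_coe.1 hm)
      have h2 := mem_filter.1 (mem_coe.1 hm')
      exact same m m' (mem_filter.1 h1.1).2 (h1.2.trans h2.2.symm) (by simp only [u]; rw [show (ω m.1).2 m.2 = _ from h])
    · have h1 : (N - i) * ρ ≤ (univ : Finset J).card := by
        have hb : ∀ t : Fin ((N - i) * ρ), i * ρ + t < N * ρ := fun t => by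
          have h2 := t.2.trans_eq (Nat.sub_mul N i ρ)
          omega
        exact (card_fin _).symm.le.trans (card_le_card_of_injOn
          (fun t => (⟨⟨i * ρ + t, hb t⟩, Nat.le_add_right _ _⟩ : J))
          (fun _ _ => mem_coe.2 (mem_univ _)) fun t _ t' _ h =>
            Fin.ext (Nat.add_left_cancel (congrArg (fun z : J => (z.1 : ℕ)) h)))
      calc W * E ≤ W * (4 * (2 * W ^ 2 * (N - i))) := Nat.mul_le_mul_left _ (by omega)
        _ = 4 * ((N - i) * (2 * W ^ 3)) := by ring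
        _ ≤ 4 * ((N - i) * ρ) := by gcongr
        _ ≤ _ := by omega
  let Φ : Finset J := univ.filter fun j => Fresh ρ ω j
  have hΦ : cost ρ ω i ≤ Φ.card := by
    unfold cost
    refine card_le_card_of_surjOn Subtype.val fun j hj => ?_
    have := (mem_filter.1 (mem_coe.1 hj)).2
    exact ⟨⟨j, this.1⟩, by simpa [Φ] using this.2, rfl⟩
  let Bad : J → Prop := fun j => ∃ x m', u (j, x) ≠ 0 ∧ σ (j, x) = σ m' ∧
    ∀ μ : ℤ, |μ| ≤ l → u (j, x) / u m' * μ ≠ 1
  have hB : (Φ.filter Bad).card ≤ W ^ 2 * (N - i) := by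
    have ch : ∀ j : Φ.filter Bad, ∃ x m', u (j, x) ≠ 0 ∧ σ (j, x) = σ m' ∧
      ∀ μ : ℤ, |μ| ≤ l → u (j, x) / u m' * μ ≠ 1 := fun j => (mem_filter.1 j.2).2
    choose x m' h0 h1 h2 using ch
    let code : Φ.filter Bad → ℕ × Fin W × Fin W :=
      fun j => ((j.1.1 : ℕ) / ρ, (ω j.1).2 (x j), (ω (m' j).1).2 (m' j).2)
    have key : ∀ j j', code j = code j' → ¬ j'.1.1 < j.1.1 := by
      intro j j' h hlt
      simp only [code, Prod.mk.injEq] at h
      have fr : Fresh ρ ω j.1 := (mem_filter.1 (mem_filter.1 j.2).1).2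
      have sq := fresh_coord hlt h.1.symm fr
      have e1 : u (j', x j') / u (m' j') = u (j, x j) / u (m' j) := by simp only [u, h.2.1, h.2.2]
      have p1 := prop _ _ (h0 j) (h1 j)
      have p2 := prop _ _ (h0 j') (h1 j')
      rw [e1] at p2
      have c1 := coord hs hF hL hq (d := pos ω j.1 - pos ω j'.1)
        (d' := pos ω (m' j).1 - pos ω (m' j').1) (hd _ _) (hd _ _)
        (fun z => by rw [z] at sq; simp at sq) (lam := u (j, x j) / u (m' j)) (fun c => by
          have q1 := congrFun p1 c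
          have q2 := congrFun p2 c
          simp only [f, Pi.sub_apply, Pi.smul_apply, smul_eq_mul] at q1 q2
          simp only [Pi.sub_apply, sub_smul, sum_sub_distrib, Int.cast_sub]
          linear_combination q1 - q2) (ω j.1).1.1
      set d := (pos ω j.1 - pos ω j'.1) (ω j.1).1.1
      set d' := (pos ω (m' j).1 - pos ω (m' j').1) (ω j.1).1.1 with hd'
      refine h2 j (d * d') ?_ ?_
      · have ab : |d| = 1 := by rcases sq_eq_one_iff.1 sq with h | h <;> simp [h]
        rw [abs_mul, ab, one_mul]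
        exact (single_le_sum (f := fun a => |pos ω (m' j).1 a - pos ω (m' j').1 a|)
          (fun _ _ => abs_nonneg _) (mem_univ _)).trans (hd _ _)
      · have : (d : ZMod q) ^ 2 = 1 := by exact_mod_cast congrArg (Int.cast : ℤ → ZMod q) sq
        push_cast
        linear_combination this - d * c1
    rw [← Fintype.card_coe, ← card_univ]
    refine (card_le_card_of_injOn (t := Ico i N ×ˢ univ) code (fun j _ => ?_)
      fun j _ j' _ h => ?_).trans (by simp [pow_two, mul_comm])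
    · simp only [code, coe_product, coe_Ico, coe_univ, Set.mem_prod, Set.mem_Ico, Set.mem_univ,
        and_true]
      exact ⟨(Nat.le_div_iff_mul_le ρ0).2 j.1.2, (Nat.div_lt_iff_lt_mul ρ0).2 j.1.1.2⟩
    · exact Subtype.ext (Subtype.ext (le_antisymm (not_lt.1 (key j j' h))
        (not_lt.1 (key j' j h.symm))))
  let S := (Φ.filter fun j => ¬ Bad j).filter fun j => ¬ f j = g
  have hS : E ≤ 16 * S.card := by
    have h1 := card_filter_add_card_filter_not (s := Φ) Bad
    have h2 := card_filter_add_card_filter_not (s := Φ.filter fun j => ¬ Bad j) fun j => f j = g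
    have h3 : ((Φ.filter fun j => ¬ Bad j).filter fun j => f j = g).card ≤ 1 :=
      card_le_one.2 fun x hx y hy =>
        finj x y ((mem_filter.1 hx).2.trans (mem_filter.1 hy).2.symm)
    have h4 : S.card = ((Φ.filter fun j => ¬ Bad j).filter fun j => ¬ f j = g).card := rfl
    rw [mul_assoc] at hc
    omega
  have opp : ∀ m ∈ M S, ∀ m' ∈ M S, σ m = σ m' → m ≠ m' → u m = -u m' := by
    intro m hm m' hm' h hne
    obtain ⟨a1, u1⟩ := mem_filter.1 hm
    obtain ⟨a2, u2⟩ := mem_filter.1 hm'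
    have b1 := (mem_filter.1 (mem_filter.1 (mem_product.1 a1).1).1).2
    have b2 := (mem_filter.1 (mem_filter.1 (mem_product.1 a2).1).1).2
    simp only [Bad, not_exists, not_and, not_forall, not_not] at b1 b2
    obtain ⟨μ, m1, m2⟩ := b1 m.2 m' u1 h
    obtain ⟨μ', m3, m4⟩ := b2 m'.2 m u2 h.symm
    change u m / u m' * μ = 1 at m2
    change u m' / u m * μ' = 1 at m4
    have c1 : μ * μ' - 1 = 0 := by
      refine cast_zero (q := q) ?_ ?_
      · push_cast
        field_simp at m2 m4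
        refine mul_left_cancel₀ u1 ?_
        linear_combination μ' * m2 + m4
      · have : (2 * l ^ 2 + 2 : ℤ) < q := by exact_mod_cast hq
        have := abs_sub (μ * μ') 1
        have := mul_le_mul m1 m3 (abs_nonneg _) (by positivity)
        rw [abs_mul, abs_one] at *
        nlinarith
    field_simp at m2
    rcases Int.eq_one_or_neg_one_of_mul_eq_one (sub_eq_zero.1 c1) with rfl | rfl
    · exact absurd (same m m' u1 h (by simpa using m2)) hne
    · rw [← m2]
      simp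
  refine ⟨S, 2, fun y => ?_, two_pos, by omega⟩
  by_contra h
  obtain ⟨m1, h1, m2, h2, m3, h3, n12, n13, n23⟩ := two_lt_card.1 (not_le.1 h)
  rw [mem_filter] at h1 h2 h3
  have e1 := opp _ h1.1 _ h2.1 (h1.2.trans h2.2.symm) n12
  have e2 := opp _ h1.1 _ h3.1 (h1.2.trans h3.2.symm) n13
  exact n23 (same _ _ (mem_filter.1 h2.1).2 (h2.2.trans h3.2.symm) (neg_injective (e1.symm.trans e2)))

end Pool.Agent.Lib.MP_5ab464_nt
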