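import Pool.Agent.Lib.MP_5ab464_nt.H84Kill
import Pool.Agent.Lib.MP_5ab464_nt.H84Rich
import Pool.Agent.Lib.MP_5ab464_nt.H84Game

/-! For suitable linear forms no spread family of words survives the sieve. -/

open Finset

namespace Pool.Agent.Lib.MP_5ab464_nt

namespace NoSp

theorem mass_lin {Ω : Type} [Fintype Ω] (π π' : Ω → ℝ) (a b : ℝ) (P : Ω → Prop) :
    mass (a • π + b • π') P = a * mass π P + b * mass π' P := by
  classical
  simp only [mass, mul_sum, ← sum_add_distrib]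
  refine sum_congr rfl fun ω _ => ?_
  split_ifs <;> simp

theorem continuous_mass {Ω : Type} [Fintype Ω] (P : Ω → Prop) :
    Continuous fun π : Ω → ℝ => mass π P := by
  classical
  refine continuous_finsetSum _ fun ω _ => ?_
  split_ifs
  · exact continuous_apply ω
  · exact continuous_const

theorem mass_mono {Ω : Type} [Fintype Ω] {π : Ω → ℝ} (h0 : ∀ ω, 0 ≤ π ω) {P Q : Ω → Prop}
    (h : ∀ ω, P ω → Q ω) : mass π P ≤ mass π Q := by
  classical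
  refine sum_le_sum fun ω _ => ?_
  by_cases hP : P ω
  · simp [hP, h ω hP]
  · simp only [hP, if_false]
    split_ifs
    · exact h0 ω
    · exact le_rfl

variable {ι : Type} [Fintype ι] [DecidableEq ι] {k W : ℕ}

/-- Spread probability vectors on admissible words. -/
def Spr (ρ i E : ℕ) (θ : ℝ) (n : ℕ) : Set (Word ι k W n → ℝ) :=
  {π | π ∈ stdSimplex ℝ (Word ι k W n) ∧ (∀ ω, ¬ Adm ρ i E ω → π ω = 0) ∧
    ∀ j : Fin n, i * ρ ≤ j → ∀ u, mass π (fun ω => pos ω j = u) ≤ θ}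

theorem spr_closed (ρ i E : ℕ) (θ : ℝ) (n : ℕ) :
    IsClosed (Spr (ι := ι) (k := k) (W := W) ρ i E θ n) := by
  refine (isClosed_stdSimplex _ _).inter (IsClosed.inter ?_ ?_)
  · change IsClosed {π : Word ι k W n → ℝ | ∀ ω, ¬ Adm ρ i E ω → π ω = 0}
    simp only [Set.ofPred_forall]
    exact isClosed_iInter fun ω => isClosed_iInter fun _ =>
      isClosed_eq (continuous_apply ω) continuous_const
  · change IsClosed {π : Word ι k W n → ℝ |
      ∀ j : Fin n, i * ρ ≤ j → ∀ u, mass π (fun ω => pos ω j = u) ≤ θ}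
    simp only [Set.ofPred_forall]
    exact isClosed_iInter fun j => isClosed_iInter fun _ => isClosed_iInter fun u =>
      isClosed_le (continuous_mass _) continuous_const

theorem spr_convex (ρ i E : ℕ) (θ : ℝ) (n : ℕ) :
    Convex ℝ (Spr (ι := ι) (k := k) (W := W) ρ i E θ n) := by
  intro π hπ π' hπ' a b ha hb hab
  refine ⟨convex_stdSimplex _ _ hπ.1 hπ'.1 ha hb hab, fun ω hω => ?_, fun j hj u => ?_⟩
  · simp [hπ.2.1 ω hω, hπ'.2.1 ω hω]
  · rw [mass_lin]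
    have h1 := mul_le_mul_of_nonneg_left (hπ.2.2 j hj u) ha
    have h2 := mul_le_mul_of_nonneg_left (hπ'.2.2 j hj u) hb
    calc _ ≤ a * θ + b * θ := add_le_add h1 h2
      _ = θ := by rw [← add_mul, hab, one_mul]

open Classical in
theorem kill_spr {ρ l e L z N i E q : ℕ} [hq : Fact q.Prime] {s : ι → Fin e → ℤ}
    (hs : ∀ a c, |s a c| ≤ 1) (hF : Free L s) (hL : 2 * l ^ 2 ≤ L) (hρ : 2 * W ^ 3 ≤ ρ)
    (hW : 1 ≤ W) (hk : 6 ≤ k) (hE : 16 ≤ E) (hl : N * ρ ≤ l) (hz1 : (600 * (k * l) ^ 4) ^ 8 ≤ q)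
    (hz3 : 2 * l ^ 2 + 2 < q) (hz4 : W ≤ q) (hz : q ≤ z) {π : Word ι k W (N * ρ) → ℝ}
    (hπ : π ∈ Spr ρ i E (1 / (z : ℝ) ^ 14) (N * ρ)) :
    ((univ.filter fun φ : Fin e → ZMod q => ∃ a : ZMod q,
        mass π (fun ω => ∃ m : {j : Fin (N * ρ) // i * ρ ≤ j} × Fin k,
          (fun x => (((∑ a, pos ω m.1 a • s a) x : ℤ) : ZMod q)) ⬝ᵥ φ +
            (((ω m.1).2 m.2 : ℕ) : ZMod q) = a) <
          (((k - 1) * E / 32 : ℕ) : ℝ) / (2 * q)).card : ℝ) ≤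
      (q : ℝ) ^ (-(1 / 5 : ℝ)) / 2 * Fintype.card (Fin e → ZMod q) := by
  have hq1 : (1 : ℝ) ≤ q := by exact_mod_cast hq.out.one_le
  have hq0 : (0 : ℝ) < q := by linarith
  have hll : l ≤ 2 * l ^ 2 := by nlinarith
  have hinj : ∀ (ω ω' : Word ι k W (N * ρ)) (j j' : Fin (N * ρ)),
      ∑ a, |pos ω j a - pos ω' j' a| ≤ (2 * l ^ 2 : ℕ) →
      ((fun x => (((∑ a, pos ω j a • s a) x : ℤ) : ZMod q)) =
        fun x => (((∑ a, pos ω' j' a • s a) x : ℤ) : ZMod q)) → pos ω j = pos ω' j' :=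
    fun ω ω' j j' h1 h => eq_of_cast_eq hs hF hL (by omega) h1 fun c => congrFun h c
  have hdist : ∀ (ω ω' : Word ι k W (N * ρ)) (j j' : Fin (N * ρ)),
      ∑ a, |pos ω j a - pos ω' j' a| ≤ (2 * l ^ 2 : ℕ) := by
    intro ω ω' j j'
    have h1 := sum_abs_pos_le ω j
    have h2 := sum_abs_pos_le ω' j'
    have h3 : ∑ a, |pos ω j a - pos ω' j' a| ≤ ∑ a, |pos ω j a| + ∑ a, |pos ω' j' a| := by
      rw [← sum_add_distrib]
      exact sum_le_sum fun a _ => abs_sub _ _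
    have h4 : ((N * ρ : ℕ) : ℤ) ≤ l := by exact_mod_cast hl
    have h5 : (l : ℤ) ≤ l ^ 2 := by exact_mod_cast Nat.le_self_pow two_ne_zero l
    push_cast at h1 h2 h4 ⊢
    linarith
  have hadm : ∀ ω, π ω ≠ 0 → Adm ρ i E ω := fun ω h => by
    by_contra h'
    exact h (hπ.2.1 ω h')
  have hM : Fintype.card ({j : Fin (N * ρ) // i * ρ ≤ j} × Fin k) ≤ k * l := by
    rw [Fintype.card_prod, Fintype.card_fin, mul_comm]
    exact Nat.mul_le_mul_left _ ((Fintype.card_subtype_le _).trans (by simpa using hl))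
  have hA3 : ((q : ℝ) ^ (1 / 3 : ℝ)) ^ 3 = q := by
    rw [← Real.rpow_natCast, ← Real.rpow_mul hq0.le]
    simp
  have h := kill_lemma π hπ.1.1 hπ.1.2
    (fun (m : {j : Fin (N * ρ) // i * ρ ≤ j} × Fin k) ω x =>
      (((∑ a, pos ω m.1 a • s a) x : ℤ) : ZMod q))
    (fun m ω => (((ω m.1).2 m.2 : ℕ) : ZMod q)) (θ := 1 / (z : ℝ) ^ 14)
    (A := (q : ℝ) ^ (1 / 3 : ℝ)) (h := (k - 1) * E / 32)
    (by
      rw [Nat.le_div_iff_mul_le (by norm_num)]
      have : 5 * 16 ≤ (k - 1) * E := Nat.mul_le_mul (by omega) hE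
      omega)
    (fun m u => by
      by_cases h : ∃ ω₀ : Word ι k W (N * ρ),
          (fun x => (((∑ a, pos ω₀ m.1 a • s a) x : ℤ) : ZMod q)) = u
      · obtain ⟨ω₀, h₀⟩ := h
        exact (mass_mono hπ.1.1 fun ω hω => hinj ω ω₀ _ _ (hdist _ _ _ _) (hω.trans h₀.symm)).trans
          (hπ.2.2 m.1 m.1.2 (pos ω₀ m.1))
      · exact (mass_mono hπ.1.1 fun ω hω => absurd ⟨ω, hω⟩ h).trans (hπ.2.2 m.1 m.1.2 0))
    (fun ω hω m m' h1 h2 => by
      have h3 : m.1 = m'.1 := Subtype.ext ((hadm ω hω).1 (hinj ω ω _ _ (hdist _ _ _ _) h1))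
      refine Prod.ext h3 ((hadm ω hω).2.1 m'.1 (Fin.ext ?_))
      rw [h3] at h2
      exact Nat.ModEq.eq_of_lt_of_lt ((ZMod.natCast_eq_natCast_iff _ _ _).1 h2)
        ((Fin.is_lt _).trans_le hz4) ((Fin.is_lt _).trans_le hz4))
    (fun ω hω g a => rich hs hF hL hz3 hz4 hρ hW hl hE (hadm ω hω) g a)
    (by
      have : (q : ℝ) ≤ z := by exact_mod_cast hz
      rw [one_div_mul_eq_div, div_le_one (by have : (0 : ℝ) < z := by linarith
                                             positivity)]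
      gcongr)
    (Real.one_le_rpow hq1 (by norm_num)) hA3.le
    (by
      refine (Nat.pow_le_pow_left hM 2).trans (le_trans ?_ hz1)
      refine le_trans ?_ (Nat.le_self_pow (by norm_num) _)
      rcases Nat.eq_zero_or_pos (k * l) with h | h
      · simp [h]
      · have := Nat.pow_le_pow_right h (by norm_num : 2 ≤ 4)
        omega)
  refine h.trans ?_
  rw [Fintype.card_fun, ZMod.card, Fintype.card_fin, Nat.cast_pow]
  refine mul_le_mul_of_nonneg_right ?_ (by positivity)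
  have h1 : (600 * (Fintype.card ({j : Fin (N * ρ) // i * ρ ≤ j} × Fin k) : ℝ) ^ 4) ^ 8 ≤ q := by
    have : (600 * Fintype.card ({j : Fin (N * ρ) // i * ρ ≤ j} × Fin k) ^ 4) ^ 8 ≤ q :=
      le_trans (by gcongr) hz1
    exact_mod_cast this
  generalize (Fintype.card ({j : Fin (N * ρ) // i * ρ ≤ j} × Fin k) : ℝ) ^ 4 = x at h1 ⊢
  have h2 : 600 * x ≤ (q : ℝ) ^ (1 / 8 : ℝ) := by
    refine le_of_pow_le_pow_left₀ (by norm_num : 8 ≠ 0) (by positivity) (h1.trans_eq ?_)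
    rw [← Real.rpow_natCast, ← Real.rpow_mul hq0.le]
    simp
  have h3 : (q : ℝ) ^ (1 / 8 : ℝ) ≤ (q : ℝ) ^ (-(1 / 5 : ℝ)) * (q : ℝ) ^ (1 / 3 : ℝ) := by
    rw [← Real.rpow_add hq0]
    exact Real.rpow_le_rpow_of_exponent_le hq1 (by norm_num)
  rw [div_le_iff₀ (by positivity)]
  linarith

end NoSp

open Classical in
theorem no_spread {ι : Type} [Fintype ι] [DecidableEq ι] {k W ρ l e L D z₁ z E₀ : ℕ}
    {s : ι → Fin e → ℤ} (hs : ∀ a c, |s a c| ≤ 1) (hF : Free L s) (hL : 2 * l ^ 2 ≤ L)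
    (hρ : 2 * W ^ 3 ≤ ρ) (hW : 1 ≤ W) (hk : 6 ≤ k) (hE₀ : 16 ≤ E₀) (hD : Fintype.card ι ≤ D)
    (hD1 : 1 ≤ D) (hD2 : (4 * ρ * W ^ k) ^ ρ ≤ D) (hz1 : (600 * (k * l) ^ 4) ^ 8 ≤ z₁)
    (hz2 : (l + 1) ^ 3 ≤ z₁) (hz3 : 2 * l ^ 2 + 2 ≤ z₁) (hz4 : W ≤ z₁) (hz : 1 ≤ z)
    (𝒦 : Finset Nat.Primes) (h𝒦 : ∀ p ∈ 𝒦, z₁ < (p : ℕ) ∧ (p : ℕ) ≤ z)
    (hgain : 2 * Real.log D < k / 256 * ((∑ p ∈ 𝒦, (1 : ℝ) / (p : ℕ)) / 11 - 1)) :
    ∃ φ : ∀ p : Nat.Primes, Fin e → ZMod p, ∀ (a : ∀ p : Nat.Primes, ZMod p) (N i E : ℕ),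
      N * ρ ≤ l → i ≤ N → E₀ ≤ E → E ≤ l → ∀ 𝒯 : Finset (Word ι k W (N * ρ)), 𝒯.Nonempty →
        (∀ ω ∈ 𝒯, Adm ρ i E ω ∧ ∀ p ∈ 𝒦, ∀ (j : Fin (N * ρ)) (m : Fin k),
          (fun x => (((∑ a, pos ω j a • s a) x : ℤ) : ZMod p)) ⬝ᵥ φ p +
            (((ω j).2 m : ℕ) : ZMod p) ≠ a p) →
        ∃ (j : Fin (N * ρ)) (u : ι → ℤ), i * ρ ≤ j ∧
          𝒯.card < z ^ 14 * (𝒯.filter fun ω => pos ω j = u).card := by
  have : ∀ p : Nat.Primes, Fact (p : ℕ).Prime := fun p => ⟨p.2⟩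
  have hρ1 : 1 ≤ ρ := le_trans (by have := Nat.one_le_pow 3 W hW; omega) hρ
  obtain ⟨φ, hφ⟩ := game
    (S := {t : Fin (l + 1) × Fin (l + 1) × Fin (l + 1) // t.1 * ρ ≤ l ∧ E₀ ≤ t.2.2})
    (Ω := fun t => Word ι k W (t.1.1 * ρ)) (Φ := fun p : Nat.Primes => Fin e → ZMod p)
    (A := fun p : Nat.Primes => ZMod p)
    (fun t => NoSp.Spr ρ t.1.2.1 t.1.2.2 (1 / (z : ℝ) ^ 14) _) (fun _ => NoSp.spr_closed ..)
    (fun _ => NoSp.spr_convex ..) (fun _ _ h => h.1)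
    (fun t => (((k - 1) * t.1.2.2 / 32 : ℕ) : ℝ)) (fun t => 2 * (t.1.2.2 : ℕ) * Real.log D)
    (fun _ => by positivity)
    (fun t π hπ => by
      have h1 := ent_le_log_card hπ.1
        (univ.filter fun ω : Word ι k W (t.1.1 * ρ) => cost ρ ω 0 ≤ t.1.2.2) fun ω hω =>
          mem_filter.2 ⟨mem_univ _, by
            by_contra h'
            exact hω (hπ.2.1 ω fun h => h' h.2.2.1)⟩
      have h2 := card_cost_le (ι := ι) (k := k) (N := t.1.1) (E := t.1.2.2) hρ1 hD hD1 hW hD2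
      refine h1.trans ?_
      rcases Nat.eq_zero_or_pos (univ.filter fun ω : Word ι k W (t.1.1 * ρ) =>
        cost ρ ω 0 ≤ t.1.2.2).card with h | h
      · rw [h]
        have := Real.log_natCast_nonneg D
        simp only [Nat.cast_zero, Real.log_zero]
        positivity
      · refine (Real.log_le_log (by exact_mod_cast h) (Nat.cast_le.2 h2)).trans_eq ?_
        rw [Nat.cast_pow, Real.log_pow]
        push_cast
        ring)
    (fun p => p) (fun p => (ZMod.card p).le) 𝒦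
    (fun p hp => by have := (h𝒦 p hp).1; omega)
    (fun p hp => by
      refine (Fintype.card_subtype_le _).trans (le_trans ?_ (hz2.trans (h𝒦 p hp).1.le))
      simp only [Fintype.card_prod, Fintype.card_fin]
      exact le_of_eq (by ring))
    (fun p t φ a ω => ∃ m : {j : Fin (t.1.1 * ρ) // t.1.2.1 * ρ ≤ j} × Fin k,
      (fun x => (((∑ a, pos ω m.1 a • s a) x : ℤ) : ZMod p)) ⬝ᵥ φ +
        (((ω m.1).2 m.2 : ℕ) : ZMod p) = a)
    (fun p hp t π hπ => by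
      have h1 := h𝒦 p hp
      convert NoSp.kill_spr hs hF hL hρ hW hk (hE₀.trans t.2.2) t.2.1 (hz1.trans h1.1.le)
        (hz3.trans_lt h1.1) (hz4.trans h1.1.le) h1.2 hπ)
  refine ⟨φ, fun a N i E hN hi hE hEl 𝒯 hne h𝒯 => ?_⟩
  by_contra hc
  push Not at hc
  have hNl : N ≤ l := le_trans (Nat.le_mul_of_pos_right _ hρ1) hN
  have hc0 : (0 : ℝ) < 𝒯.card := by exact_mod_cast hne.card_pos
  have hz0 : (0 : ℝ) < z := by exact_mod_cast hz
  have hπ : (fun ω => if ω ∈ 𝒯 then 1 / (𝒯.card : ℝ) else 0) ∈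
      NoSp.Spr ρ i E (1 / (z : ℝ) ^ 14) (N * ρ) := by
    refine ⟨⟨fun ω => by dsimp only; split_ifs <;> positivity, ?_⟩, fun ω hω => ?_,
      fun j hj u => ?_⟩
    · rw [sum_ite_mem, univ_inter, sum_const, nsmul_eq_mul]
      field_simp
    · exact if_neg fun h => hω (h𝒯 ω h).1
    · have h1 : mass (fun ω => if ω ∈ 𝒯 then 1 / (𝒯.card : ℝ) else 0) (fun ω => pos ω j = u) =
          (𝒯.filter fun ω => pos ω j = u).card / (𝒯.card : ℝ) := by
        simp only [mass, ← ite_and]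
        rw [← sum_filter, sum_const, nsmul_eq_mul, mul_one_div]
        congr 3
        ext ω
        simp [and_comm]
      have h2 : (z : ℝ) ^ 14 * (𝒯.filter fun ω => pos ω j = u).card ≤ 𝒯.card := by
        exact_mod_cast hc j u hj
      rw [h1, div_le_div_iff₀ hc0 (by positivity)]
      linarith
  have h1 := hφ ⟨(⟨N, by omega⟩, ⟨i, by omega⟩, ⟨E, by omega⟩), hN, hE⟩ a _ hπ
    fun p hp ω hω => if_neg fun h => by
      obtain ⟨m, hm⟩ := hω
      exact (h𝒯 ω h).2 p hp m.1 m.2 hm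
  have h2 := ent_nonneg hπ.1
  have h3 : (k : ℝ) * E / 64 ≤ (((k - 1) * E / 32 : ℕ) : ℝ) := by
    have h4 : k * E ≤ 64 * ((k - 1) * E / 32) := by
      obtain ⟨k', rfl⟩ : ∃ k', k = k' + 2 := ⟨k - 2, by omega⟩
      have h5 : 4 * 16 ≤ k' * E := Nat.mul_le_mul (by omega) (hE₀.trans hE)
      have h6 : (k' + 2 - 1) * E = k' * E + E := by
        rw [show k' + 2 - 1 = k' + 1 from rfl]; ring
      have h7 : (k' + 2) * E = k' * E + 2 * E := by ring
      omega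
    rw [div_le_iff₀ (by norm_num), mul_comm _ (64 : ℝ)]
    exact_mod_cast h4
  have hE1 : (1 : ℝ) ≤ E := by exact_mod_cast (by omega : 1 ≤ E)
  have hlog := Real.log_natCast_nonneg D
  have hk0 : (0 : ℝ) < k := by exact_mod_cast (by omega : 0 < k)
  have h4 : 0 < (∑ p ∈ 𝒦, (1 : ℝ) / (p : ℕ)) / 11 - 1 := by
    by_contra h
    have := mul_nonpos_of_nonneg_of_nonpos (by positivity : (0 : ℝ) ≤ k / 256) (not_lt.1 h)
    linarith
  have h5 := mul_le_mul_of_nonneg_right h3 h4.le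
  have h6 := mul_lt_mul_of_pos_left hgain (by linarith : (0 : ℝ) < E)
  have h7 : ent (fun ω => if ω ∈ 𝒯 then 1 / (𝒯.card : ℝ) else 0) ≤ 2 * (E : ℝ) * Real.log D -
      (((k - 1) * E / 32 : ℕ) : ℝ) / 4 * ((∑ p ∈ 𝒦, (1 : ℝ) / (p : ℕ)) / 11 - 1) := h1
  nlinarith

end Pool.Agent.Lib.MP_5ab464_nt
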