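import Pool.Agent.Lib.MP_0a06fe_nt.Mertens

/-! Choice of the numerical parameters. -/

open Finset

namespace Pool.Agent.Lib.MP_5ab464_nt

theorem params_inv_le {x : ℝ} (h0 : 0 ≤ x) (h1 : x ≤ 1 / 2) : (1 - x)⁻¹ ≤ Real.exp (2 * x) := by
  have h2 : 0 < 1 - x := by linarith
  have h3 : 2 * x + 1 ≤ Real.exp (2 * x) := Real.add_one_le_exp _
  refine le_trans ?_ h3
  rw [inv_le_iff_one_le_mul₀ h2]
  nlinarith

theorem params_lower (n : ℕ) (hn : 1 ≤ n) :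
    Real.log (Real.log (n + 1)) ≤ 2 * ∑ p ∈ n.primesLE, (p : ℝ)⁻¹ := by
  have h1 := MP_0a06fe_nt.log_le_prod_primesLE n
  have hn' : (1 : ℝ) ≤ n := by exact_mod_cast hn
  have h0 : 0 < Real.log (n + 1) := Real.log_pos (by linarith)
  rw [Real.log_le_iff_le_exp h0, Finset.mul_sum, Real.exp_sum]
  refine h1.trans (Finset.prod_le_prod ?_ ?_)
  · intro p hp
    have hp2 : (2 : ℝ) ≤ p := by exact_mod_cast (Nat.mem_primesLE.mp hp).2.two_le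
    have : (p : ℝ)⁻¹ ≤ 1 := inv_le_one_of_one_le₀ (by linarith)
    exact inv_nonneg.mpr (by linarith)
  · intro p hp
    have hp2 : (2 : ℝ) ≤ p := by exact_mod_cast (Nat.mem_primesLE.mp hp).2.two_le
    refine params_inv_le (by positivity) ?_
    rw [one_div]
    exact inv_anti₀ (by norm_num) hp2

theorem params_primes (a b : ℕ) : ∃ 𝒦 : Finset Nat.Primes,
    (∀ p ∈ 𝒦, a < (p : ℕ) ∧ (p : ℕ) ≤ b) ∧
      ∑ p ∈ b.primesLE, (p : ℝ)⁻¹ - ∑ p ∈ a.primesLE, (p : ℝ)⁻¹ ≤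
        ∑ p ∈ 𝒦, (1 : ℝ) / (p : ℕ) := by
  classical
  refine ⟨(b.primesLE.filter (a < ·)).subtype Nat.Prime, ?_, ?_⟩
  · intro p hp
    have h := Finset.mem_filter.mp (Finset.mem_subtype.mp hp)
    exact ⟨h.2, (Nat.mem_primesLE.mp h.1).1⟩
  · have h1 : ∑ p ∈ (b.primesLE.filter (a < ·)).subtype Nat.Prime, (1 : ℝ) / ((p : ℕ) : ℝ) =
        ∑ p ∈ b.primesLE.filter (a < ·), (1 : ℝ) / (p : ℝ) :=
      Finset.sum_subtype_of_mem (fun p : ℕ => (1 : ℝ) / (p : ℝ))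
        (fun p hp => (Nat.mem_primesLE.mp (Finset.mem_filter.mp hp).1).2)
    have h2 := Finset.sum_filter_add_sum_filter_not b.primesLE (a < ·) (fun p : ℕ => (p : ℝ)⁻¹)
    have h3 : ∑ p ∈ b.primesLE.filter (fun p => ¬ a < p), (p : ℝ)⁻¹ ≤
        ∑ p ∈ a.primesLE, (p : ℝ)⁻¹ := by
      refine Finset.sum_le_sum_of_subset_of_nonneg ?_ (fun p _ _ => by positivity)
      intro p hp
      have h := Finset.mem_filter.mp hp
      exact Nat.mem_primesLE.mpr ⟨not_lt.mp h.2, (Nat.mem_primesLE.mp h.1).2⟩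
    refine le_trans ?_ h1.ge
    simp only [one_div]
    linarith

theorem params_gain {k m : ℕ} (hk : 10 ^ 6 ≤ k) (hm : 2 ≤ m) (hs : 10 ^ 4 ≤ Real.log m) {S : ℝ}
    (hS : ∑ p ∈ Nat.primesLE (2 ^ m), (p : ℝ)⁻¹ - ∑ p ∈ Nat.primesLE (m ^ 300), (p : ℝ)⁻¹ ≤ S) :
    2 * Real.log ((m ^ 22 : ℕ) : ℝ) < k / 256 * (S / 11 - 1) := by
  have hm' : (2 : ℝ) ≤ m := by exact_mod_cast hm
  have h1 := params_lower (2 ^ m) Nat.one_le_two_pow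
  have h2 := MP_0a06fe_nt.sum_inv_primesLE_le (n := m ^ 300)
    (hm.trans (Nat.le_self_pow (by norm_num) m))
  have hl2 : (1 : ℝ) / 2 < Real.log 2 := lt_trans (by norm_num) Real.log_two_gt_d9
  have hl2' : Real.log 2 < 1 := lt_trans Real.log_two_lt_d9 (by norm_num)
  have h3 : (m : ℝ) / 2 ≤ Real.log (((2 ^ m : ℕ) : ℝ) + 1) := by
    have e1 : Real.log ((2 : ℝ) ^ m) ≤ Real.log (((2 ^ m : ℕ) : ℝ) + 1) := by
      refine Real.log_le_log (by positivity) ?_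
      push_cast
      linarith
    rw [Real.log_pow] at e1
    nlinarith
  have h4 : Real.log m - 1 ≤ Real.log (Real.log (((2 ^ m : ℕ) : ℝ) + 1)) := by
    have e1 := Real.log_le_log (by positivity) h3
    rw [Real.log_div (by positivity) (by norm_num)] at e1
    linarith
  have h5 : Real.log ((m ^ 300 : ℕ) : ℝ) = 300 * Real.log m := by
    push_cast
    rw [Real.log_pow]; norm_num
  have h6 : Real.log ((m ^ 22 : ℕ) : ℝ) = 22 * Real.log m := by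
    push_cast
    rw [Real.log_pow]; norm_num
  rw [h5] at h2
  rw [h6]
  set s := Real.log m with hsdef
  have h7 : Real.log (1 + 300 * s) ≤ 2400 + s / 8 := by
    have e0 : (0 : ℝ) < 1 + 300 * s := by linarith
    have e1 : Real.log (1 + 300 * s) = Real.log 2400 + Real.log ((1 + 300 * s) / 2400) := by
      rw [Real.log_div e0.ne' (by norm_num)]; ring
    have e2 := Real.log_le_sub_one_of_pos (show (0 : ℝ) < (1 + 300 * s) / 2400 by positivity)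
    have e3 := Real.log_le_sub_one_of_pos (show (0 : ℝ) < 2400 by norm_num)
    linarith
  have h8 : 3 * s / 8 - 2405 ≤ S := by linarith
  have hk' : (10 : ℝ) ^ 6 ≤ k := by exact_mod_cast hk
  have h9 : s / 85 ≤ S / 11 - 1 := by linarith
  have h10 : (10 : ℝ) ^ 6 / 256 * (s / 85) ≤ k / 256 * (S / 11 - 1) := by
    refine mul_le_mul (by linarith) h9 (by linarith) (by linarith)
  linarith

theorem params_ball {t l a b : ℕ} (ht : 12 ≤ t) (hl : l + 1 ≤ (2 ^ t) ^ 9) (ha : a ≤ 2 ^ t)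
    (hb : b ≤ 2 ^ t) :
    (l + 1) * (2 * (2 ^ t) ^ 22) ^ a *
      (((l + 1) * (2 ^ 2 ^ t) ^ 14) ^ (Nat.log 2 l + 1) * ((2 ^ t) ^ 22) ^ (2 * b)) <
        2 ^ (2 ^ t) ^ 2 := by
  have h0 : 226 * t < 2 ^ t := by
    induction t, ht using Nat.le_induction with
    | base => norm_num
    | succ n hn ih =>
      have : n < 2 ^ n := Nat.lt_two_pow_self
      have h12 : 2 ^ 12 ≤ 2 ^ n := Nat.pow_le_pow_right (by norm_num) hn
      have key : ∀ j : ℕ, 226 * (12 + j) < 2 ^ (12 + j) := by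
        intro j
        induction j with
        | zero => norm_num
        | succ i hi => rw [← add_assoc, pow_succ]; omega
      have := key (n + 1 - 12)
      rwa [show 12 + (n + 1 - 12) = n + 1 by omega] at this
  generalize hm : 2 ^ t = m at *
  have e1 : m ^ 9 = 2 ^ (9 * t) := by rw [← hm, ← pow_mul, mul_comm]
  have e2 : m ^ 22 = 2 ^ (22 * t) := by rw [← hm, ← pow_mul, mul_comm]
  have h1 : l + 1 ≤ 2 ^ (9 * t) := e1 ▸ hl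
  have h2 : l + 1 ≤ 2 ^ m := h1.trans (Nat.pow_le_pow_right (by norm_num) (by omega))
  have h3 : Nat.log 2 l + 1 ≤ 10 * t := by
    have : Nat.log 2 l ≤ Nat.log 2 (2 ^ (9 * t)) := Nat.log_mono_right (by omega)
    rw [Nat.log_pow (by norm_num)] at this
    omega
  have h4 : (l + 1) * (2 ^ m) ^ 14 ≤ 2 ^ (15 * m) := by
    calc (l + 1) * (2 ^ m) ^ 14 ≤ 2 ^ m * (2 ^ m) ^ 14 := Nat.mul_le_mul_right _ h2
      _ = 2 ^ (15 * m) := by rw [← pow_succ', ← pow_mul, mul_comm]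
  have h5 : ((l + 1) * (2 ^ m) ^ 14) ^ (Nat.log 2 l + 1) ≤ 2 ^ (15 * m * (10 * t)) := by
    calc _ ≤ (2 ^ (15 * m)) ^ (Nat.log 2 l + 1) := Nat.pow_le_pow_left h4 _
      _ ≤ (2 ^ (15 * m)) ^ (10 * t) := Nat.pow_le_pow_right (by positivity) h3
      _ = _ := by rw [← pow_mul]
  have h6 : (2 * m ^ 22) ^ a ≤ 2 ^ (23 * t * m) := by
    have : 2 * m ^ 22 ≤ 2 ^ (23 * t) := by
      rw [e2, ← pow_succ']
      exact Nat.pow_le_pow_right (by norm_num) (by omega)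
    calc _ ≤ (2 ^ (23 * t)) ^ a := Nat.pow_le_pow_left this _
      _ ≤ (2 ^ (23 * t)) ^ m := Nat.pow_le_pow_right (by positivity) ha
      _ = _ := by rw [← pow_mul]
  have h7 : (m ^ 22) ^ (2 * b) ≤ 2 ^ (22 * t * (2 * m)) := by
    rw [e2, ← pow_mul]
    exact Nat.pow_le_pow_right (by norm_num) (Nat.mul_le_mul_left _ (by omega))
  calc _ ≤ 2 ^ (9 * t) * 2 ^ (23 * t * m) *
        (2 ^ (15 * m * (10 * t)) * 2 ^ (22 * t * (2 * m))) :=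
        Nat.mul_le_mul (Nat.mul_le_mul h1 h6) (Nat.mul_le_mul h5 h7)
    _ = 2 ^ (9 * t + 217 * (t * m)) := by
        rw [← pow_add, ← pow_add, ← pow_add]; congr 1; ring
    _ < 2 ^ m ^ 2 := by
        refine Nat.pow_lt_pow_right (by norm_num) ?_
        have hm1 : 1 ≤ m := by omega
        nlinarith

theorem params_exp {T m : ℕ} (hm : 1 ≤ m) (hT : 8 * T ^ 2 ≤ m) {ε : ℝ} (hε : 1344 ≤ ε ^ 2 * m) :
    8 * (T : ℝ) ^ 2 * ((m ^ 20 : ℕ) : ℝ) ^ (m ^ 19) ≤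
      Real.exp (ε ^ 2 * ((m ^ 21 : ℕ) : ℝ) / 64) := by
  have hm' : (1 : ℝ) ≤ m := by exact_mod_cast hm
  have hT' : 8 * (T : ℝ) ^ 2 ≤ m := by exact_mod_cast hT
  have h1 : (m : ℝ) ≤ Real.exp m := by linarith [Real.add_one_le_exp (m : ℝ)]
  have h2 : (m : ℝ) ≤ (m : ℝ) ^ 20 := le_self_pow₀ hm' (by norm_num)
  have h3 : 8 * (T : ℝ) ^ 2 ≤ Real.exp ((m : ℝ) ^ 20) :=
    hT'.trans (h1.trans (Real.exp_le_exp.mpr h2))
  have h4 : ((m ^ 20 : ℕ) : ℝ) ^ (m ^ 19) ≤ Real.exp (20 * (m : ℝ) ^ 20) := by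
    calc ((m ^ 20 : ℕ) : ℝ) ^ (m ^ 19) = (m : ℝ) ^ (20 * m ^ 19) := by
          push_cast; rw [← pow_mul]
      _ ≤ (Real.exp m) ^ (20 * m ^ 19) := pow_le_pow_left₀ (by positivity) h1 _
      _ = Real.exp (20 * (m : ℝ) ^ 20) := by
          rw [← Real.exp_nat_mul]; congr 1; push_cast; ring
  calc _ ≤ Real.exp ((m : ℝ) ^ 20) * Real.exp (20 * (m : ℝ) ^ 20) :=
        mul_le_mul h3 h4 (by positivity) (by positivity)
    _ = Real.exp (21 * (m : ℝ) ^ 20) := by rw [← Real.exp_add]; congr 1; ring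
    _ ≤ _ := by
        refine Real.exp_le_exp.mpr ?_
        have h5 : 1344 * (m : ℝ) ^ 20 ≤ ε ^ 2 * m * (m : ℝ) ^ 20 :=
          mul_le_mul_of_nonneg_right hε (by positivity)
        push_cast
        have h6 : ε ^ 2 * (m : ℝ) ^ 21 = ε ^ 2 * m * (m : ℝ) ^ 20 := by ring
        rw [h6]
        linarith

theorem params_count {T m : ℕ} (hm : 23 ≤ m) (hT : 2 * T ^ 2 + 1 ≤ m) :
    2 * (2 * (T ^ 2 * m ^ 21) + 1) ^ m ^ 17 < 2 ^ m ^ 19 := by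
  have h0 : 1 ≤ m ^ 21 := Nat.one_le_pow _ _ (by omega)
  have h1 : 2 * (T ^ 2 * m ^ 21) + 1 ≤ 2 ^ (22 * m) := by
    calc 2 * (T ^ 2 * m ^ 21) + 1 ≤ (2 * T ^ 2 + 1) * m ^ 21 := by nlinarith
      _ ≤ m * m ^ 21 := Nat.mul_le_mul_right _ hT
      _ = m ^ 22 := by ring
      _ ≤ (2 ^ m) ^ 22 := Nat.pow_le_pow_left Nat.lt_two_pow_self.le _
      _ = 2 ^ (22 * m) := by rw [← pow_mul, mul_comm]
  calc 2 * (2 * (T ^ 2 * m ^ 21) + 1) ^ m ^ 17 ≤ 2 * (2 ^ (22 * m)) ^ m ^ 17 :=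
        Nat.mul_le_mul_left _ (Nat.pow_le_pow_left h1 _)
    _ = 2 ^ (22 * m ^ 18 + 1) := by
        rw [← pow_mul, ← pow_succ']; congr 1; ring
    _ < 2 ^ m ^ 19 := by
        refine Nat.pow_lt_pow_right (by norm_num) ?_
        have h2 : m ≤ m ^ 18 := Nat.le_self_pow (by norm_num) m
        have h3 : 23 * m ^ 18 ≤ m * m ^ 18 := Nat.mul_le_mul_right _ hm
        have h4 : m ^ 19 = m * m ^ 18 := by ring
        omega

theorem params {k W T : ℕ} (hk : 10 ^ 6 ≤ k) (hW : 1 ≤ W) (hT : 1 ≤ T) {δ : ℝ} (hδ : 0 < δ) :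
    ∃ (M l e N D₀ L D z₁ z : ℕ) (𝒦 : Finset Nat.Primes), l = 1000 * M ^ 4 ∧ 1 ≤ M ∧ 1 ≤ N ∧
      1 ≤ D₀ ∧ 8 * (e : ℝ) ≤ δ * N ∧
      8 * (T : ℝ) ^ 2 * (N : ℝ) ^ e ≤ Real.exp ((δ ^ 3 / (64 * T ^ 2)) ^ 2 * D₀ / 64) ∧
      2 * (2 * (T ^ 2 * D₀) + 1) ^ L < 2 ^ e ∧ 2 * l ^ 2 ≤ L ∧ T ^ 2 * D₀ ≤ D ∧
      (4 * (2 * W ^ 3) * W ^ k) ^ (2 * W ^ 3) ≤ D ∧ (600 * (k * l) ^ 4) ^ 8 ≤ z₁ ∧
      (l + 1) ^ 3 ≤ z₁ ∧ 2 * l ^ 2 + 2 ≤ z₁ ∧ W ≤ z₁ ∧ T ≤ z₁ ∧ 1 ≤ z ∧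
      (∀ p ∈ 𝒦, z₁ < (p : ℕ) ∧ (p : ℕ) ≤ z) ∧
      2 * Real.log D < k / 256 * ((∑ p ∈ 𝒦, (1 : ℝ) / (p : ℕ)) / 11 - 1) ∧
      (l + 1) * (2 * D) ^ (2 * W ^ 3) *
        (((l + 1) * z ^ 14) ^ (Nat.log 2 l + 1) * D ^ (2 * (8 * W ^ 3 + 16))) < 2 ^ M := by
  have hT' : (1 : ℝ) ≤ T := by exact_mod_cast hT
  have hε : 0 < (δ ^ 3 / (64 * (T : ℝ) ^ 2)) ^ 2 := by positivity
  obtain ⟨c₁, hc₁⟩ := exists_nat_ge (8 / δ)
  obtain ⟨c₂, hc₂⟩ := exists_nat_ge (1344 / (δ ^ 3 / (64 * (T : ℝ) ^ 2)) ^ 2)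
  obtain ⟨c₃, hc₃⟩ : ∃ c, c = (4 * (2 * W ^ 3) * W ^ k) ^ (2 * W ^ 3) := ⟨_, rfl⟩
  obtain ⟨c₄, hc₄⟩ : ∃ c, c = 600 * (1000 * k) ^ 4 := ⟨_, rfl⟩
  obtain ⟨c₅, hc₅⟩ : ∃ c, c = T ^ 2 := ⟨_, rfl⟩
  obtain ⟨c₆, hc₆⟩ : ∃ c, c = W ^ 3 := ⟨_, rfl⟩
  obtain ⟨t, ht⟩ : ∃ t : ℕ, c₁ + c₂ + c₃ + c₄ + 8 * c₅ + 8 * c₆ + W + T + 2000000 ≤ t :=
    ⟨_, le_rfl⟩
  have htm : t < 2 ^ t := Nat.lt_two_pow_self
  have hs : (10 : ℝ) ^ 4 ≤ Real.log ((2 ^ t : ℕ) : ℝ) := by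
    have hl2 : (1 : ℝ) / 2 < Real.log 2 := lt_trans (by norm_num) Real.log_two_gt_d9
    have h1 : (2000000 : ℝ) ≤ t := by exact_mod_cast (show 2000000 ≤ t by omega)
    push_cast
    rw [Real.log_pow]
    nlinarith
  have hball := fun (l : ℕ) (hl : l + 1 ≤ (2 ^ t) ^ 9) =>
    params_ball (t := t) (a := 2 * W ^ 3) (b := 8 * W ^ 3 + 16) (by omega) hl
      (by rw [← hc₆]; omega) (by rw [← hc₆]; omega)
  generalize 2 ^ t = m at htm hs hball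
  have hm1 : 1 ≤ m := by omega
  have hpow : ∀ i j : ℕ, i ≤ j → m ^ i ≤ m ^ j := fun i j h => Nat.pow_le_pow_right hm1 h
  have hself : ∀ j : ℕ, j ≠ 0 → m ≤ m ^ j := fun j h => Nat.le_self_pow h m
  obtain ⟨𝒦, h𝒦, hsum⟩ := params_primes (m ^ 300) (2 ^ m)
  have hl : 1000 * (m ^ 2) ^ 4 + 1 ≤ m ^ 9 := by
    have h1 : 1 ≤ m ^ 8 := Nat.one_le_pow _ _ hm1
    have h2 : 1001 * m ^ 8 ≤ m * m ^ 8 := Nat.mul_le_mul_right _ (by omega)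
    have h3 : m ^ 9 = m * m ^ 8 := by ring
    have h4 : (m ^ 2) ^ 4 = m ^ 8 := by ring
    omega
  have hl2 : 2 * (1000 * (m ^ 2) ^ 4) ^ 2 ≤ m ^ 17 := by
    calc 2 * (1000 * (m ^ 2) ^ 4) ^ 2 = 2000000 * m ^ 16 := by ring
      _ ≤ m * m ^ 16 := Nat.mul_le_mul_right _ (by omega)
      _ = m ^ 17 := by ring
  refine ⟨m ^ 2, 1000 * (m ^ 2) ^ 4, m ^ 19, m ^ 20, m ^ 21, m ^ 17, m ^ 22, m ^ 300, 2 ^ m, 𝒦,
    rfl, Nat.one_le_pow _ _ hm1, Nat.one_le_pow _ _ hm1, Nat.one_le_pow _ _ hm1, ?_, ?_, ?_, hl2,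
    ?_, ?_, ?_, ?_, ?_, ?_, ?_, Nat.one_le_two_pow, h𝒦, params_gain hk (by omega) hs hsum,
    hball _ hl⟩
  · have h1 : (c₁ : ℝ) ≤ m := by exact_mod_cast (show c₁ ≤ m by omega)
    have h2 : 8 ≤ δ * m := by
      have := (div_le_iff₀ hδ).mp (hc₁.trans h1)
      linarith
    have h3 : 8 * (m : ℝ) ^ 19 ≤ δ * m * (m : ℝ) ^ 19 :=
      mul_le_mul_of_nonneg_right h2 (by positivity)
    push_cast
    have h4 : δ * (m : ℝ) ^ 20 = δ * m * (m : ℝ) ^ 19 := by ring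
    rw [h4]
    exact h3
  · refine params_exp hm1 (by rw [← hc₅]; omega) ?_
    have h1 : (c₂ : ℝ) ≤ m := by exact_mod_cast (show c₂ ≤ m by omega)
    have := (div_le_iff₀ hε).mp (hc₂.trans h1)
    linarith
  · exact params_count (by omega) (by rw [← hc₅]; omega)
  · calc T ^ 2 * m ^ 21 ≤ m * m ^ 21 := Nat.mul_le_mul_right _ (by rw [← hc₅]; omega)
      _ = m ^ 22 := by ring
  · rw [← hc₃]
    exact le_trans (by omega) (hself 22 (by norm_num))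
  · calc (600 * (k * (1000 * (m ^ 2) ^ 4)) ^ 4) ^ 8 = (c₄ * m ^ 32) ^ 8 := by
          rw [hc₄]; congr 1; ring
      _ ≤ (m * m ^ 32) ^ 8 := Nat.pow_le_pow_left (Nat.mul_le_mul_right _ (by omega)) _
      _ = m ^ 264 := by ring
      _ ≤ m ^ 300 := hpow _ _ (by norm_num)
  · calc (1000 * (m ^ 2) ^ 4 + 1) ^ 3 ≤ (m ^ 9) ^ 3 := Nat.pow_le_pow_left hl _
      _ = m ^ 27 := by ring
      _ ≤ m ^ 300 := hpow _ _ (by norm_num)
  · have h1 : m ≤ m ^ 17 := hself 17 (by norm_num)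
    have h2 : 2 * m ^ 17 ≤ m * m ^ 17 := Nat.mul_le_mul_right _ (by omega)
    have h3 : m * m ^ 17 = m ^ 18 := by ring
    have h4 : m ^ 18 ≤ m ^ 300 := hpow _ _ (by norm_num)
    omega
  · exact le_trans (by omega) (hself 300 (by norm_num))
  · exact le_trans (by omega) (hself 300 (by norm_num))

end Pool.Agent.Lib.MP_5ab464_nt
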