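import Pool.Agent.Lib.MP_5ab464_nt.H84Defs

/-! Few short vectors without short relations that mix like the cube measure. TASK SAMPLE. -/

open Finset

namespace Pool.Agent.Lib.MP_5ab464_nt

namespace Sample

/-- Sums of at most `L` signed unit vectors. -/
def rel (ι : Type) [Fintype ι] [DecidableEq ι] : ℕ → Finset (ι → ℤ)
  | 0 => {0}
  | L + 1 => (rel ι L ×ˢ (univ : Finset (Option (ι × Bool)))).image
      fun x => x.1 + x.2.elim 0 stp

theorem card_rel (ι : Type) [Fintype ι] [DecidableEq ι] (L : ℕ) :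
    (rel ι L).card ≤ (2 * Fintype.card ι + 1) ^ L := by
  induction L with
  | zero => simp [rel]
  | succ L ih =>
    refine card_image_le.trans ?_
    rw [card_product, card_univ, Fintype.card_option, Fintype.card_prod, Fintype.card_bool,
      pow_succ, mul_comm (Fintype.card ι)]
    exact Nat.mul_le_mul_right _ ih

theorem mem_rel {ι : Type} [Fintype ι] [DecidableEq ι] (L : ℕ) (n : ι → ℤ)
    (h : ∑ a, |n a| ≤ L) : n ∈ rel ι L := by
  induction L generalizing n with
  | zero =>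
    have h1 : ∑ a, |n a| = 0 :=
      le_antisymm (by simpa using h) (Finset.sum_nonneg fun _ _ => abs_nonneg _)
    rw [Finset.sum_eq_zero_iff_of_nonneg fun _ _ => abs_nonneg _] at h1
    simp only [rel, mem_singleton]
    funext a
    simpa using h1 a (mem_univ _)
  | succ L ih =>
    by_cases h0 : n = 0
    · refine mem_image.2 ⟨(0, none), mem_product.2 ⟨ih 0 (by simp), mem_univ _⟩, by simp [h0]⟩
    obtain ⟨a, ha⟩ := Function.ne_iff.1 h0
    have ha' : n a ≠ 0 := ha
    refine mem_image.2 ⟨(n - stp (a, decide (0 < n a)), some (a, decide (0 < n a))),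
      mem_product.2 ⟨ih _ ?_, mem_univ _⟩, by simp⟩
    rw [← Finset.add_sum_erase univ _ (mem_univ a)] at h ⊢
    have e : ∑ b ∈ univ.erase a, |(n - stp (a, decide (0 < n a)) : ι → ℤ) b|
        = ∑ b ∈ univ.erase a, |n b| := by
      refine Finset.sum_congr rfl fun b hb => ?_
      simp [stp, Pi.single_eq_of_ne (ne_of_mem_erase hb)]
    rw [e]
    have : |(n - stp (a, decide (0 < n a)) : ι → ℤ) a| + 1 ≤ |n a| := by
      simp only [stp, Pi.sub_apply, Pi.single_eq_same, decide_eq_true_eq]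
      split_ifs with h1
      · rw [abs_of_nonneg (by omega), abs_of_nonneg (by omega)]; omega
      · rw [abs_of_nonpos (by omega), abs_of_nonpos (by omega)]; omega
    push_cast at h
    linarith

/-- Pairs of vertices of the cube. -/
abbrev Th (e : ℕ) : Type := (Fin e → Bool) × (Fin e → Bool)

/-- Difference of two vertices of the cube. -/
def vec {e : ℕ} (θ : Th e) (c : Fin e) : ℤ := (if θ.2 c then 1 else 0) - (if θ.1 c then 1 else 0)

theorem card_relation {ι : Type} [Fintype ι] [DecidableEq ι] (e : ℕ) {n : ι → ℤ} (hn : n ≠ 0) :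
    (univ.filter fun w : ι → Th e => ∑ a, n a • vec (w a) = 0).card * 2 ^ e
      ≤ Fintype.card (ι → Th e) := by
  obtain ⟨a, ha⟩ := Function.ne_iff.1 hn
  have ha' : n a ≠ 0 := ha
  have e1 : 2 ^ e = (univ : Finset (Fin e → Bool)).card := by simp
  rw [e1, ← card_product, ← card_univ]
  refine card_le_card_of_injOn (fun x => Function.update x.1 a ((x.1 a).1, x.2))
    (fun _ _ => mem_univ _) ?_
  rintro ⟨w, β⟩ h1 ⟨w', β'⟩ h2 h
  simp only [coe_product, coe_filter, mem_univ, true_and, coe_univ, Set.mem_prod,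
    Set.mem_ofPred_eq, Set.mem_univ, and_true] at h1 h2
  have h3 := congrFun h a
  simp only [Function.update_self, Prod.mk.injEq] at h3
  have h4 : ∀ b, b ≠ a → w b = w' b := fun b hb => by
    simpa [Function.update_of_ne hb] using congrFun h b
  rw [← Finset.add_sum_erase univ _ (mem_univ a)] at h1 h2
  rw [Finset.sum_congr rfl fun b hb => by rw [h4 b (ne_of_mem_erase hb)]] at h1
  have h5 : n a • vec (w a) = n a • vec (w' a) := add_right_cancel (h1.trans h2.symm)
  have h6 : w a = w' a := by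
    refine Prod.ext h3.1 (funext fun c => ?_)
    have h7 := congrFun h5 c
    simp only [Pi.smul_apply, smul_eq_mul, vec, h3.1] at h7
    have h8 := sub_left_inj.1 (mul_left_cancel₀ ha' h7)
    cases h9 : (w a).2 c <;> cases h10 : (w' a).2 c <;> simp_all
  refine Prod.ext (funext fun b => ?_) h3.2
  by_cases hb : b = a
  · exact hb ▸ h6
  · exact h4 b hb

theorem hoeffding {𝒱 Θ : Type} [Fintype 𝒱] [DecidableEq 𝒱] [Fintype Θ] (D₀ : ℕ) {ε : ℝ}
    (hε : 0 < ε) (hε1 : ε ≤ 1) (g : Θ → ℝ) (hg : ∀ θ, |g θ| ≤ 2) (h0 : ∑ θ, g θ = 0) (v : 𝒱) :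
    ((univ.filter fun w : 𝒱 × Fin D₀ → Θ => ε * D₀ / 2 ≤ ∑ i, g (w (v, i))).card : ℝ)
      ≤ Real.exp (-(ε ^ 2 * D₀ / 64)) * Fintype.card (𝒱 × Fin D₀ → Θ) := by
  set t := ε / 16 with ht
  have ht0 : 0 < t := by positivity
  have h1 : ∑ θ, Real.exp (t * g θ) ≤ Real.exp (4 * t ^ 2) * Fintype.card Θ := by
    calc _ ≤ ∑ θ, (1 + 4 * t ^ 2 + t * g θ) := by
          refine Finset.sum_le_sum fun θ _ => ?_
          have h2 : |t * g θ| ≤ 2 * t := by
            rw [abs_mul, abs_of_pos ht0, mul_comm]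
            exact mul_le_mul_of_nonneg_right (hg θ) ht0.le
          have h3 := (abs_le.1 (Real.abs_exp_sub_one_sub_id_le
            (h2.trans (by linarith : 2 * t ≤ 1)))).2
          have h4 : (t * g θ) ^ 2 ≤ (2 * t) ^ 2 := by
            rw [← sq_abs]; exact pow_le_pow_left₀ (abs_nonneg _) h2 2
          linarith
      _ = (4 * t ^ 2 + 1) * Fintype.card Θ := by
          rw [Finset.sum_add_distrib, ← Finset.mul_sum, h0]; simp; ring
      _ ≤ _ := by gcongr; exact Real.add_one_le_exp _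
  calc _ = ∑ w : 𝒱 × Fin D₀ → Θ, if ε * D₀ / 2 ≤ ∑ i, g (w (v, i)) then (1 : ℝ) else 0 := by simp
    _ ≤ ∑ w : 𝒱 × Fin D₀ → Θ, Real.exp (-(t * (ε * D₀ / 2))) *
          ∏ a, if a.1 = v then Real.exp (t * g (w a)) else 1 := by
        refine Finset.sum_le_sum fun w _ => ?_
        have e : ∏ a : 𝒱 × Fin D₀, (if a.1 = v then Real.exp (t * g (w a)) else 1)
            = Real.exp (t * ∑ i, g (w (v, i))) := by
          rw [Fintype.prod_prod_type, Finset.prod_comm, Finset.mul_sum, Real.exp_sum]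
          simp
        rw [e, ← Real.exp_add]
        split_ifs with h
        · exact Real.one_le_exp (by nlinarith)
        · exact (Real.exp_pos _).le
    _ ≤ Real.exp (-(t * (ε * D₀ / 2))) * ∏ a : 𝒱 × Fin D₀,
          ((if a.1 = v then Real.exp (4 * t ^ 2) else 1) * Fintype.card Θ) := by
        rw [← Finset.mul_sum, ← Fintype.prod_sum
          (fun (a : 𝒱 × Fin D₀) θ => if a.1 = v then Real.exp (t * g θ) else 1)]
        refine mul_le_mul_of_nonneg_left (Finset.prod_le_prod (fun a _ =>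
          Finset.sum_nonneg fun θ _ => by split_ifs <;> positivity) fun a _ => ?_) (by positivity)
        split_ifs
        · exact h1
        · simp
    _ = _ := by
        rw [Finset.prod_mul_distrib, Fintype.prod_prod_type, Finset.prod_comm, ← mul_assoc]
        simp only [Finset.prod_ite_eq', mem_univ, if_true, Finset.prod_const, card_univ,
          Fintype.card_fin, Fintype.card_pi, Nat.cast_pow]
        rw [← Real.exp_nat_mul, ← Real.exp_add]
        congr 2
        rw [ht]; ring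

variable {G : Type} [AddCommGroup G] [Fintype G] [DecidableEq G]

theorem count_eq (A B : Finset G) (s : G) :
    ∑ χ : AddChar G ℂ, χ s * ((∑ x ∈ A, χ x) * (starRingEnd ℂ) (∑ y ∈ B, χ y))
      = Fintype.card G * ((A.filter fun x => x + s ∈ B).card : ℂ) := by
  simp only [map_sum, Finset.sum_mul_sum]
  simp only [Finset.mul_sum, ← AddChar.map_neg_eq_conj, ← AddChar.map_add_eq_mul]
  rw [Finset.sum_comm, Finset.card_filter]
  push_cast
  rw [Finset.mul_sum]
  refine Finset.sum_congr rfl fun x _ => ?_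
  rw [Finset.sum_comm]
  simp only [AddChar.sum_apply_eq_ite]
  rw [Finset.sum_congr rfl fun y _ => show _ = if x + s = y then (Fintype.card G : ℂ) else 0 by
    congr 1
    rw [← add_assoc, add_comm s x, ← sub_eq_add_neg, sub_eq_zero]]
  simp

theorem parseval (A : Finset G) :
    ∑ χ : AddChar G ℂ, ‖∑ x ∈ A, χ x‖ ^ 2 ≤ (Fintype.card G : ℝ) ^ 2 := by
  have h := count_eq A A 0
  simp only [AddChar.map_zero_eq_one, one_mul, Complex.mul_conj'] at h
  have h1 : ∑ χ : AddChar G ℂ, ‖∑ x ∈ A, χ x‖ ^ 2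
      = Fintype.card G * ((A.filter fun x => x + 0 ∈ A).card : ℝ) := by exact_mod_cast h
  rw [h1, sq]
  gcongr
  exact card_le_univ _

theorem mixing {Θ : Type} [Fintype Θ] (u : Θ → G) {D₀ : ℕ} (hD : 0 < D₀) (s : Fin D₀ → G) {ε : ℝ}
    (hε : 0 ≤ ε) (h : ∀ χ : AddChar G ℂ,
      ‖∑ i, (χ (s i) - (∑ θ, χ (u θ)) / Fintype.card Θ)‖ ≤ ε * D₀) (A B : Finset G)
    (hAB : ∀ i, ∀ x ∈ A, x + s i ∉ B) :
    (∑ θ, ((A.filter fun x => x + u θ ∈ B).card : ℝ)) / Fintype.card Θ ≤ ε * Fintype.card G := by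
  have hG : (0 : ℝ) < Fintype.card G := by exact_mod_cast Fintype.card_pos
  have hD' : (0 : ℝ) < D₀ := by exact_mod_cast hD
  have h1 : ∑ χ : AddChar G ℂ, (∑ i, (χ (s i) - (∑ θ, χ (u θ)) / Fintype.card Θ)) *
      ((∑ x ∈ A, χ x) * (starRingEnd ℂ) (∑ y ∈ B, χ y)) = -((D₀ * Fintype.card G *
        ((∑ θ, ((A.filter fun x => x + u θ ∈ B).card : ℝ)) / Fintype.card Θ) : ℝ) : ℂ) := by
    simp only [Finset.sum_mul _ _ (_ * (starRingEnd ℂ) _), sub_mul]
    rw [Finset.sum_comm]
    simp only [Finset.sum_sub_distrib, count_eq, div_mul_eq_mul_div, ← Finset.sum_div,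
      Finset.sum_mul _ _ (_ * (starRingEnd ℂ) _)]
    rw [Finset.sum_eq_zero fun i _ => by
      rw [filter_eq_empty_iff.2 (hAB i), card_empty, Nat.cast_zero, mul_zero]]
    rw [Finset.sum_comm (s := (univ : Finset (AddChar G ℂ)))]
    simp only [count_eq, ← Finset.mul_sum, Finset.sum_const, card_univ, Fintype.card_fin,
      nsmul_eq_mul]
    push_cast
    ring
  have h2 := congrArg norm h1
  rw [norm_neg, Complex.norm_real, Real.norm_of_nonneg (mul_nonneg (mul_pos hD' hG).le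
    (div_nonneg (Finset.sum_nonneg fun _ _ => Nat.cast_nonneg _) (Nat.cast_nonneg _)))] at h2
  have h3 : _ ≤ ∑ χ : AddChar G ℂ, ε * D₀ * ((‖∑ x ∈ A, χ x‖ ^ 2 + ‖∑ x ∈ B, χ x‖ ^ 2) / 2) :=
    h2.symm.le.trans ((norm_sum_le _ _).trans (Finset.sum_le_sum fun χ _ => by
      rw [norm_mul, norm_mul, RCLike.norm_conj]
      exact mul_le_mul (h χ) (by nlinarith [sq_nonneg (‖∑ x ∈ A, χ x‖ - ‖∑ x ∈ B, χ x‖)])
        (by positivity) (by positivity)))
  rw [← Finset.mul_sum, ← Finset.sum_div, Finset.sum_add_distrib] at h3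
  have h4 : ε * D₀ * ((∑ χ : AddChar G ℂ, ‖∑ x ∈ A, χ x‖ ^ 2
      + ∑ χ : AddChar G ℂ, ‖∑ x ∈ B, χ x‖ ^ 2) / 2) ≤ ε * D₀ * (Fintype.card G : ℝ) ^ 2 := by
    gcongr
    linarith [parseval A, parseval B]
  refine le_of_mul_le_mul_left (a := (D₀ : ℝ) * Fintype.card G) ((h3.trans h4).trans (le_of_eq ?_))
    (by positivity)
  ring

theorem cube_eq {e N : ℕ} [NeZero N] (A B : Finset (Fin e → ZMod N)) :
    ∑ x, cubeAv A x * cubeAv B x = (∑ θ : Th e,
      ((A.filter fun x => (x + fun c => (vec θ c : ZMod N)) ∈ B).card : ℝ))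
        / Fintype.card (Th e) := by
  simp only [cubeAv, div_mul_div_comm, ← Finset.sum_div]
  congr 1
  · simp only [Finset.card_filter]
    push_cast
    simp only [Finset.sum_mul_sum]
    rw [Finset.sum_comm, Fintype.sum_prod_type]
    refine Finset.sum_congr rfl fun β _ => ?_
    rw [Finset.sum_comm]
    refine Finset.sum_congr rfl fun β' _ => ?_
    have e1 : ∀ f : (Fin e → ZMod N) → ℝ, ∑ x ∈ A, f x = ∑ x, if x ∈ A then f x else 0 :=
      fun f => by simp
    rw [e1, ← Equiv.sum_comp (Equiv.addRight (fun c => if β c then (1 : ZMod N) else 0))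
      (fun x => if x ∈ A then _ else _)]
    refine Finset.sum_congr rfl fun x _ => ?_
    have : ((x + fun c => if β c then (1 : ZMod N) else 0) + fun c => (vec (β, β') c : ZMod N))
        = x + fun c => if β' c then (1 : ZMod N) else 0 := by
      funext c
      simp only [Pi.add_apply, vec]
      push_cast
      ring
    simp only [Equiv.coe_addRight, this, ite_mul, one_mul, zero_mul]
  · simp

end Sample

open Sample in
theorem exists_sample (𝒱 : Type) [Fintype 𝒱] [DecidableEq 𝒱] (e N D₀ L : ℕ) [NeZero N] {ε : ℝ}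
    (hε : 0 < ε) (hε1 : ε ≤ 1) (hD : 0 < D₀)
    (h1 : 8 * Fintype.card 𝒱 * (N : ℝ) ^ e ≤ Real.exp (ε ^ 2 * D₀ / 64))
    (h2 : 2 * (2 * (Fintype.card 𝒱 * D₀) + 1) ^ L < 2 ^ e) :
    ∃ s : 𝒱 × Fin D₀ → Fin e → ℤ, (∀ a c, |s a c| ≤ 1) ∧ Free L s ∧
      ∀ (v : 𝒱) (A B : Finset (Fin e → ZMod N)),
        (∀ i, ∀ x ∈ A, (x + fun c => (s (v, i) c : ZMod N)) ∉ B) →
          ∑ x, cubeAv A x * cubeAv B x ≤ ε * (N : ℝ) ^ e := by
  classical
  let u : Th e → Fin e → ZMod N := fun θ c => vec θ c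
  let z : AddChar (Fin e → ZMod N) ℂ → Th e → ℂ := fun χ θ =>
    χ (u θ) - (∑ θ, χ (u θ)) / Fintype.card (Th e)
  let ζ : Fin 4 → ℂ := ![1, -1, Complex.I, -Complex.I]
  have hζ : ∀ j, ‖ζ j‖ = 1 := fun j => by fin_cases j <;> simp [ζ]
  have hT : (0 : ℝ) < Fintype.card (Th e) := by exact_mod_cast Fintype.card_pos
  have hT' : (Fintype.card (Th e) : ℂ) ≠ 0 := by exact_mod_cast Fintype.card_pos.ne'
  obtain ⟨Ω, hΩ⟩ : ∃ Ω : ℝ, Ω = Fintype.card (𝒱 × Fin D₀ → Th e) := ⟨_, rfl⟩
  have hΩ0 : 0 < Ω := by rw [hΩ]; exact_mod_cast Fintype.card_pos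
  let B1 := ((rel (𝒱 × Fin D₀) L).erase 0).biUnion fun n =>
    univ.filter fun w : 𝒱 × Fin D₀ → Th e => ∑ a, n a • vec (w a) = 0
  let B2 := (univ : Finset (𝒱 × AddChar (Fin e → ZMod N) ℂ × Fin 4)).biUnion fun x =>
    univ.filter fun w : 𝒱 × Fin D₀ → Th e =>
      ε * D₀ / 2 ≤ ∑ i, (ζ x.2.2 * z x.2.1 (w (x.1, i))).re
  have c1 : 2 * (B1.card : ℝ) < Ω := by
    have h3 : B1.card * 2 ^ e ≤ (2 * (Fintype.card 𝒱 * D₀) + 1) ^ L *
        Fintype.card (𝒱 × Fin D₀ → Th e) := by
      refine (Nat.mul_le_mul_right _ card_biUnion_le).trans ?_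
      rw [Finset.sum_mul]
      refine (Finset.sum_le_card_nsmul _ _ _ fun n hn =>
        card_relation e (ne_of_mem_erase hn)).trans (Nat.mul_le_mul_right _ ?_)
      simpa using card_erase_le.trans (card_rel (𝒱 × Fin D₀) L)
    have h4 : 2 * B1.card < Fintype.card (𝒱 × Fin D₀ → Th e) := by
      refine lt_of_mul_lt_mul_right (a := 2 ^ e) ?_ (Nat.zero_le _)
      nlinarith [Nat.mul_lt_mul_of_pos_right h2 (Fintype.card_pos (α := 𝒱 × Fin D₀ → Th e))]
    rw [hΩ]
    exact_mod_cast h4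
  have c2 : 2 * (B2.card : ℝ) ≤ Ω := by
    have h3 : (B2.card : ℝ) ≤ Fintype.card (𝒱 × AddChar (Fin e → ZMod N) ℂ × Fin 4) •
        (Real.exp (-(ε ^ 2 * D₀ / 64)) * Ω) := by
      refine le_trans (Nat.cast_le.2 card_biUnion_le) ?_
      rw [Nat.cast_sum, hΩ]
      refine Finset.sum_le_card_nsmul _ _ _ fun x _ =>
        hoeffding D₀ hε hε1 (fun θ => (ζ x.2.2 * z x.2.1 θ).re) (fun θ => ?_) ?_ x.1
      · refine (Complex.abs_re_le_norm _).trans ?_
        rw [norm_mul, hζ, one_mul]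
        refine (norm_sub_le _ _).trans ?_
        rw [AddChar.norm_apply, norm_div, Complex.norm_natCast]
        have : ‖∑ θ, x.2.1 (u θ)‖ ≤ Fintype.card (Th e) :=
          (norm_sum_le _ _).trans (by simp)
        linarith [(div_le_one hT).2 this]
      · rw [← Complex.re_sum, ← Finset.mul_sum]
        simp only [z, Finset.sum_sub_distrib, Finset.sum_const, card_univ, nsmul_eq_mul]
        rw [mul_div_cancel₀ _ hT', sub_self, mul_zero, Complex.zero_re]
    simp only [Fintype.card_prod, AddChar.card_eq, Fintype.card_pi, ZMod.card, Finset.prod_const,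
      card_univ, Fintype.card_fin, nsmul_eq_mul] at h3
    push_cast at h3
    have h4 := mul_le_mul_of_nonneg_right h1
      (mul_pos (Real.exp_pos (-(ε ^ 2 * D₀ / 64))) hΩ0).le
    rw [← mul_assoc (Real.exp _), ← Real.exp_add, add_neg_cancel, Real.exp_zero] at h4
    linarith
  obtain ⟨w, -, hw⟩ : ∃ w ∈ univ, w ∉ B1 ∪ B2 := by
    refine exists_mem_notMem_of_card_lt_card ((card_union_le _ _).trans_lt ?_)
    have : (B1.card : ℝ) + B2.card < Ω := by linarith
    rw [hΩ] at this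
    exact_mod_cast this
  simp only [B1, B2, mem_union, mem_biUnion, mem_filter, mem_univ, true_and, not_or, not_exists,
    not_and, not_le] at hw
  refine ⟨fun a => vec (w a), fun a c => ?_, fun n hn h => ?_, fun v A B hAB => ?_⟩
  · simp only [vec]; split_ifs <;> simp
  · by_contra h0
    exact hw.1 n (mem_erase.2 ⟨h0, mem_rel L n hn⟩) h
  · rw [cube_eq]
    have := mixing u hD (fun i => u (w (v, i))) hε.le (fun χ => by
      have k : ∀ j, (ζ j * ∑ i, z χ (w (v, i))).re < ε * D₀ / 2 := fun j => by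
        rw [Finset.mul_sum, Complex.re_sum]
        exact hw.2 (v, χ, j)
      have k0 := k 0
      have k1 := k 1
      have k2 := k 2
      have k3 := k 3
      change ‖∑ i, z χ (w (v, i))‖ ≤ _
      generalize ∑ i, z χ (w (v, i)) = y at *
      simp [ζ] at k0 k1 k2 k3
      refine (Complex.norm_le_abs_re_add_abs_im y).trans ?_
      linarith [abs_lt.2 ⟨(by linarith : -(ε * D₀ / 2) < y.re), k0⟩,
        abs_lt.2 ⟨(by linarith : -(ε * D₀ / 2) < y.im), k3⟩]) A B hAB
    simpa using this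

end Pool.Agent.Lib.MP_5ab464_nt
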