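import Pool.Agent.Lib.MP_5ab464_nt.H84Inter
import Pool.Agent.Lib.MP_5ab464_nt.H84NoSp
import Pool.Agent.Lib.MP_5ab464_nt.H84Ball
import Pool.Agent.Lib.MP_5ab464_nt.H84Colour
import Pool.Agent.Lib.MP_5ab464_nt.H84Sample
import Pool.Agent.Lib.MP_5ab464_nt.H84Params

/-! The new moves of one stage of the construction. -/

open Finset

namespace Pool.Agent.Lib.MP_5ab464_nt

/-- `x` has no prime factor up to `y`. -/
def Rough (y : ℕ) (x : ℤ) : Prop := ∀ p : ℕ, p.Prime → p ≤ y → ¬ (p : ℤ) ∣ x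

namespace Mov

theorem exists_big : ∀ {e : ℕ} (S : Fin e → ℕ → Prop) (_ : ∀ c K, ∃ n, K ≤ n ∧ S c n) (K l : ℕ),
    ∃ w : Fin e → ℕ, (∀ c, S c (w c)) ∧
      ∀ f : Fin e → ℤ, f ≠ 0 → (∀ c, |f c| ≤ l) → (K : ℤ) < |∑ c, (w c : ℤ) * f c|
  | 0, _, _, _, _ => ⟨Fin.elim0, fun c => c.elim0, fun f hf => absurd (Subsingleton.elim _ _) hf⟩
  | e + 1, S, hS, K, l => by
    obtain ⟨w, h1, h2⟩ := exists_big (fun c => S c.succ) (fun c => hS c.succ) K l
    obtain ⟨n, hn, h3⟩ := hS 0 (K + 1 + ∑ c, w c * l)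
    refine ⟨Fin.cons n w, fun c => Fin.cases h3 h1 c, fun f hf hl => ?_⟩
    rw [Fin.sum_univ_succ]
    simp only [Fin.cons_zero, Fin.cons_succ]
    by_cases h0 : f 0 = 0
    · rw [h0, mul_zero, zero_add]
      refine h2 (fun c => f c.succ) (fun h => hf (funext fun c => ?_)) fun c => hl _
      exact Fin.cases h0 (fun c => congrFun h c) c
    · have h4 : |∑ c, (w c : ℤ) * f c.succ| ≤ ∑ c, (w c : ℤ) * l :=
        (abs_sum_le_sum_abs _ _).trans (sum_le_sum fun c _ => by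
          rw [abs_mul, Nat.abs_cast]
          exact mul_le_mul_of_nonneg_left (hl _) (Nat.cast_nonneg _))
      have h5 : (n : ℤ) ≤ |(n : ℤ) * f 0| := by
        rw [abs_mul, Nat.abs_cast]
        exact le_mul_of_one_le_right (Nat.cast_nonneg _) (Int.one_le_abs h0)
      have h6 : (K : ℤ) + 1 + ∑ c, (w c : ℤ) * l ≤ n := by exact_mod_cast hn
      have h7 := abs_add_le ((n : ℤ) * f 0 + ∑ c, (w c : ℤ) * f c.succ)
        (-∑ c, (w c : ℤ) * f c.succ)
      rw [add_neg_cancel_right, abs_neg] at h7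
      linarith

theorem crt (𝒦 : Finset Nat.Primes) (x : ∀ p : Nat.Primes, ZMod p) (K : ℕ) :
    ∃ n : ℕ, K ≤ n ∧ ∀ p ∈ 𝒦, (n : ZMod p) = x p := by
  obtain ⟨n, hn⟩ := Nat.chineseRemainderOfFinset (fun p : Nat.Primes => (x p).val)
    (fun p => (p : ℕ)) 𝒦 (fun p _ => p.2.ne_zero) fun p _ p' _ h =>
      (Nat.coprime_primes p.2 p'.2).2 fun e => h (Subtype.ext e)
  refine ⟨n + (∏ p ∈ 𝒦, (p : ℕ)) * K, le_add_left (Nat.le_mul_of_pos_left _
    (prod_pos fun p _ => p.2.pos)), fun p hp => ?_⟩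
  have : NeZero (p : ℕ) := ⟨p.2.ne_zero⟩
  rw [Nat.cast_add, Nat.cast_mul, (ZMod.natCast_eq_zero_iff _ _).2 (dvd_prod_of_mem _ hp),
    zero_mul, add_zero, (ZMod.natCast_eq_natCast_iff _ _ _).2 (hn p hp), ZMod.natCast_zmod_val]

section
variable {ι : Type} [Fintype ι] [DecidableEq ι]

theorem abs_add_single (v : ι → ℤ) (a : ι) {σ : ℤ} (hσ : |σ| = 1) :
    ∑ b, |(v + Pi.single a σ : ι → ℤ) b| ≤ ∑ b, |v b| + 1 := by
  have : ∑ b, |(Pi.single a σ : ι → ℤ) b| = 1 := by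
    rw [sum_eq_single a (fun b _ h => by simp [h]) (by simp), Pi.single_eq_same, hσ]
  rw [← this, ← sum_add_distrib]
  exact sum_le_sum fun b _ => abs_add_le _ _

omit [DecidableEq ι] in
theorem abs_sub_sum (u v : ι → ℤ) : ∑ b, |(u - v) b| ≤ ∑ b, |u b| + ∑ b, |v b| := by
  rw [← sum_add_distrib]
  exact sum_le_sum fun b _ => abs_sub _ _

theorem sum_single (r : ι → ℤ) (a : ι) (σ : ℤ) :
    ∑ b, (Pi.single a σ : ι → ℤ) b * r b = σ * r a := by
  rw [sum_eq_single a (fun b _ h => by simp [h]) (by simp), Pi.single_eq_same]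

theorem ball_rep (V₀ : Finset ℤ) (r : ι → ℤ) (c : ℤ) : ∀ (n : ℕ),
    ∀ y ∈ ball V₀ (fun y z => ∃ a, z = y + r a) c n,
      ∃ v : ι → ℤ, ∑ a, |v a| ≤ n ∧ y = c + ∑ a, v a * r a
  | 0, y, hy => ⟨0, by simp, by simpa [ball] using hy⟩
  | n + 1, y, hy => by
    simp only [ball, mem_union, mem_filter] at hy
    rcases hy with hy | ⟨-, z, hz, ⟨a, h⟩ | ⟨a, h⟩⟩
    · obtain ⟨v, h1, h2⟩ := ball_rep V₀ r c n y hy
      exact ⟨v, by push_cast; linarith, h2⟩
    · obtain ⟨v, h1, h2⟩ := ball_rep V₀ r c n z hz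
      refine ⟨v + Pi.single a 1, (abs_add_single v a abs_one).trans (by push_cast; linarith), ?_⟩
      simp only [Pi.add_apply, add_mul, sum_add_distrib, sum_single]
      linarith
    · obtain ⟨v, h1, h2⟩ := ball_rep V₀ r c n z hz
      refine ⟨v + Pi.single a (-1), (abs_add_single v a (by simp)).trans
        (by push_cast; linarith), ?_⟩
      simp only [Pi.add_apply, add_mul, sum_add_distrib, sum_single]
      linarith

theorem colour_of_free (V₀ : Finset ℤ) (r : ι → ℤ) {M l : ℕ} (hM : 1 ≤ M) (hl : l = 1000 * M ^ 4)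
    (hf : ∀ v : ι → ℤ, ∑ a, |v a| ≤ 4 * l → ∑ a, v a * r a = 0 → v = 0)
    (hg : ∀ x, (ball V₀ (fun y z => ∃ a, z = y + r a) x l).card < 2 ^ M) :
    ∃ ψ : ℤ → Fin 4, ∀ t ∈ V₀, ∀ a, t + r a ∈ V₀ → ψ t ≠ ψ (t + r a) := by
  classical
  have hrep : ∀ c y : ℤ, ∃ v : ι → ℤ, y ∈ ball V₀ (fun y z => ∃ a, z = y + r a) c l →
      ∑ a, |v a| ≤ l ∧ y = c + ∑ a, v a * r a := fun c y => by
    by_cases h : y ∈ ball V₀ (fun y z => ∃ a, z = y + r a) c l
    · exact (ball_rep V₀ r c l y h).imp fun v hv _ => hv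
    · exact ⟨0, fun h' => absurd h' h⟩
  choose v hv using hrep
  have hl1 : (1 : ℤ) ≤ l := by
    have : 1 ≤ M ^ 4 := Nat.one_le_pow _ _ hM
    omega
  have H := four_colour V₀ (fun y z => ∃ a, z = y + r a) hM (fun c y => ∑ a, v c y a)
  rw [← hl] at H
  obtain ⟨ψ, hψ⟩ := H
    (by
      rintro c - x hx y hy ⟨a, ha⟩
      obtain ⟨h1, h2⟩ := hv c x hx
      obtain ⟨h3, h4⟩ := hv c y hy
      have h5 := abs_add_single (v c x) a abs_one
      have h7 := abs_sub_sum (v c y) (v c x + Pi.single a 1)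
      have h6 := hf (v c y - (v c x + Pi.single a 1)) (by linarith) (by
          simp only [Pi.add_apply, Pi.sub_apply, add_mul, sub_mul, sum_add_distrib,
            sum_sub_distrib, sum_single]
          linarith)
      rw [sub_eq_zero.1 h6]
      simp [sum_add_distrib])
    (by
      rintro c - c' - x hx y hy hx' hy'
      obtain ⟨h1, h2⟩ := hv c x hx
      obtain ⟨h3, h4⟩ := hv c y hy
      obtain ⟨h5, h6⟩ := hv c' x hx'
      obtain ⟨h7, h8⟩ := hv c' y hy'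
      have e1 := abs_sub_sum (v c y - v c x) (v c' y - v c' x)
      have e2 := abs_sub_sum (v c y) (v c x)
      have e3 := abs_sub_sum (v c' y) (v c' x)
      have h9 := hf ((v c y - v c x) - (v c' y - v c' x)) (by linarith) (by
          simp only [Pi.sub_apply, sub_mul, sum_sub_distrib]
          linarith)
      have := congrArg (fun u : ι → ℤ => ∑ a, u a) (sub_eq_zero.1 h9)
      simpa only [Pi.sub_apply, sum_sub_distrib] using this)
    fun x _ => hg x
  exact ⟨ψ, fun t ht a ha => hψ t ht _ ha ⟨a, rfl⟩⟩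

end

end Mov

open Mov in
theorem moves {k W : ℕ} (hk : 10 ^ 6 ≤ k) (hW : 1 ≤ W) {Q : Finset ℕ}
    (hQ : ∀ q ∈ Q, q.Prime ∧ 2 < q ∧ ¬ q ∣ W) {δ : ℝ} (hδ : 0 < δ) (hδ1 : δ ≤ 1)
    (hP : ∏ q ∈ Q, ((q : ℝ) - 1) ≤ δ / 8 * ∏ q ∈ Q, (q : ℝ)) (y₀ : ℕ) :
    ∃ (S : Finset ℤ) (y' : ℕ), y₀ ≤ y' ∧ (∀ r ∈ S, (y' : ℤ) < |r|) ∧
      (∀ r ∈ S, OddBox (q := fun q : Q => (q : ℕ)) fun q : Q => ((W * r : ℤ) : ZMod q)) ∧
      (∀ A : Set ℕ, (∀ M : ℕ, ∃ N : ℕ, M ≤ N ∧ 2 * δ * N ≤ cnt A N) →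
        ∃ a ∈ A, ∃ b ∈ A, ∃ r ∈ S, (b : ℤ) = a + W * r) ∧
      ∀ (V₀ : Finset ℤ) (off : ℤ → Fin k → Fin W), (∀ t ∈ V₀, Function.Injective (off t) ∧
        ∀ m, Rough y' (W * t + 2 + (off t m : ℕ))) →
        ∃ ψ : ℤ → Fin 4, ∀ t ∈ V₀, ∀ r ∈ S, t + r ∈ V₀ → ψ t ≠ ψ (t + r) := by
  classical
  set T := ∏ q ∈ Q, q with hT
  have hT1 : 1 ≤ T := prod_pos fun q hq => (hQ q hq).1.pos
  have hTr : (1 : ℝ) ≤ T := by exact_mod_cast hT1
  obtain ⟨M, l, e, N, D₀, L, D, z₁, z, 𝒦, hl, hM, hN1, hD₀, hN, p1, p2, hL, hD, hD2, hz1, hz2, hz3,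
    hz4, hz5, hz, h𝒦, hgain, hball⟩ := params hk hW hT1 hδ
  have : NeZero N := ⟨by omega⟩
  have hl2 : 2 ≤ l := by
    have : 1 ≤ M ^ 4 := Nat.one_le_pow _ _ hM
    omega
  have hV : Fintype.card {jj : Fin T × Fin T // OddPair Q jj} ≤ T ^ 2 := by
    simpa [sq] using Fintype.card_subtype_le fun jj : Fin T × Fin T => OddPair Q jj
  obtain ⟨s, hs, hF, hmix⟩ := exists_sample {jj : Fin T × Fin T // OddPair Q jj} e N D₀ L
    (ε := δ ^ 3 / (64 * T ^ 2)) (by positivity) (by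
      rw [div_le_one (by positivity)]
      have := pow_le_one₀ hδ.le hδ1 (n := 3)
      nlinarith) hD₀ (le_trans (by gcongr; exact_mod_cast hV) p1) (lt_of_le_of_lt (by gcongr) p2)
  have hι : Fintype.card ({jj : Fin T × Fin T // OddPair Q jj} × Fin D₀) ≤ D := by
    rw [Fintype.card_prod, Fintype.card_fin]
    exact (Nat.mul_le_mul_right _ hV).trans hD
  have hD1 : 1 ≤ D := le_trans (Nat.mul_pos (by positivity) hD₀) hD
  have hW3 : 1 ≤ W ^ 3 := Nat.one_le_pow _ _ hW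
  obtain ⟨φ, hφ⟩ := no_spread (E₀ := 8 * W ^ 3 + 16) hs hF hL le_rfl hW (by omega) (by omega) hι hD1
    hD2 hz1 hz2 hz3 hz4 hz 𝒦 h𝒦 hgain
  set A := ∏ p ∈ 𝒦, (p : ℕ) with hA
  have hco : (W * A).Coprime T := Nat.Coprime.prod_right fun q hq =>
    ((Nat.Prime.coprime_iff_not_dvd (hQ q hq).1).2 fun h => by
      rcases (Nat.Prime.dvd_mul (hQ q hq).1).1 h with h | h
      · exact (hQ q hq).2.2 h
      · obtain ⟨p, hp, h⟩ := ((hQ q hq).1.prime.dvd_finsetProd_iff _).1 h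
        have h1 := (Nat.prime_dvd_prime_iff_eq (hQ q hq).1 p.2).1 h
        have h2 : q ≤ T := Nat.le_of_dvd hT1 (dvd_prod_of_mem _ hq)
        have := (h𝒦 p hp).1
        omega).symm
  obtain ⟨P, hP1, hP2⟩ : ∃ P : ℕ, W * P ≡ 1 [MOD T] ∧ A ∣ P := by
    refine ⟨A * (W * A) ^ (T.totient - 1), ?_, dvd_mul_right _ _⟩
    rw [← mul_assoc, ← pow_succ', Nat.sub_add_cancel (Nat.totient_pos.2 hT1)]
    exact Nat.ModEq.pow_totient hco
  obtain ⟨w, hw1, hw2⟩ := exists_big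
    (fun c n => ∀ p ∈ 𝒦, (n : ZMod p) = ((W * T : ℕ) : ZMod p)⁻¹ * φ p c)
    (fun c K => crt 𝒦 _ K) (y₀ + z + P * T * (4 * l)) (4 * l)
  set r : {jj : Fin T × Fin T // OddPair Q jj} × Fin D₀ → ℤ := fun a =>
    P * (((a.1.1.2 : ℕ) : ℤ) - (a.1.1.1 : ℕ)) + T * ∑ c, (w c : ℤ) * s a c with hr
  have hbig : ∀ v : {jj : Fin T × Fin T // OddPair Q jj} × Fin D₀ → ℤ, v ≠ 0 →
      ∑ a, |v a| ≤ 4 * l → ((y₀ + z : ℕ) : ℤ) < |∑ a, v a * r a| := by
    intro v hv hv'
    have h1 := hw2 (∑ a, v a • s a) (fun h => hv (hF v (hv'.trans (by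
      have : 4 * l ≤ L := by nlinarith
      exact_mod_cast this)) h)) fun c => by
        rw [Finset.sum_apply]
        refine (abs_sum_le_sum_abs _ _).trans (le_trans (sum_le_sum fun a _ => ?_)
          (hv'.trans (by push_cast; rfl)))
        rw [Pi.smul_apply, smul_eq_mul, abs_mul]
        exact mul_le_of_le_one_right (abs_nonneg _) (hs a c)
    have h2 : ∑ a, v a * r a = ∑ a, v a * (P * (((a.1.1.2 : ℕ) : ℤ) - (a.1.1.1 : ℕ))) +
        T * ∑ c, (w c : ℤ) * (∑ a, v a • s a) c := by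
      simp only [hr, mul_add, sum_add_distrib, Finset.sum_apply, Pi.smul_apply, smul_eq_mul,
        mul_sum]
      rw [sum_comm (s := univ) (t := univ)
        (f := fun c a => (T : ℤ) * ((w c : ℤ) * (v a * s a c)))]
      congr 1
      exact sum_congr rfl fun a _ => sum_congr rfl fun c _ => by ring
    have h3 : |∑ a, v a * (P * (((a.1.1.2 : ℕ) : ℤ) - (a.1.1.1 : ℕ)))| ≤ P * T * (4 * l) := by
      refine (abs_sum_le_sum_abs _ _).trans (le_trans (sum_le_sum
        (g := fun a => (P * T : ℤ) * |v a|) fun a _ => ?_) ?_)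
      · have h4 := a.1.1.1.2
        have h5 := a.1.1.2.2
        have h6 : |((a.1.1.2 : ℕ) : ℤ) - (a.1.1.1 : ℕ)| ≤ T := abs_le.2 ⟨by omega, by omega⟩
        rw [abs_mul, abs_mul, Nat.abs_cast, mul_comm]
        gcongr
      · rw [← mul_sum]
        gcongr
    have h4 : |∑ c, (w c : ℤ) * (∑ a, v a • s a) c| ≤
        |(T : ℤ) * ∑ c, (w c : ℤ) * (∑ a, v a • s a) c| := by
      rw [abs_mul, Nat.abs_cast]
      exact le_mul_of_one_le_left (abs_nonneg _) (by exact_mod_cast hT1)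
    have h5 := abs_sub (∑ a, v a * r a)
      (∑ a, v a * (P * (((a.1.1.2 : ℕ) : ℤ) - (a.1.1.1 : ℕ))))
    rw [h2, add_sub_cancel_left, ← h2] at h5
    push_cast at h1 ⊢
    linarith
  refine ⟨univ.image r, y₀ + z, le_self_add, fun x hx => ?_, fun x hx => ?_, fun B hB => ?_,
    fun V₀ off hoff => ?_⟩
  · obtain ⟨a, -, rfl⟩ := mem_image.1 hx
    have h1 := abs_add_single 0 a abs_one
    have := hbig (Pi.single a 1) (fun h => by simpa using congrFun h a)
      (by simp only [zero_add, Pi.zero_apply, abs_zero, sum_const_zero] at h1; omega)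
    rwa [sum_single, one_mul] at this
  · obtain ⟨a, -, rfl⟩ := mem_image.1 hx
    refine (congrArg (OddBox (q := fun q : Q => (q : ℕ))) (funext fun q => ?_)).mpr a.1.2
    have h1 : (T : ZMod q) = 0 := (ZMod.natCast_eq_zero_iff _ _).2 (dvd_prod_of_mem _ q.2)
    have h2 : (W : ZMod q) * P = 1 := by
      have := (ZMod.natCast_eq_natCast_iff _ _ _).2 (hP1.of_dvd (dvd_prod_of_mem _ q.2))
      exact_mod_cast this
    simp only [hr, Pi.sub_apply]
    push_cast
    rw [h1, zero_mul, add_zero, ← mul_assoc, h2, one_mul]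
  · obtain ⟨x, hx⟩ := exists_window
      (fun u : Fin T × (Fin e → Fin N) => W * (P * u.1 + T * ∑ c, w c * u.2 c)) hδ hB
    obtain ⟨u, hu, u', hu', a, ha, hc⟩ := window_edge (fun q hq => ⟨(hQ q hq).1, (hQ q hq).2.1⟩) hT
      hδ (by rwa [hT, Nat.cast_prod]) hN s hs hmix _ (le_trans (by simp) hx)
    refine ⟨_, (mem_filter.1 hu).2, _, (mem_filter.1 hu').2, r a, mem_image_of_mem _ (mem_univ _),
      ?_⟩
    simp only [hr, ha]
    push_cast
    simp only [hc, mul_add, sum_add_distrib]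
    ring
  · obtain ⟨ψ, hψ⟩ := colour_of_free V₀ r hM hl (fun v hv h => by
      by_contra h0
      have := hbig v h0 hv
      rw [h, abs_zero] at this
      omega) fun x => lt_of_le_of_lt (ball_bound (B := z ^ 14) (by omega) (by omega) hι hD1 hW hD2
        (Nat.one_le_pow _ _ hz) V₀ r off (fun t ht => (hoff t ht).1) (by
          intro v n i E h1 h2 h3 h4 𝒯 h5 h6
          refine hφ (fun p => -((W * v + 2 : ℤ) : ZMod p)) n i E h1 h2 h3 h4 𝒯 h5
            fun ω hω => ⟨(h6 ω hω).1, fun p hp j m h => ?_⟩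
          obtain ⟨h7, h8⟩ := (h6 ω hω).2 j
          have hp' := h𝒦 p hp
          refine (hoff _ h7).2 m p p.2 (by omega) ((ZMod.intCast_zmod_eq_zero_iff_dvd _ _).1 ?_)
          have : Fact (p : ℕ).Prime := ⟨p.2⟩
          have e1 : ((W * T : ℕ) : ZMod p) ≠ 0 := fun h => by
            rcases (Nat.Prime.dvd_mul p.2).1 ((ZMod.natCast_eq_zero_iff _ _).1 h) with h | h
            · have := Nat.le_of_dvd hW h
              omega
            · have := Nat.le_of_dvd hT1 h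
              omega
          have e2 : (P : ZMod p) = 0 :=
            (ZMod.natCast_eq_zero_iff _ _).2 ((dvd_prod_of_mem _ hp).trans hP2)
          have e3 : ∀ a, (W : ZMod p) * (r a : ZMod p) = ∑ c, (s a c : ZMod p) * φ p c := by
            intro a
            simp only [hr]
            push_cast
            rw [e2, zero_mul, zero_add, ← mul_assoc, mul_sum]
            refine sum_congr rfl fun c _ => ?_
            rw [hw1 c p hp, ← Nat.cast_mul, ← mul_assoc, mul_inv_cancel_left₀ e1, mul_comm]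
          have e4 : (W : ZMod p) * ∑ a, (pos ω j a : ZMod p) * (r a : ZMod p) =
              (fun x => (((∑ a, pos ω j a • s a) x : ℤ) : ZMod p)) ⬝ᵥ φ p := by
            simp only [dotProduct, Finset.sum_apply, Pi.smul_apply, smul_eq_mul]
            push_cast
            simp only [sum_mul, mul_sum]
            rw [sum_comm]
            refine sum_congr rfl fun a _ => ?_
            rw [mul_left_comm, e3, mul_sum]
            exact sum_congr rfl fun c _ => by ring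
          rw [← h8]
          push_cast at h ⊢
          linear_combination h + e4) x) hball
    refine ⟨ψ, fun t ht x hx => ?_⟩
    obtain ⟨a, -, rfl⟩ := mem_image.1 hx
    exact hψ t ht a

end Pool.Agent.Lib.MP_5ab464_nt
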