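import Pool.Agent.Lib.MP_5ab464_nt.H84Moves

/-! One stage of the construction. -/

open Finset

namespace Pool.Agent.Lib.MP_5ab464_nt

/-- The finite parts of the distance graph of `R` on the `y`-rough integers have a proper
colouring with `3 k` colours. -/
def Col (k y : ℕ) (R : Finset ℕ) : Prop :=
  ∀ I : Finset ℤ, ∃ col : ℤ → ZMod 3 × ZMod k, ∀ x ∈ I, ∀ r ∈ R, x + r ∈ I →
    Rough y x → Rough y (x + r) → col x ≠ col (x + r)

/-- `R` meets the difference set of each set of upper density at least `δ`. -/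
def Hit (δ : ℝ) (R : Finset ℕ) : Prop :=
  ∀ A : Set ℕ, (∀ M : ℕ, ∃ N : ℕ, M ≤ N ∧ δ * N ≤ cnt A N) →
    ∃ a ∈ A, ∃ b ∈ A, a < b ∧ b - a ∈ R

namespace Step

theorem uniq {W t t' β β' : ℤ} (h : W * t + β = W * t' + β') (h1 : 0 ≤ β) (h2 : β < W)
    (h3 : 0 ≤ β') (h4 : β' < W) : t = t' := by
  rcases lt_trichotomy t t' with h5 | h5 | h5
  · have : W * (t + 1) ≤ W * t' := mul_le_mul_of_nonneg_left h5 (by omega)
    linarith
  · exact h5
  · have : W * (t' + 1) ≤ W * t := mul_le_mul_of_nonneg_left h5 (by omega)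
    linarith

theorem exists_cell {W : ℕ} (hW : 0 < W) : ∃ (cell : ℤ → ℤ) (b : ℤ → Fin W),
    ∀ x, x = W * cell x + 2 + (b x : ℕ) := by
  have h0 : (0 : ℤ) < W := by exact_mod_cast hW
  refine ⟨fun x => (x - 2) / W, fun x => ⟨((x - 2) % W).toNat, ?_⟩, fun x => ?_⟩
  · have := Int.emod_lt_of_pos (x - 2) h0
    omega
  · have := Int.mul_ediv_add_emod (x - 2) W
    have h1 := Int.emod_nonneg (x - 2) h0.ne'
    dsimp only
    rw [Int.toNat_of_nonneg h1]
    linarith

theorem exists_off {k W : ℕ} (hW : 0 < W) (G : Finset (Fin W)) :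
    ∃ o : Fin k → Fin W, k ≤ #G → Function.Injective o ∧ ∀ m, o m ∈ G := by
  by_cases h : k ≤ #G
  · obtain ⟨e⟩ := Function.Embedding.nonempty_of_card_le (α := Fin k) (β := G) (by simpa using h)
    exact ⟨fun m => e m, fun _ => ⟨Subtype.val_injective.comp e.injective, fun m => (e m).2⟩⟩
  · exact ⟨fun _ => ⟨0, hW⟩, fun h' => absurd h' h⟩

theorem exists_rk {k W : ℕ} [NeZero k] (G : Finset (Fin W)) :
    ∃ o : Fin W → ZMod k, ¬ k ≤ #G → ∀ a ∈ G, ∀ b ∈ G, o a = o b → a = b := by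
  by_cases h : k ≤ #G
  · exact ⟨fun _ => 0, fun h' => absurd h h'⟩
  · obtain ⟨e⟩ := Function.Embedding.nonempty_of_card_le (α := G) (β := ZMod k)
      (by simpa using (not_le.1 h).le)
    refine ⟨fun a => if ha : a ∈ G then e ⟨a, ha⟩ else 0, fun _ a ha b hb hab => ?_⟩
    simp only [ha, hb, dite_true] at hab
    exact congrArg Subtype.val (e.injective hab)

theorem three (a : ℕ) : (1 : ZMod 3) + ((a % 2 : ℕ) : ZMod 3) ≠ 0 := by
  rcases Nat.mod_two_eq_zero_or_one a with h | h <;> rw [h] <;> decide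

theorem three' {a b : ℕ} (h : ((a % 2 : ℕ) : ZMod 3) = ((b % 2 : ℕ) : ZMod 3)) : a % 2 = b % 2 := by
  rcases Nat.mod_two_eq_zero_or_one a with h1 | h1 <;>
    rcases Nat.mod_two_eq_zero_or_one b with h2 | h2 <;> rw [h1, h2] at h ⊢ <;>
    exact absurd h (by decide)

end Step

open Step in
theorem step {k : ℕ} (hk : 10 ^ 6 ≤ k) {y : ℕ} {R : Finset ℕ} (h : Col k y R) (Y : ℕ) {δ : ℝ}
    (hδ : 0 < δ) : ∃ (R' : Finset ℕ) (y' : ℕ), Y < y' ∧
      (∀ r ∈ R', y' < r ∧ ∀ p : ℕ, p.Prime → p ≤ Y → p ∣ r) ∧ Hit δ R' ∧ Col k y' (R ∪ R') := by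
  classical
  obtain ⟨Y', hY'⟩ : ∃ Y', Y' = Y + y + R.sup id + 2 := ⟨_, rfl⟩
  obtain ⟨W, hW0, hW⟩ : ∃ W : ℕ, 0 < W ∧ ∀ p : ℕ, p.Prime → (p ∣ W ↔ p ≤ Y') :=
    ⟨Y'.factorial, Y'.factorial_pos, fun p hp => hp.dvd_factorial⟩
  have hd : 0 < min (δ / 2) 1 := lt_min (by linarith) one_pos
  obtain ⟨Q, hQ, hP⟩ := exists_primes (Y' + 2) (div_pos hd (by norm_num : (0 : ℝ) < 8))
  obtain ⟨S, y', h1, h2, h3, h4, h5⟩ := moves hk hW0 (Q := Q)
    (fun q hq => ⟨(hQ q hq).1, by have := (hQ q hq).2; omega, fun h => by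
      have := (hW q (hQ q hq).1).1 h
      have := (hQ q hq).2
      omega⟩) hd (min_le_right _ _) hP (Y' + Q.sup id + 1)
  have hWz : (0 : ℤ) < W := by exact_mod_cast hW0
  refine ⟨S.image fun r : ℤ => ((W : ℤ) * r).natAbs, y', by omega, fun r hr => ?_, fun A hA => ?_,
    fun I => ?_⟩
  · obtain ⟨r, hs, rfl⟩ := mem_image.1 hr
    rw [Int.natAbs_mul, Int.natAbs_natCast]
    refine ⟨?_, fun p hp hY => ((hW p hp).2 (by omega)).mul_right _⟩
    have h6 := h2 r hs
    rw [Int.abs_eq_natAbs] at h6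
    exact (by exact_mod_cast h6 : y' < r.natAbs).trans_le (Nat.le_mul_of_pos_left _ hW0)
  · obtain ⟨a, ha, b, hb, r, hr, e⟩ := h4 A fun M => by
      obtain ⟨N, hN, hN'⟩ := hA M
      refine ⟨N, hN, le_trans ?_ hN'⟩
      have := min_le_left (δ / 2) 1
      gcongr
      linarith
    have h6 : (W : ℤ) * r ≠ 0 := mul_ne_zero hWz.ne' fun h => by
      have := h2 r hr
      rw [h, abs_zero] at this
      omega
    rcases lt_or_gt_of_ne h6 with h7 | h7
    · exact ⟨b, hb, a, ha, by omega, mem_image.2 ⟨r, hr, by omega⟩⟩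
    · exact ⟨a, ha, b, hb, by omega, mem_image.2 ⟨r, hr, by omega⟩⟩
  have : NeZero k := ⟨by omega⟩
  have : ∀ q : Q, NeZero (q : ℕ) := fun q => ⟨(hQ q q.2).1.ne_zero⟩
  obtain ⟨cell, b, hb⟩ := exists_cell hW0
  obtain ⟨u, hu⟩ := h (Finset.Ico 2 (W + 2))
  let G : ℤ → Finset (Fin W) := fun t => univ.filter fun β => Rough y' (W * t + 2 + (β : ℕ))
  choose off hoff using fun t => exists_off (k := k) hW0 (G t)
  choose rk hrk using fun t => exists_rk (k := k) (G t)
  obtain ⟨ψ, hψ⟩ := h5 ((I.image cell).filter fun t => k ≤ #(G t)) off fun t ht =>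
    ⟨(hoff t (mem_filter.1 ht).2).1, fun m => (mem_filter.1 ((hoff t (mem_filter.1 ht).2).2 m)).2⟩
  let c : ℤ → ZMod 3 := fun x => (((∑ q : Q, (x : ZMod q).val) % 2 : ℕ) : ZMod 3)
  let col : ℤ → ZMod 3 × ZMod k := fun x =>
    if k ≤ #(G (cell x)) then ((u (2 + (b x : ℕ))).1, (u (2 + (b x : ℕ))).2 + (ψ (cell x) : ℕ))
    else ((u (2 + (b x : ℕ))).1 + (1 + c x), rk (cell x) (b x))
  have hG : ∀ x, Rough y' x → b x ∈ G (cell x) := fun x hx =>
    mem_filter.2 ⟨mem_univ _, by rw [← hb x]; exact hx⟩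
  have hlt : ∀ x, ((b x : ℕ) : ℤ) < W := fun x => by exact_mod_cast (b x).2
  have hro : ∀ x, Rough y' x → Rough Y' (2 + (b x : ℕ)) := fun x hx p hp hpY hd =>
    hx p hp (by omega) (by
      rw [hb x, add_assoc]
      exact dvd_add ((Int.natCast_dvd_natCast.2 ((hW p hp).2 hpY)).mul_right _) hd)
  have new : ∀ x ∈ I, ∀ r ∈ S, x + W * r ∈ I → Rough y' x → Rough y' (x + W * r) →
      col x ≠ col (x + W * r) := by
    intro x hx r hr hx' k1 k2
    have e1 := hb x
    have e2 := hb (x + W * r)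
    have e3 : cell (x + W * r) = cell x + r :=
      uniq (W := W) (β := (b (x + W * r) : ℕ)) (β' := (b x : ℕ)) (by linarith)
        (Nat.cast_nonneg _) (hlt _) (Nat.cast_nonneg _) (hlt _)
    have e4 : b (x + W * r) = b x := Fin.ext (by
      rw [e3] at e2
      have : ((b (x + W * r) : ℕ) : ℤ) = (b x : ℕ) := by linarith
      exact_mod_cast this)
    simp only [col, e4]
    split_ifs with s1 s2 s2 <;> intro he
    · refine hψ _ (mem_filter.2 ⟨mem_image_of_mem _ hx, s1⟩) r hr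
        (e3 ▸ mem_filter.2 ⟨mem_image_of_mem _ hx', s2⟩) (Fin.ext ?_)
      have h6 := (ZMod.natCast_eq_natCast_iff' _ _ _).1 (add_left_cancel (congrArg Prod.snd he))
      have h7 := (ψ (cell x)).2
      have h8 := (ψ (cell (x + W * r))).2
      rwa [Nat.mod_eq_of_lt (by omega), Nat.mod_eq_of_lt (by omega), e3] at h6
    · exact three _ (left_eq_add.1 (congrArg Prod.fst he))
    · exact three _ (add_eq_left.1 (congrArg Prod.fst he))
    · have hz : ∀ z, Rough y' z → ∀ q : Q, (z : ZMod q) ≠ 0 := fun z hz q h0 =>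
        hz q (hQ q q.2).1 (by have := le_sup (f := id) q.2; dsimp only [id] at this; omega)
          ((ZMod.intCast_zmod_eq_zero_iff_dvd _ _).1 h0)
      refine parity_flip (q := fun q : Q => (q : ℕ)) (fun q => by have := (hQ q q.2).2; omega)
        (hz _ k1) (hz _ k2) ?_ (three' (add_left_cancel (add_left_cancel (congrArg Prod.fst he))))
      convert h3 r hr using 1
      ext q
      simp
  refine ⟨col, fun x hx r hr hx' k1 k2 => ?_⟩
  rcases mem_union.1 hr with hr | hr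
  · have e1 := hb x
    have e2 := hb (x + r)
    have h6 : r ≤ R.sup id := le_sup (f := id) hr
    have h7 : r ≤ b (x + r) := by
      by_contra h7
      obtain ⟨p, hp, hd⟩ := Nat.exists_prime_and_dvd (n := 2 + (b (x + r) : ℕ)) (by omega)
      exact hro _ k2 p hp ((Nat.le_of_dvd (by omega) hd).trans (by omega)) (by exact_mod_cast hd)
    have h8 := hlt (x + r)
    have e3 : cell (x + r) = cell x :=
      uniq (W := W) (β := ((b (x + r) : ℕ) : ℤ) - r) (β' := (b x : ℕ)) (by linarith)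
        (by omega) (by omega) (Nat.cast_nonneg _) (hlt _)
    have e4 : ((b (x + r) : ℕ) : ℤ) = (b x : ℕ) + r := by
      rw [e3] at e2
      linarith
    have h9 : u (2 + (b x : ℕ)) ≠ u (2 + (b (x + r) : ℕ)) := by
      have := hu (2 + (b x : ℕ)) (mem_Ico.2 ⟨by omega, by omega⟩) r hr
      rw [add_assoc, ← e4] at this
      exact this (mem_Ico.2 ⟨by omega, by omega⟩) (fun p hp h => hro _ k1 p hp (by omega))
        fun p hp h => hro _ k2 p hp (by omega)
    simp only [col, e3]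
    split_ifs with s1 <;> intro he
    · exact h9 (Prod.ext (Prod.ext_iff.1 he).1 (add_right_cancel (Prod.ext_iff.1 he).2))
    · exact h9 (by rw [hrk _ s1 _ (hG _ k1) _ (e3 ▸ hG _ k2) (congrArg Prod.snd he)])
  · obtain ⟨r, hs, rfl⟩ := mem_image.1 hr
    rcases Int.natAbs_eq ((W : ℤ) * r) with e | e
    · rw [← e] at hx' k2 ⊢
      exact new x hx r hs hx' k1 k2
    · have e' : x + (((W : ℤ) * r).natAbs : ℕ) + W * r = x := by omega
      have := new _ hx' r hs (by rwa [e']) k2 (by rwa [e'])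
      rw [e'] at this
      exact this.symm

end Pool.Agent.Lib.MP_5ab464_nt
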